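import Pool.Agent.H91.AB.Shf

/-!
# All rates of the place are small on a sub-box

`BoxD.ht`: larger errors. `box_main`: with the hops and the ties of all orders up to `kt` at all
windows of the sub-box, and few bits of the order `kt + 1`, the rate of the order `1` is small.
-/

set_option autoImplicit false

namespace Pool.AB18

open Finset Real MvPolynomial
open Pool.Agent.H49.Ent Pool.Agent.H32.Dense Pool.STK Pool.KA Pool.KSAT Pool.K2S Pool.PB Pool.GEN
open Pool.S6C Pool.RCD Pool.LA91 Pool.OWN68 Pool.AJW Pool.AJX Pool.CHT Pool.PN18 Pool.LPK12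
open Pool.TE46 Pool.AB63

variable {m : ℕ} {S : PCl m} {c : ℕ → Fin m} {r K kt : ℕ} {a b : ℝ} {sn : ℕ → ℝ → ℝ} {γ s : ℝ}
  {U : Type} {Qp : Qt m U} {x : ℕ → ℝ} {N : ℕ} {u η η' : ℝ} {θ : ℕ → ℕ → ℕ → ℝ} {φ : ℕ → ℝ}

/-- **Larger errors.** -/
theorem bxd_ht (B : BoxD S c r K kt a b sn γ s Qp x N u η θ φ) (hη : η ≤ η') :
    BoxD S c r K kt a b sn γ s Qp x N u η' θ φ := by
  have hu : η * u ≤ η' * u := mul_le_mul_of_nonneg_right hη B.u0.le
  exact
  { tm := B.tm
    u0 := B.u0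
    s0 := B.s0
    s1 := B.s1.trans hu
    xs := B.xs
    x1 := B.x1
    exu := B.exu
    exn := B.exn
    nu := fun n hn l hl D hD => FewC.mono hu (B.nu n hn l hl D hD)
    nn := fun n hn l hl D hD => FewC.mono hu (B.nn n hn l hl D hD)
    zu := fun n hn l hl D hD => FewC.mono hu (B.zu n hn l hl D hD)
    zn := fun n hn l hl D hD => FewC.mono hu (B.zn n hn l hl D hD)
    rf := B.rf
    ra := fun l h1 h2 i j hij hj => (B.ra l h1 h2 i j hij hj).mono (by linarith only [hu])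
    ad := fun l h1 h2 i j k hij hjk hk => (B.ad l h1 h2 i j k hij hjk hk).trans
      (by linarith only [hu])
    ip := fun l h1 h2 i j k hij hjk hk => (B.ip l h1 h2 i j k hij hjk hk).mono hu
    vf := fun l h1 h2 i j hij hj => FewC.mono (by linarith only [hu]) (B.vf l h1 h2 i j hij hj)
    va := fun l h1 h2 i j hij hj => (B.va l h1 h2 i j hij hj).mono (by linarith only [hu]) }

/-- **The rate of the order** `1` **is small** on a sub-box with hops and ties of all orders. -/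
theorem box_main {K kt m0 E M : ℕ} {a : ℝ} {εh : ℕ → ℝ} {dh : ℕ → ℝ → ℝ} {εt : ℕ → ℝ}
    {dt : ℕ → ℝ → ℝ} (ha : 0 < a) (hkt : (kt : ℝ) < a) (hka : a ≤ kt + 1) (hkK : kt ≤ K + 2)
    (hm0 : a + 1 ≤ m0) (hE : 1 ≤ E) (hεE : ∀ j, 1 ≤ j → j ≤ kt → 1 ≤ εh j * E)
    (hdh : ∀ j al, 1 ≤ j → j ≤ kt → 0 < al → 0 < dh j al)
    (hM : a * (m0 + 1) * E ≤ (a - kt) * M) (hεt : ∀ i, 1 ≤ i → i ≤ kt → 1 ≤ εt i * E)
    (hdt : ∀ i al, 1 ≤ i → i ≤ kt → 0 < al → 0 < dt i al) (hk1 : 1 ≤ kt) (κ : ℝ) (hκ : 0 < κ) :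
    ∃ tol : ℝ, 0 < tol ∧
    ∀ {m : ℕ} {S : PCl m} {c : ℕ → Fin m} {r : ℕ} {b : ℝ} {sn : ℕ → ℝ → ℝ} {γ s : ℝ}
    {U : Type} {Qp : Qt m U} {x : ℕ → ℝ} {N : ℕ} {u η : ℝ} {θ : ℕ → ℕ → ℕ → ℝ} {φ : ℕ → ℝ},
    BoxD S c r K kt a b sn γ s Qp x N u η θ φ → 0 ≤ η → η ≤ tol →
    a * (m0 + 1) * (E * u) + s ≤ x 0 - b →
    (kt + 1 ≤ K + 2 → ∀ n ≤ N, Fcx S (x n) Qp (qu m c r b sn (kt + 1)
      ((a - (kt + 1 : ℕ)) * (x n - b) + a * (m0 + 1) * (E * u) + s)) (tol * u)) →
    (kt + 1 ≤ K + 2 → ∀ n ≤ N, Fcx S (x n) Qp (qn m c r b sn γ (kt + 1)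
      ((a - (kt + 1 : ℕ)) * (x n - b) + a * (m0 + 1) * (E * u))) (tol * u)) →
    φ (kt + 1) ≤ tol → (2 * kt + 1) * (m0 * E + M + E) ≤ N →
    (∀ j, 1 ≤ j → j ≤ kt → ∀ n, m0 * E ≤ n → n + E ≤ N → ∀ al : ℝ, 0 < al →
      HopB S c r K a b sn γ s Qp j (x (n - m0 * E)) (x n) (a * ((a - j) * (E * u) / a)) (εh j)
        ((a - j) * (E * u) / a) al (dh j al)) →
    (∀ i, 1 ≤ i → i ≤ kt → ∀ n, m0 * E ≤ n → n + E ≤ N → ∀ al : ℝ, 0 < al →
      TieB S c r K a b sn γ s Qp i (x (n - m0 * E)) (x n) (a * ((a - i) * (E * u) / a)) (εt i)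
        ((a - i) * (E * u) / a) al (dt i al)) → φ 1 < κ := by
  have H := fun (i : ℕ) (hi : 1 ≤ i ∧ i ≤ kt) (κ : ℝ) (hκ : 0 < κ) =>
    box_false (K := K) (kt := kt) (m0 := m0) (E := E) (M := M) (i := i) (a := a) (εh := εh)
      (dh := dh) (εt := εt i) (dt := dt i) ha hkt hka hkK hm0 hE
      (fun j h1 h2 => hεE j (by omega) h2) (fun j al h1 h2 h3 => hdh j al (by omega) h2 h3) hM hi.1
      hi.2 (hεt i hi.1 hi.2) (fun al hal => hdt i al hi.1 hi.2 hal) κ hκ
  choose! tf htf Hf using H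
  obtain ⟨kp, hkp⟩ : ∃ kp : ℕ → ℝ, kp = fun n => Nat.rec κ
    (fun i y => min (tf (i + 1) (y / 2)) (y / 2)) n := ⟨_, rfl⟩
  have k0 : kp 0 = κ := by
    rw [hkp]
    rfl
  have ks : ∀ i, kp (i + 1) = min (tf (i + 1) (kp i / 2)) (kp i / 2) := fun i => by rw [hkp]
  have kpos : ∀ i, i ≤ kt → 0 < kp i := by
    intro i
    induction i with
    | zero =>
      intro _
      rw [k0]
      exact hκ
    | succ i ih =>
      intro hi
      rw [ks]
      have h1 := ih (by omega)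
      exact lt_min (htf (i + 1) ⟨by omega, hi⟩ _ (half_pos h1)) (half_pos h1)
  have kd : ∀ i < kt, kp (i + 1) ≤ kp i / 2 := fun i _ => by
    rw [ks]
    exact min_le_right _ _
  have kt' : ∀ i < kt, kp (i + 1) ≤ tf (i + 1) (kp i / 2) := fun i _ => by
    rw [ks]
    exact min_le_left _ _
  have kan : ∀ i j, i ≤ j → j ≤ kt → kp j ≤ kp i := by
    intro i j hij
    induction j, hij using Nat.le_induction with
    | base => exact fun _ => le_rfl
    | succ j hij ih =>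
      intro hj
      have h1 := kd j (by omega)
      have h2 := kpos j (by omega)
      have h3 := ih (by omega)
      linarith only [h1, h2, h3]
  refine ⟨kp kt, kpos kt le_rfl, ?_⟩
  intro m S c r b sn γ s U Qp x N u η θ φ B hη0 hη deep tu tn hφk hN hH hT
  have hu0 := B.u0
  -- all rates
  have key : ∀ n j, 1 ≤ j → j ≤ kt → kt ≤ j + n → φ j < kp (j - 1) := by
    intro n
    induction n with
    | zero =>
      intro j h1 h2 h3
      obtain rfl : j = kt := by omega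
      by_contra hc
      rw [not_lt] at hc
      obtain ⟨i, rfl⟩ : ∃ i, j = i + 1 := ⟨j - 1, by omega⟩
      rw [Nat.add_sub_cancel] at hc
      have ht := kt' i (by omega)
      have hd := kd i (by omega)
      have hp := kpos i (by omega)
      have hB := bxd_ht B hη
      refine Hf (i + 1) ⟨h1, h2⟩ (kp i / 2) (half_pos hp) (BoxH.mk hB deep tu tn
        (fun l h4 h5 => absurd h4 (by omega)) (fun j h4 h5 => absurd h4 (by omega)))
        (hη0.trans hη) ht (by linarith only [hc, hφk, hd]) hN (fun n h4 h5 al hal =>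
          hT (i + 1) h1 h2 n h4 h5 al hal)
    | succ n ih =>
      intro j h1 h2 h3
      by_cases h4 : kt ≤ j + n
      · exact ih j h1 h2 h4
      by_contra hc
      rw [not_lt] at hc
      obtain ⟨i, rfl⟩ : ∃ i, j = i + 1 := ⟨j - 1, by omega⟩
      rw [Nat.add_sub_cancel] at hc
      have ht := kt' i (by omega)
      have hd := kd i (by omega)
      have hp := kpos i (by omega)
      have hηj : kp kt ≤ kp (i + 1) := kan (i + 1) kt (by omega) le_rfl
      have hηu : kp kt * u ≤ kp (i + 1) * u := mul_le_mul_of_nonneg_right hηj hu0.le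
      have hB := bxd_ht B (hη.trans hηj)
      have h5 := ih (i + 2) (by omega) (by omega) (by omega)
      have e5 : i + 2 - 1 = i + 1 := by omega
      rw [e5] at h5
      have h6 : (i : ℕ) + 1 + 1 = i + 2 := rfl
      refine Hf (i + 1) ⟨h1, h2⟩ (kp i / 2) (half_pos hp) (BoxH.mk hB deep
        (fun h7 n hn => FewC.mono hηu (tu h7 n hn)) (fun h7 n hn => FewC.mono hηu (tn h7 n hn))
        (fun l h7 h8 => ?_) (fun j h7 h8 => hH j (by omega) h8))
        ((kpos kt le_rfl).le.trans hηj) ht (by rw [h6]; linarith only [hc, h5, hd]) hN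
        (fun n h7 h8 al hal => hT (i + 1) h1 h2 n h7 h8 al hal)
      have h9 := ih l (by omega) h8 (by omega)
      have h10 := kan (i + 1) (l - 1) (by omega) (by omega)
      linarith only [h9, h10]
  have h1 := key kt 1 le_rfl hk1 (by omega)
  rw [Nat.sub_self, k0] at h1
  exact h1

end Pool.AB18
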