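import Pool.Agent.H30.AB.Lsr
import Pool.Agent.H28.AB.Uro
import Pool.Agent.H3.V0F.Attu
import Pool.Agent.H3.D2G.RecG
import Pool.Agent.H18.PN.Stg8

/-!
# The lists of one early window at a record

`gK`: the windows of `G` at most `K q` from `t`. `linG_rec`: the levels are linear. `rfam_rec`,
`rsin_rec`: the lists of the orders `i ≤ a` are families given the near path.
-/

set_option autoImplicit false

namespace Pool.PN18

open Finset Real MvPolynomial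
open Pool.Agent.H49.Ent Pool.Agent.H32.Dense Pool.STK Pool.KA Pool.KSAT Pool.K2S Pool.PB Pool.GEN
open Pool.S6C Pool.RCD Pool.LA91 Pool.OWN68 Pool.AJW Pool.AJX Pool.CHT Pool.PKG
open Pool.LP30 (paQ)
open Pool.RJ28 (dgj)
open Pool.LPT30 (TwT)
open Pool.LST30 (xL LinG rfam_box rsin_box)
open Pool.AB62

/-- The windows of `G` at most `K q` from `t`. -/
def gK (G : Set ℝ) (t K q : ℝ) : Set ℝ := G ∩ Set.Icc (t - K * q) (t + K * q)

theorem gK_closed {G : Set ℝ} (hG : IsClosed G) (t K q : ℝ) : IsClosed (gK G t K q) :=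
  hG.inter isClosed_Icc

theorem gK_abs {G : Set ℝ} {t K q w : ℝ} (hw : w ∈ gK G t K q) : |w - t| ≤ K * q := by
  have h1 := hw.2.1
  have h2 := hw.2.2
  rw [abs_le]
  exact ⟨by linarith only [h1], by linarith only [h2]⟩

theorem gK_mem {G : Set ℝ} {t K q x : ℝ} (hq : 0 ≤ q) (hx : t + x * q ∈ G) (h : |x| ≤ K) :
    t + x * q ∈ gK G t K q := by
  have h1 := abs_le.1 h
  have h2 := mul_le_mul_of_nonneg_right h1.1 hq
  have h3 := mul_le_mul_of_nonneg_right h1.2 hq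
  exact ⟨hx, by linarith only [h2], by linarith only [h3]⟩

section

variable {m : ℕ} {S : PCl m} {al : ℝ} {g₀ : ℝ → ℝ} {P : List (Fin m) × Fin m → ℝ → ℝ → ℝ}
    {θ : ℝ} {P₂ : ℕ → List (Fin m) × Fin m → ℝ → ℝ → ℝ} {θ₂ Eb e₂ : ℕ → ℝ}
    {c : ℕ → Fin m} {Pt : ℝ → ℝ → ℝ} {rt : ℝ → ℝ} {h K₀ g : ℝ} {L T : ℕ → ℝ → ℝ → ℝ}
    {Sl : ℕ → ℝ} {κ : ℕ → Kg} {G : Set ℝ} {S₀ N : ℕ} {A V : ℕ → ℝ} {S₂ N' : ℕ} {V' : ℕ → ℝ}
    {K' ε q t : ℝ}

/-- The levels increase. -/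
theorem _root_.Pool.PKG.RecG.mnD
    (Rc : RecG S al g₀ P θ P₂ θ₂ Eb e₂ c Pt rt h K₀ g L T Sl κ G S₀ N A V S₂ N' V' K' ε q t)
    {l : ℕ} (hl : l < m) {w v : ℝ} (hw : |w - t| ≤ K' * q) (hv : |v - t| ≤ K' * q) (hwv : w ≤ v) :
    L l w w ≤ L l v v := by
  have h1 := (abs_le.1 hw).1
  have h2 := (abs_le.1 hv).2
  have h3 := Rc.t0
  have h4 := Rc.t1
  have h5 := Rc.lawL l hl
  exact (h5.mono_a w v w (by linarith only [h1, h3]) le_rfl hwv (by linarith only [h2, h4])).trans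
    (h5.mono_w v w v (by linarith only [h1, h3]) hwv le_rfl (by linarith only [h2, h4]))

/-- **The levels are linear** near the record. -/
theorem linG_rec {r : ℕ} {a K₁ μ : ℝ}
    (Rc : RecG S al g₀ P θ P₂ θ₂ Eb e₂ c Pt rt h K₀ g L T Sl κ G S₀ N A V S₂ N' V' K' ε q t)
    (hrm : r + 1 < m) (hκ : ∀ l < r, κ l = .one) (hSa : Sl r = a) (hSn : Sl (r + 1) = a)
    (hK : K₁ + μ ≤ K') (hμ : 0 ≤ μ)
    (hgap : ∀ y, t - K₁ * q ≤ y → y ≤ t + K₁ * q → ∃ u ∈ G, y - μ * q ≤ u ∧ u ≤ y) :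
    LinG (fun l x => L l x x) r (gK G t K' q) a (t - K₁ * q) (t + K₁ * q) (2 * ε * q)
      (μ * q) := by
  have hq := Rc.q0
  have hμq : 0 ≤ μ * q := mul_nonneg hμ hq.le
  have hKq : (K₁ + μ) * q ≤ K' * q := mul_le_mul_of_nonneg_right hK hq.le
  have key : ∀ l < m, ∀ s : ℝ, Sl l = s → ∀ x ∈ gK G t K' q, ∀ y ∈ gK G t K' q,
      |L l y y - L l x x - s * (y - x)| ≤ 2 * ε * q := by
    intro l hl s hs x hx y hy
    have h1 := abs_le.1 (Rc.dL l hl x (gK_abs hx))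
    have h2 := abs_le.1 (Rc.dL l hl y (gK_abs hy))
    rw [hs] at h1 h2
    rw [abs_le]
    exact ⟨by linarith only [h1.2, h2.1], by linarith only [h1.1, h2.2]⟩
  refine ⟨fun l hl x hx y hy _ _ _ => ?_, fun x hx y hy _ _ _ => key r (by omega) a hSa x hx y hy,
    fun x hx y hy _ _ _ => key (r + 1) hrm a hSn x hx y hy, fun x h1 h2 => ?_⟩
  · have h2 := Rc.kd l (by omega)
    rw [hκ l hl] at h2
    have h3 : Sl l = 1 := h2
    have h4 := key l (by omega) 1 h3 x hx y hy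
    rw [one_mul] at h4
    exact h4
  · obtain ⟨u, hu, h3, h4⟩ := hgap x h1 h2
    exact ⟨u, ⟨hu, by linarith only [h1, h3, hKq], by linarith only [h2, h4, hKq, hμq]⟩, h3, h4⟩

/-- The chains at the windows near the record. -/
theorem chG_gK {r : ℕ} {sn : ℕ → ℝ → ℝ} {K q : ℝ} (hch : ChG S c r sn G) :
    ChG S c r sn (gK G t K q) := ⟨fun w hw => hch.ch w hw.1⟩

/-- **The lists of one early window** `t - Tn q` at the windows `t + x j q` are families. The digits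
of the near path: `dgj (A₁ q) (D₁ q) r l + 2 D₁ q` behind the levels of the early window. -/
theorem rfam_rec {r n : ℕ} {a Tn K₁ μ A₁ D₁ s : ℝ} {x : ℕ → ℝ}
    (Rc : RecG S al g₀ P θ P₂ θ₂ Eb e₂ c Pt rt h K₀ g L T Sl κ G S₀ N A V S₂ N' V' K' ε q t)
    (hG : IsClosed G) (hrm : r + 1 < m) (hκ : ∀ l < r, κ l = .one) (hSa : Sl r = a)
    (hSn : Sl (r + 1) = a) (hch : ChG S c (r + 1) (fun l x => L l x x) G)
    (hex : ∀ w ∈ G, |w - t| ≤ K' * q → ∀ (j : ℕ) (N : ℝ),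
      Exs S (qJet m ((range (r + 1)).image c) (c (r + 1)) j w (L (r + 1) w w) N))
    (hK : K₁ + μ ≤ K') (hμ : 0 ≤ μ) (hε : 0 ≤ ε)
    (hgap : ∀ y, t - K₁ * q ≤ y → y ≤ t + K₁ * q → ∃ u ∈ G, y - μ * q ≤ u ∧ u ≤ y)
    (hbG : t + -Tn * q ∈ G) (hTn : 0 ≤ Tn) (hTK : Tn ≤ K')
    (hx : ∀ j ≤ n, t + x j * q ∈ G) (mono : ∀ i j, i ≤ j → j ≤ n → x i ≤ x j)
    (hx0 : 0 ≤ x 0) (hx1 : x n ≤ K₁) (hA : 0 ≤ A₁) (hD : 0 < D₁) (hεμ : 2 * ε + μ ≤ D₁ / 4)
    (hxb : x n + Tn ≤ D₁) (hp : Tn + (A₁ + 4 * D₁) * 4 ^ r + D₁ ≤ K₁)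
    (hroom : x n + 3 * ((A₁ + 4 * D₁) * 4 ^ r) ≤ K') (hs : 0 < s)
    (hR : a * (x n + Tn) + s + 2 * ε ≤ A₁) {i : ℕ} (hi : (i : ℝ) ≤ a)
    (deep : (a - i) * (x n - x 0) + s + 2 * ε ≤ x 0 + Tn) :
    RFam S (fun J F => ptr F J) (fun _ F => F.T) n (fun j => t + x j * q)
      (paQ m c r (t + -Tn * q) (fun l => L l (t + -Tn * q) (t + -Tn * q))
        (fun l => L l (t + -Tn * q) (t + -Tn * q) + dgj (A₁ * q) (D₁ * q) r l + 2 * (D₁ * q))
        (fun l => L l (t + -Tn * q) (t + -Tn * q) + dgj (A₁ * q) (D₁ * q) r l + 2 * (D₁ * q) -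
          (t + -Tn * q)))
      (fun j => xL m c r i (t + -Tn * q) (fun l x => L l x x)
        ((a - i) * (t + x j * q - (t + -Tn * q))) (s * q)) (2 * a * Real.log 2)
      (Real.log 2 * (s * q + 3 * (2 * ε * q) + a * (μ * q))) := by
  have hq := Rc.q0
  have ht1 := Rc.t1
  have hsq : 0 < s * q := mul_pos hs hq
  have hL := linG_rec Rc hrm hκ hSa hSn hK hμ hgap
  have h4r : (0 : ℝ) ≤ (A₁ + 4 * D₁) * 4 ^ r := by positivity
  have hxn0 : x 0 ≤ x n := mono 0 n (Nat.zero_le n) le_rfl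
  have hxm : ∀ j ≤ n, |x j| ≤ K' := fun j hj => by
    have h1 := mono 0 j (Nat.zero_le j) hj
    have h2 := mono j n hj le_rfl
    rw [abs_le]
    exact ⟨by linarith only [h1, hx0, hTn, hTK], by linarith only [h2, hx1, hK, hμ]⟩
  have hbG' : t + -Tn * q ∈ gK G t K' q := gK_mem hq.le hbG (by
    rw [abs_neg, abs_of_nonneg hTn]
    exact hTK)
  have e1 : dgj (A₁ * q) (D₁ * q) r = fun l => dgj (A₁ * q) (D₁ * q) r l := rfl
  have hTnq : 0 ≤ Tn * q := mul_nonneg hTn hq.le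
  have hxq : ∀ j ≤ n, x j * q ≤ x n * q := fun j hj =>
    mul_le_mul_of_nonneg_right (mono j n hj le_rfl) hq.le
  have e4 : (A₁ * q + 4 * (D₁ * q)) * 4 ^ r = (A₁ + 4 * D₁) * 4 ^ r * q := by ring
  refine rfam_box (S := S) (f := fun J F => ptr F J) (y := fun _ F => F.T) (c := c) (r := r)
    (sn := fun l x => L l x x) (G := gK G t K' q) (a := a) (p := t - K₁ * q) (b := t + -Tn * q)
    (o := t + K₁ * q) (ε := 2 * ε * q) (μ := μ * q) (A := A₁ * q) (D := D₁ * q) (s := s * q)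
    (N := n) (x := fun j => t + x j * q) Rc.tmc Rc.pos (chG_gK hch)
    (TwT.mk (fun w hw j N => hex w hw.1 (gK_abs hw) j N) fun w hw v hv hwv =>
      Rc.mnD hrm (gK_abs hw) (gK_abs hv) hwv) ptr_id ?_ (gK_closed hG _ _ _)
    (fun l hl w hw v hv hwv => Rc.mnD (by omega) (gK_abs hw) (gK_abs hv) hwv)
    (fun j hj => gK_mem hq.le (hx j hj) (hxm j hj)) (fun i j hij hj => ?_)
    (mul_nonneg hA hq.le) (mul_pos hD hq) (by positivity) (mul_nonneg hμ hq.le) ?_ hL hbG' ?_ ?_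
    ?_ ?_ ?_ hi hsq ?_ ?_
  · intro J F
    exact ⟨fun T => (T, (fun _ => 0), fun _ => 0), fun ω => by simp⟩
  · have := mul_le_mul_of_nonneg_right (mono i j hij hj) hq.le
    show t + x i * q ≤ t + x j * q
    linarith only [this]
  · have := mul_le_mul_of_nonneg_right hεμ hq.le
    linarith only [this]
  · have := mul_nonneg hx0 hq.le
    show t + -Tn * q ≤ t + x 0 * q
    linarith only [this, hTnq]
  · have := mul_le_mul_of_nonneg_right hx1 hq.le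
    show t + x n * q ≤ t + K₁ * q
    linarith only [this]
  · have := mul_le_mul_of_nonneg_right hxb hq.le
    show t + x n * q ≤ t + -Tn * q + D₁ * q
    linarith only [this]
  · have := mul_le_mul_of_nonneg_right hp hq.le
    show t - K₁ * q + (A₁ * q + 4 * (D₁ * q)) * 4 ^ r + D₁ * q ≤ t + -Tn * q
    rw [e4]
    linarith only [this]
  · have := mul_le_mul_of_nonneg_right hroom hq.le
    show 3 * ((A₁ * q + 4 * (D₁ * q)) * 4 ^ r) ≤ 1 - (t + x n * q)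
    rw [e4]
    linarith only [this, ht1]
  · have := mul_le_mul_of_nonneg_right hR hq.le
    show a * (t + x n * q - (t + -Tn * q)) + s * q + 2 * ε * q ≤ A₁ * q
    linarith only [this]
  · have := mul_le_mul_of_nonneg_right deep hq.le
    show (a - i) * (t + x n * q - (t + x 0 * q)) + s * q + 2 * ε * q ≤
      t + x 0 * q - (t + -Tn * q)
    linarith only [this]

end

end Pool.PN18
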