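import Pool.Agent.H63.AB.Bxf
import Pool.Agent.H28.AB.Tpp

/-!
# The rate of the place is small

`BoxM`, `TopM`: the statements of `box_main'` and `top_dead'`, with fixed constants. `dead_lt`,
`dead_eq`: the rate of the order `1` is small, from the grid, the hops and the ties: the slope is not
an integer, is an integer.
-/

set_option autoImplicit false

namespace Pool.AB18

open Finset Real MvPolynomial
open Pool.Agent.H49.Ent Pool.Agent.H32.Dense Pool.STK Pool.KA Pool.KSAT Pool.K2S Pool.PB Pool.GEN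
open Pool.S6C Pool.RCD Pool.LA91 Pool.OWN68 Pool.AJW Pool.AJX Pool.CHT Pool.PN18 Pool.LPK12
open Pool.TE46 Pool.AB63 Pool.AB91 Pool.AB62

/-- **Sub-boxes have small rates**, with fixed constants. -/
def BoxM (K kt m0 E M : ℕ) (a : ℝ) (εh : ℕ → ℝ) (dh : ℕ → ℝ → ℝ) (εt : ℕ → ℝ) (dt : ℕ → ℝ → ℝ)
    (alf : ℕ → ℝ) (tol κ : ℝ) : Prop :=
    ∀ {m : ℕ} {S : PCl m} {c : ℕ → Fin m} {r : ℕ} {b : ℝ} {sn : ℕ → ℝ → ℝ} {γ s : ℝ}
    {U : Type} {Qp : Qt m U} {x : ℕ → ℝ} {N : ℕ} {u η : ℝ} {θ : ℕ → ℕ → ℕ → ℝ} {φ : ℕ → ℝ},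
    BoxD S c r K kt a b sn γ s Qp x N u η θ φ → 0 ≤ η → η ≤ tol →
    a * (m0 + 1) * (E * u) + s ≤ x 0 - b →
    (kt + 1 ≤ K + 2 → ∀ n ≤ N, Fcx S (x n) Qp (qu m c r b sn (kt + 1)
      ((a - (kt + 1 : ℕ)) * (x n - b) + a * (m0 + 1) * (E * u) + s)) (tol * u)) →
    (kt + 1 ≤ K + 2 → ∀ n ≤ N, Fcx S (x n) Qp (qn m c r b sn γ (kt + 1)
      ((a - (kt + 1 : ℕ)) * (x n - b) + a * (m0 + 1) * (E * u))) (tol * u)) →
    φ (kt + 1) ≤ tol → (2 * kt + 1) * (m0 * E + M + E) ≤ N →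
    (∀ j, 1 ≤ j → j ≤ kt → ∀ n, m0 * E ≤ n → n + E ≤ N → ∀ al : ℝ, 0 < al →
      HopB S c r K a b sn γ s Qp j (x (n - m0 * E)) (x n) (a * ((a - j) * (E * u) / a)) (εh j)
        ((a - j) * (E * u) / a) al (dh j al)) →
    (∀ i, 1 ≤ i → i ≤ kt → ∀ n, m0 * E ≤ n → n + E ≤ N →
      TieB S c r K a b sn γ s Qp i (x (n - m0 * E)) (x n) (a * ((a - i) * (E * u) / a)) (εt i)
        ((a - i) * (E * u) / a) (alf i) (dt i (alf i))) → φ 1 < κ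

/-- **The order of the slope is dead**, with fixed constants. -/
def TopM (K kt m0 E M0 : ℕ) (a CF εt εh : ℝ) (dh : ℝ → ℝ) (T alm dtm tol : ℝ) : Prop :=
    ∀ {m : ℕ} {S : PCl m} {c : ℕ → Fin m} {r : ℕ} {b : ℝ} {sn : ℕ → ℝ → ℝ} {γ s : ℝ}
    {U : Type} {Qp : Qt m U} {x : ℕ → ℝ} {N : ℕ} {u η : ℝ} {θ : ℕ → ℕ → ℕ → ℝ} {φ : ℕ → ℝ},
    BoxN E CF εt εh S c r K kt a b sn γ s Qp x N u η θ φ → 0 ≤ η → η ≤ tol →
    (∀ n, M0 * E ≤ n → n ≤ N → TieB S c r K a b sn γ s Qp (kt + 1)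
      (x (n - M0 * E)) (x n) (a * (CF * (E * u) / a)) εt (CF * (E * u) / a) alm dtm) →
    (∀ n, M0 * E ≤ n → n ≤ N → ∀ al : ℝ, 0 < al → HopB S c r K a b sn γ s Qp (kt + 1)
      (x (n - M0 * E)) (x n) (a * (εt * (CF * (E * u)) / a)) εh (εt * (CF * (E * u)) / a) al
      (dh al)) →
    ∀ n, M0 * E ≤ n → n ≤ N →
      Fcx S (x n) Qp (qu m c r b sn (kt + 1) ((a - (kt + 1 : ℕ)) * (x n - b) +
        a * (m0 + 1) * (E * u) + s)) (T * u) ∧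
      Fcx S (x n) Qp (qn m c r b sn γ (kt + 1) ((a - (kt + 1 : ℕ)) * (x n - b) +
        a * (m0 + 1) * (E * u))) (T * u)

section

variable {m : ℕ} {S : PCl m} {c : ℕ → Fin m} {r K kt m0 E M M0 L n n' : ℕ} {sn : ℕ → ℝ → ℝ}
  {G : Set ℝ} {a p b o ε μ A D X γ s t q η e₁ κ tol CF εT εH alm dtm : ℝ} {x : ℕ → ℝ} {φ : ℕ → ℝ}
  {εh : ℕ → ℝ} {dh : ℕ → ℝ → ℝ} {εt : ℕ → ℝ} {dt : ℕ → ℝ → ℝ} {alf : ℕ → ℝ} {dH : ℝ → ℝ}

/-- The window `m0 E` steps before. -/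
theorem idx_sub {P k i f : ℕ} (hi : f ≤ i) :
    t + ((P + (i - f) : ℕ) / (L : ℝ) ^ k) * q =
      t + (((P + i : ℕ) : ℝ) / (L : ℝ) ^ k - f / (L : ℝ) ^ k) * q := by
  have e1 : ((P + (i - f) : ℕ) : ℝ) = ((P + i : ℕ) : ℝ) - f := by
    rw [← Nat.add_sub_assoc hi, Nat.cast_sub (by omega)]
  rw [e1, sub_div]

/-- **The rate of the order** `1` **is small**, the slope less than `kt + 1`. -/
theorem dead_lt (hB : BoxM K kt m0 E M a εh dh εt dt alf tol κ) (hkt : (kt : ℝ) ≤ a)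
    (hka : a < kt + 1) (hS : S.Ne) {M₀ : ℝ}
    (hM : Bas S (fun J F A => (cnt F.p (fun ω => ptr F J ω) A : ℝ) ≤ Real.exp (M₀ * J)))
    (g : GrD S c r K sn G a p b o ε μ A D X γ s (L ^ n) x) (hL : 1 ≤ L) (hn : 1 ≤ n')
    (hn' : n' ≤ n) (hq : 0 < q) (htq : t + q ≤ 1) (hη : 0 < η) (hη1 : η ≤ 1) (hηt : η ≤ tol)
    (hxw : ∀ i ≤ L ^ n, x i = t + (i / (L : ℝ) ^ n) * q)
    (hnum : 8 * (kt * (2 * a * Real.log 2 + 1)) * L ≤ η * n')
    (hsm : 12 * ((L + 1) * (kt + 1)) * (s + 3 * ε + a * μ + γ) ≤ η * (q / (L : ℝ) ^ n))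
    (he₁ : e₁ ≤ η * (q / (L : ℝ) ^ n))
    (hvf : ∀ l, 1 ≤ l → l ≤ kt → ∀ i j, i ≤ j → j ≤ L ^ n →
      Fcx S (x i) (paG m c r b sn A D) (qu m c r b sn l ((a - l) * (x j - b)))
        (φ l * (x j - x i) + e₁))
    (hva : ∀ l, 1 ≤ l → l ≤ kt → ∀ i j, i ≤ j → j ≤ L ^ n →
      Alx S (x i) (paG m c r b sn A D) (qu m c r b sn l ((a - l) * (x j - b)))
        ((φ l - φ (l + 1)) * (x j - x i) - e₁))
    (hφk : φ (kt + 1) ≤ tol) (hN : (2 * kt + 1) * (m0 * E + M + E) ≤ L)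
    (deep : a * (m0 + 1) * (E * q) + s ≤ t - b)
    (deep' : a * (m0 + 1) * (E * q) + s ≤ ((kt : ℝ) + 1 - a) * (t - b))
    (hop : ∀ S' : PCl m, S'.Ne →
      (∀ (τ : ℝ) (J : ℕ) (F : Fam m J) (A : F.Ω → Prop), S'.St τ J F A → S.St τ J F A) →
      ∀ j, 1 ≤ j → j ≤ kt → ∀ k ≤ n, ∀ P ≤ L ^ k, ∀ al : ℝ, 0 < al →
      HopB S' c r K a b sn γ s (paG m c r b sn A D) j
        (t + ((P : ℕ) / (L : ℝ) ^ k - m0 * (E / (L : ℝ) ^ k)) * q)
        (t + ((P : ℕ) / (L : ℝ) ^ k) * q) (a * ((a - j) / a * (E / (L : ℝ) ^ k * q))) (εh j)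
        ((a - j) / a * (E / (L : ℝ) ^ k * q)) al (dh j al))
    (tie : ∀ S' : PCl m, S'.Ne →
      (∀ (τ : ℝ) (J : ℕ) (F : Fam m J) (A : F.Ω → Prop), S'.St τ J F A → S.St τ J F A) →
      ∀ i, 1 ≤ i → i ≤ kt → ∀ k ≤ n, ∀ P ≤ L ^ k,
      TieB S' c r K a b sn γ s (paG m c r b sn A D) i
        (t + ((P : ℕ) / (L : ℝ) ^ k - m0 * (E / (L : ℝ) ^ k)) * q)
        (t + ((P : ℕ) / (L : ℝ) ^ k) * q) (a * ((a - i) / a * (E / (L : ℝ) ^ k * q))) (εt i)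
        ((a - i) / a * (E / (L : ℝ) ^ k * q)) (alf i) (dt i (alf i))) : φ 1 < κ := by
  have hL0 : (0 : ℝ) < L := by exact_mod_cast hL
  have hL1 : (1 : ℝ) ≤ L := by exact_mod_cast hL
  have ha0 : 0 ≤ a := g.a0
  obtain ⟨S', hS', hs, θ, k, P, h1, h2, h3, h4, h5, BD⟩ := boxd_ex hS hM g hL hn hn' hq htq hη hη1
    hxw hkt hnum hsm he₁ hvf hva
  have hLk : (0 : ℝ) < (L : ℝ) ^ k := by positivity
  have hu : q / (L : ℝ) ^ k ≤ q := div_le_self hq.le (one_le_pow₀ hL1)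
  have hdu : a * (m0 + 1) * (E * (q / (L : ℝ) ^ k)) ≤ a * (m0 + 1) * (E * q) :=
    mul_le_mul_of_nonneg_left (mul_le_mul_of_nonneg_left hu (Nat.cast_nonneg E)) (by positivity)
  have hx0 : t ≤ t + ((P + 0 : ℕ) / (L : ℝ) ^ k) * q := by
    have : (0 : ℝ) ≤ ((P + 0 : ℕ) / (L : ℝ) ^ k) * q := by positivity
    linarith only [this]
  have hdp : a * (m0 + 1) * (E * (q / (L : ℝ) ^ k)) + s ≤
      t + ((P + 0 : ℕ) / (L : ℝ) ^ k) * q - b := by linarith only [hdu, deep, hx0]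
  have hdp' : a * (m0 + 1) * (E * (q / (L : ℝ) ^ k)) + s ≤
      ((kt : ℝ) + 1 - a) * (t + ((P + 0 : ℕ) / (L : ℝ) ^ k) * q - b) := by
    have h6 : ((kt : ℝ) + 1 - a) * (t - b) ≤
        ((kt : ℝ) + 1 - a) * (t + ((P + 0 : ℕ) / (L : ℝ) ^ k) * q - b) :=
      mul_le_mul_of_nonneg_left (by linarith only [hx0]) (by linarith only [hka])
    linarith only [hdu, deep', h6]
  have hu0 := BD.u0
  have hz : ∀ i ≤ L, (a - (kt + 1 : ℕ)) * (t + ((P + i : ℕ) / (L : ℝ) ^ k) * q - b) +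
      a * (m0 + 1) * (E * (q / (L : ℝ) ^ k)) + s ≤ 0 := by
    intro i hi
    have h6 := BD.mn (Nat.zero_le i) hi
    have h7 : ((kt : ℝ) + 1 - a) * (t + ((P + 0 : ℕ) / (L : ℝ) ^ k) * q - b) ≤
        ((kt : ℝ) + 1 - a) * (t + ((P + i : ℕ) / (L : ℝ) ^ k) * q - b) :=
      mul_le_mul_of_nonneg_left (by linarith only [h6]) (by linarith only [hka])
    have e1 : (a - (kt + 1 : ℕ)) * (t + ((P + i : ℕ) / (L : ℝ) ^ k) * q - b) =
        -(((kt : ℝ) + 1 - a) * (t + ((P + i : ℕ) / (L : ℝ) ^ k) * q - b)) := by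
      push_cast
      ring
    rw [e1]
    linarith only [h7, hdp']
  have hηu : η * (q / (L : ℝ) ^ k) ≤ tol * (q / (L : ℝ) ^ k) :=
    mul_le_mul_of_nonneg_right hηt hu0.le
  have hs0 := g.s0
  refine hB BD hη.le hηt hdp
    (fun hK i hi => (BD.zu i hi (kt + 1) hK _ (hz i hi)).mono hηu)
    (fun hK i hi => (BD.zn i hi (kt + 1) hK _ (by
      have := hz i hi
      linarith only [this, hs0])).mono hηu) hφk hN (fun j j1 j2 i i1 i2 al hal => ?_)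
    (fun j j1 j2 i i1 i2 => ?_)
  · have key := hop S' hS' hs j j1 j2 k h3 (P + i) (by omega) al hal
    have e1 : t + ((P + (i - m0 * E) : ℕ) / (L : ℝ) ^ k) * q =
        t + ((P + i : ℕ) / (L : ℝ) ^ k - m0 * (E / (L : ℝ) ^ k)) * q := by
      rw [idx_sub i1]
      push_cast
      ring
    have e2 : (a - j) * (E * (q / (L : ℝ) ^ k)) / a = (a - j) / a * (E / (L : ℝ) ^ k * q) := by
      ring
    show HopB S' c r K a b sn γ s (paG m c r b sn A D) j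
      (t + ((P + (i - m0 * E) : ℕ) / (L : ℝ) ^ k) * q) (t + ((P + i : ℕ) / (L : ℝ) ^ k) * q)
      (a * ((a - j) * (E * (q / (L : ℝ) ^ k)) / a)) (εh j)
      ((a - j) * (E * (q / (L : ℝ) ^ k)) / a) al (dh j al)
    rw [e1, e2]
    exact key
  · have key := tie S' hS' hs j j1 j2 k h3 (P + i) (by omega)
    have e1 : t + ((P + (i - m0 * E) : ℕ) / (L : ℝ) ^ k) * q =
        t + ((P + i : ℕ) / (L : ℝ) ^ k - m0 * (E / (L : ℝ) ^ k)) * q := by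
      rw [idx_sub i1]
      push_cast
      ring
    have e2 : (a - j) * (E * (q / (L : ℝ) ^ k)) / a = (a - j) / a * (E / (L : ℝ) ^ k * q) := by
      ring
    show TieB S' c r K a b sn γ s (paG m c r b sn A D) j
      (t + ((P + (i - m0 * E) : ℕ) / (L : ℝ) ^ k) * q) (t + ((P + i : ℕ) / (L : ℝ) ^ k) * q)
      (a * ((a - j) * (E * (q / (L : ℝ) ^ k)) / a)) (εt j)
      ((a - j) * (E * (q / (L : ℝ) ^ k)) / a) (alf j) (dt j (alf j))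
    rw [e1, e2]
    exact key

/-- **The rate of the order** `1` **is small**, the slope is `kt + 1`. -/
theorem dead_eq {β : ℕ} {tol' : ℝ} (hB : BoxM K kt m0 E M a εh dh εt dt alf tol κ)
    (hT : TopM K kt m0 E M0 a CF εT εH dH tol alm dtm tol') (hka : a = kt + 1)
    (hCF : 0 ≤ CF) (hεT : 0 ≤ εT) (hεT1 : εT ≤ 1) (hεH : 0 ≤ εH) (hεH1 : εH ≤ 1)
    (hS : S.Ne) {M₀ : ℝ}
    (hM : Bas S (fun J F A => (cnt F.p (fun ω => ptr F J ω) A : ℝ) ≤ Real.exp (M₀ * J)))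
    (g : GrD S c r K sn G a p b o ε μ A D X γ s (L ^ n) x) (hL : 1 ≤ L) (hn : 1 ≤ n')
    (hn' : n' ≤ n) (hβ : 4 * β ≤ L ^ (n - n')) (hCX : CF * (E * q) ≤ X)
    (hBβ : 2 * (2 * (CF * E) + 1) ≤ η * β) (hq : 0 < q) (htq : t + q ≤ 1) (hη : 0 < η)
    (hη1 : η ≤ 1) (hηt : η ≤ tol) (hηt' : η ≤ tol')
    (hxw : ∀ i ≤ L ^ n, x i = t + (i / (L : ℝ) ^ n) * q)
    (hnum : 8 * (kt * (2 * a * Real.log 2 + 1)) * L ≤ η * n')
    (hsm : 12 * ((L + 1) * (kt + 1)) * (s + 3 * ε + a * μ + γ) ≤ η * (q / (L : ℝ) ^ n))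
    (he₁ : e₁ ≤ η * (q / (L : ℝ) ^ n))
    (hvf : ∀ l, 1 ≤ l → l ≤ kt → ∀ i j, i ≤ j → j ≤ L ^ n →
      Fcx S (x i) (paG m c r b sn A D) (qu m c r b sn l ((a - l) * (x j - b)))
        (φ l * (x j - x i) + e₁))
    (hva : ∀ l, 1 ≤ l → l ≤ kt → ∀ i j, i ≤ j → j ≤ L ^ n →
      Alx S (x i) (paG m c r b sn A D) (qu m c r b sn l ((a - l) * (x j - b)))
        ((φ l - φ (l + 1)) * (x j - x i) - e₁))
    (hφk : φ (kt + 1) ≤ tol) (hN : (2 * kt + 1) * (m0 * E + M + E) + M0 * E ≤ L)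
    (deep : a * (m0 + 1) * (E * q) + s ≤ t - b)
    (hop : ∀ S' : PCl m, S'.Ne →
      (∀ (τ : ℝ) (J : ℕ) (F : Fam m J) (A : F.Ω → Prop), S'.St τ J F A → S.St τ J F A) →
      ∀ j, 1 ≤ j → j ≤ kt → ∀ k ≤ n, ∀ P ≤ L ^ k, ∀ al : ℝ, 0 < al →
      HopB S' c r K a b sn γ s (paG m c r b sn A D) j
        (t + ((P : ℕ) / (L : ℝ) ^ k - m0 * (E / (L : ℝ) ^ k)) * q)
        (t + ((P : ℕ) / (L : ℝ) ^ k) * q) (a * ((a - j) / a * (E / (L : ℝ) ^ k * q))) (εh j)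
        ((a - j) / a * (E / (L : ℝ) ^ k * q)) al (dh j al))
    (tie : ∀ S' : PCl m, S'.Ne →
      (∀ (τ : ℝ) (J : ℕ) (F : Fam m J) (A : F.Ω → Prop), S'.St τ J F A → S.St τ J F A) →
      ∀ i, 1 ≤ i → i ≤ kt → ∀ k ≤ n, ∀ P ≤ L ^ k,
      TieB S' c r K a b sn γ s (paG m c r b sn A D) i
        (t + ((P : ℕ) / (L : ℝ) ^ k - m0 * (E / (L : ℝ) ^ k)) * q)
        (t + ((P : ℕ) / (L : ℝ) ^ k) * q) (a * ((a - i) / a * (E / (L : ℝ) ^ k * q))) (εt i)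
        ((a - i) / a * (E / (L : ℝ) ^ k * q)) (alf i) (dt i (alf i)))
    (tieT : ∀ S' : PCl m, S'.Ne →
      (∀ (τ : ℝ) (J : ℕ) (F : Fam m J) (A : F.Ω → Prop), S'.St τ J F A → S.St τ J F A) →
      ∀ k ≤ n, ∀ P ≤ L ^ k, TieB S' c r K a b sn γ s (paG m c r b sn A D) (kt + 1)
        (t + ((P : ℕ) / (L : ℝ) ^ k - M0 * (E / (L : ℝ) ^ k)) * q)
        (t + ((P : ℕ) / (L : ℝ) ^ k) * q) (a * (CF / a * (E / (L : ℝ) ^ k * q))) εT
        (CF / a * (E / (L : ℝ) ^ k * q)) alm dtm)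
    (hopT : ∀ S' : PCl m, S'.Ne →
      (∀ (τ : ℝ) (J : ℕ) (F : Fam m J) (A : F.Ω → Prop), S'.St τ J F A → S.St τ J F A) →
      ∀ k ≤ n, ∀ P ≤ L ^ k, ∀ al : ℝ, 0 < al →
      HopB S' c r K a b sn γ s (paG m c r b sn A D) (kt + 1)
        (t + ((P : ℕ) / (L : ℝ) ^ k - M0 * (E / (L : ℝ) ^ k)) * q)
        (t + ((P : ℕ) / (L : ℝ) ^ k) * q) (a * (εT * CF / a * (E / (L : ℝ) ^ k * q))) εH
        (εT * CF / a * (E / (L : ℝ) ^ k * q)) al (dH al)) : φ 1 < κ := by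
  have hL0 : (0 : ℝ) < L := by exact_mod_cast hL
  have hL1 : (1 : ℝ) ≤ L := by exact_mod_cast hL
  have ha0 : 0 ≤ a := g.a0
  obtain ⟨S', hS', hs, θ, k, P, h1, h2, h3, h4, h5, BN⟩ := boxn_ex (E := E) (CF := CF) (εt := εT)
    (εh := εH) hS hM g hL hn hn' hβ hq htq hη hη1 hxw hka hCF hεT hεT1 hεH hεH1 hCX hBβ hnum hsm
    he₁ hvf hva
  have BD := BN.toBoxD
  have hLk : (0 : ℝ) < (L : ℝ) ^ k := by positivity
  have hu : q / (L : ℝ) ^ k ≤ q := div_le_self hq.le (one_le_pow₀ hL1)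
  have hdu : a * (m0 + 1) * (E * (q / (L : ℝ) ^ k)) ≤ a * (m0 + 1) * (E * q) :=
    mul_le_mul_of_nonneg_left (mul_le_mul_of_nonneg_left hu (Nat.cast_nonneg E)) (by positivity)
  have hx0 : ∀ i : ℕ, t ≤ t + ((P + i : ℕ) / (L : ℝ) ^ k) * q := fun i => by
    have : (0 : ℝ) ≤ ((P + i : ℕ) / (L : ℝ) ^ k) * q := by positivity
    linarith only [this]
  have hu0 := BD.u0
  have hM0L : M0 * E ≤ L := by omega
  -- the top order
  have top := hT BN hη.le hηt' (fun i i1 i2 => by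
      have key := tieT S' hS' hs k h3 (P + i) (by omega)
      have e1 : t + ((P + (i - M0 * E) : ℕ) / (L : ℝ) ^ k) * q =
          t + ((P + i : ℕ) / (L : ℝ) ^ k - M0 * (E / (L : ℝ) ^ k)) * q := by
        rw [idx_sub i1]
        push_cast
        ring
      have e2 : CF * (E * (q / (L : ℝ) ^ k)) / a = CF / a * (E / (L : ℝ) ^ k * q) := by ring
      show TieB S' c r K a b sn γ s (paG m c r b sn A D) (kt + 1)
        (t + ((P + (i - M0 * E) : ℕ) / (L : ℝ) ^ k) * q) (t + ((P + i : ℕ) / (L : ℝ) ^ k) * q)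
        (a * (CF * (E * (q / (L : ℝ) ^ k)) / a)) εT (CF * (E * (q / (L : ℝ) ^ k)) / a) alm dtm
      rw [e1, e2]
      exact key) (fun i i1 i2 al hal => by
      have key := hopT S' hS' hs k h3 (P + i) (by omega) al hal
      have e1 : t + ((P + (i - M0 * E) : ℕ) / (L : ℝ) ^ k) * q =
          t + ((P + i : ℕ) / (L : ℝ) ^ k - M0 * (E / (L : ℝ) ^ k)) * q := by
        rw [idx_sub i1]
        push_cast
        ring
      have e2 : εT * (CF * (E * (q / (L : ℝ) ^ k))) / a =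
          εT * CF / a * (E / (L : ℝ) ^ k * q) := by ring
      show HopB S' c r K a b sn γ s (paG m c r b sn A D) (kt + 1)
        (t + ((P + (i - M0 * E) : ℕ) / (L : ℝ) ^ k) * q) (t + ((P + i : ℕ) / (L : ℝ) ^ k) * q)
        (a * (εT * (CF * (E * (q / (L : ℝ) ^ k))) / a)) εH
        (εT * (CF * (E * (q / (L : ℝ) ^ k))) / a) al (dH al)
      rw [e1, e2]
      exact key)
  have BS := BD.shift hM0L
  refine hB BS hη.le hηt ?_ (fun hK i hi => (top (i + M0 * E) (by omega) (by omega)).1)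
    (fun hK i hi => (top (i + M0 * E) (by omega) (by omega)).2) hφk (by omega)
    (fun j j1 j2 i i1 i2 al hal => ?_) (fun j j1 j2 i i1 i2 => ?_)
  · have := hx0 (0 + M0 * E)
    show a * (m0 + 1) * (E * (q / (L : ℝ) ^ k)) + s ≤
      t + ((P + (0 + M0 * E) : ℕ) / (L : ℝ) ^ k) * q - b
    linarith only [this, hdu, deep]
  · have key := hop S' hS' hs j j1 j2 k h3 (P + (i + M0 * E)) (by omega) al hal
    have e1 : t + ((P + (i - m0 * E + M0 * E) : ℕ) / (L : ℝ) ^ k) * q =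
        t + ((P + (i + M0 * E) : ℕ) / (L : ℝ) ^ k - m0 * (E / (L : ℝ) ^ k)) * q := by
      have e0 : i - m0 * E + M0 * E = i + M0 * E - m0 * E := by omega
      rw [e0, idx_sub (by omega : m0 * E ≤ i + M0 * E)]
      push_cast
      ring
    have e2 : (a - j) * (E * (q / (L : ℝ) ^ k)) / a = (a - j) / a * (E / (L : ℝ) ^ k * q) := by
      ring
    show HopB S' c r K a b sn γ s (paG m c r b sn A D) j
      (t + ((P + (i - m0 * E + M0 * E) : ℕ) / (L : ℝ) ^ k) * q)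
      (t + ((P + (i + M0 * E) : ℕ) / (L : ℝ) ^ k) * q)
      (a * ((a - j) * (E * (q / (L : ℝ) ^ k)) / a)) (εh j)
      ((a - j) * (E * (q / (L : ℝ) ^ k)) / a) al (dh j al)
    rw [e1, e2]
    exact key
  · have key := tie S' hS' hs j j1 j2 k h3 (P + (i + M0 * E)) (by omega)
    have e1 : t + ((P + (i - m0 * E + M0 * E) : ℕ) / (L : ℝ) ^ k) * q =
        t + ((P + (i + M0 * E) : ℕ) / (L : ℝ) ^ k - m0 * (E / (L : ℝ) ^ k)) * q := by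
      have e0 : i - m0 * E + M0 * E = i + M0 * E - m0 * E := by omega
      rw [e0, idx_sub (by omega : m0 * E ≤ i + M0 * E)]
      push_cast
      ring
    have e2 : (a - j) * (E * (q / (L : ℝ) ^ k)) / a = (a - j) / a * (E / (L : ℝ) ^ k * q) := by
      ring
    show TieB S' c r K a b sn γ s (paG m c r b sn A D) j
      (t + ((P + (i - m0 * E + M0 * E) : ℕ) / (L : ℝ) ^ k) * q)
      (t + ((P + (i + M0 * E) : ℕ) / (L : ℝ) ^ k) * q)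
      (a * ((a - j) * (E * (q / (L : ℝ) ^ k)) / a)) (εt j)
      ((a - j) * (E * (q / (L : ℝ) ^ k)) / a) (alf j) (dt j (alf j))
    rw [e1, e2]
    exact key

end

end Pool.AB18
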