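import Pool.Agent.H18.PN.Stge
import Pool.Agent.H18.PN.Fdl
import Pool.Agent.H30.LP.Ipa

/-!
# The first jet of the place, few bits over the labels of an early window

`F1.nearPa`: the near path over the labels of the early window, from the far path over the labels of
the record. `f1_of_b`: the first jet of the place over the labels of the record from the one over the
labels of the early window.
-/

set_option autoImplicit false

namespace Pool.PN18

open Finset Real MvPolynomial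
open Pool.Agent.H49.Ent Pool.Agent.H32.Dense Pool.STK Pool.KA Pool.KSAT Pool.K2S Pool.PB Pool.GEN
open Pool.S6C Pool.RCD Pool.LA91 Pool.OWN68 Pool.AJW Pool.AJX Pool.CHT Pool.PKG Pool.ALT
open Pool.LP30 (paQ)

section

variable {m : ℕ} {S : PCl m} {C₀ : ℝ} {α β γ : ∀ J : ℕ, Fam m J → Type}
  {f : ∀ (J : ℕ) (F : Fam m J), F.Ω → α J F} {g : ∀ (J : ℕ) (F : Fam m J), F.Ω → β J F}
  {y : ∀ (J : ℕ) (F : Fam m J), F.Ω → γ J F} {U : Type} {Q : Qt m U}

/-- **The near path** from all jets of the chain. -/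
theorem nearPa {c : ℕ → Fin m} {r : ℕ} {v e η : ℝ} {p n nH nV : ℕ → ℝ} (htm : TmC S C₀)
    (hA : JetA S f g y Q c 0 r v p n e) (hH : ∀ l < r, nH l ≤ n l)
    (hV : ∀ l < r, nV l ≤ n l - v) (hη : 0 < η) : F1 S f g y Q (paQ m c r v p nH nV) e η := by
  have h1 : (0 : ℝ) < ((r * (1 + 1) : ℕ) : ℝ) + 1 := by positivity
  have h2 : 0 < η / (((r * (1 + 1) : ℕ) : ℝ) + 1) := by positivity
  refine (F1.qjets htm h2.le fun i _ hi j hj => ?_).mono le_rfl ?_
  · have h3 := hA _ (half_pos h2) i (Nat.zero_le i) hi j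
    refine (f1_low htm ?_ (half_pos h2) h3).mono le_rfl (by linarith only [])
    rcases Nat.lt_or_ge j 1 with h4 | h4
    · obtain rfl : j = 0 := by omega
      rw [if_pos rfl]
      have := hH i hi
      push_cast
      linarith only [this]
    · obtain rfl : j = 1 := by omega
      rw [if_neg one_ne_zero]
      have := hV i hi
      push_cast
      linarith only [this]
  · have h3 : (((r * (1 + 1) : ℕ) : ℝ)) * (η / (((r * (1 + 1) : ℕ) : ℝ) + 1)) ≤
        (((r * (1 + 1) : ℕ) : ℝ) + 1) * (η / (((r * (1 + 1) : ℕ) : ℝ) + 1)) :=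
      mul_le_mul_of_nonneg_right (by linarith only []) h2.le
    refine h3.trans (le_of_eq ?_)
    field_simp

end

section

variable {m : ℕ} {S : PCl m} {al : ℝ} {g₀ : ℝ → ℝ} {P : List (Fin m) × Fin m → ℝ → ℝ → ℝ}
    {θ : ℝ} {P₂ : ℕ → List (Fin m) × Fin m → ℝ → ℝ → ℝ} {θ₂ Eb e₂ : ℕ → ℝ}
    {c : ℕ → Fin m} {Pt : ℝ → ℝ → ℝ} {rt : ℝ → ℝ} {h K₀ g : ℝ} {L T : ℕ → ℝ → ℝ → ℝ}
    {Sl : ℕ → ℝ} {κ : ℕ → Kg} {G : Set ℝ} {S₀ N : ℕ} {A V : ℕ → ℝ} {S₂ N' : ℕ} {V' : ℕ → ℝ}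
    {K' ε q t : ℝ}

/-- **The first jet of the place** over the labels of the record, from the one over the labels of the
early window `t - Tn q`. -/
theorem f1_of_b (r : ℕ) {a Tn : ℝ} (ha : 0 < a) (hTn0 : 0 < Tn)
    (Rc : RecG S al g₀ P θ P₂ θ₂ Eb e₂ c Pt rt h K₀ g L T Sl κ G S₀ N A V S₂ N' V' K' ε q t)
    (hrm : r + 1 < m) (hκ : ∀ l < r, κ l = .one) (hSa : Sl r = a)
    (hch : ChG S c (r + 1) (fun l x => L l x x) G) {X φ kf ℓ : ℝ}
    (hφ : 0 < φ) (hφ8 : φ ≤ 1 / 8) (hφX : 32 * (r + 1) * φ ≤ X)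
    (hX : 12 * Tn ≤ X) (hXa : a * Tn + Tn + a + 2 ≤ X) (hkf : 3 ^ r * X ≤ kf)
    (hℓ : kf + Tn ≤ ℓ) (hℓK : ℓ ≤ K') (hK1 : Tn + 3 ^ r * X + 2 ≤ K') (hεφ : 2 * ε ≤ φ)
    (htG : t ∈ G) (hnG : ∀ k ≤ r, t + jfV r (-Tn) X k * q ∈ G) {pf : ℕ → ℝ} {pr : ℝ}
    {Nf : ℕ → ℕ → ℝ} (hpf : ∀ l < r, L l t t - φ * q ≤ pf l) (hpr : L r t t - φ * q ≤ pr)
    (hNf : ∀ l < r, ∀ j ≤ 1, Nf l j = L l t t + kf * q - (j : ℕ) * t) {nH nV : ℕ → ℝ}
    (hH : ∀ l < r, nH l ≤ nX r (fun l x => L l x x) (t + -Tn * q) (X * q) l)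
    (hV : ∀ l < r, nV l ≤ nX r (fun l x => L l x x) (t + -Tn * q) (X * q) l - (t + -Tn * q))
    {N₁ c₁ dd e₁ : ℝ} (hN₁ : L r t t + (a - 1) * q - t ≤ N₁) (hc : c₁ < dd) (he₁ : 0 < e₁)
    (H : F1 S (fun J F => ptr F J) (vg t) (fun _ F => F.T)
      (paQ m c r (t + -Tn * q) (fun l => L l (t + -Tn * q) (t + -Tn * q)) nH nV)
      (qJet m ((range r).image c) (c r) 1 (t + -Tn * q) (L r (t + -Tn * q) (t + -Tn * q)) N₁) e₁
      (c₁ * q)) :
    ∃ e : ℝ, 0 < e ∧ F1 S (fun J F => ptr F J) (vg t) (fun _ F => F.T)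
      (qJets m c 0 r 1 (fun _ _ => t) (fun l _ => pf l) Nf)
      (qJet m ((range r).image c) (c r) 1 t pr (L r t t + (a - 1) * q - t)) e (dd * q) := by
  have hq := Rc.q0
  have htm := Rc.tmc
  have hX0 : 0 < X := by linarith only [hX, hTn0]
  have h3X : 0 < 3 ^ r * X := by positivity
  have Un : JfU r 0 (-Tn) X φ ℓ kf :=
    { vv0 := by linarith only [hTn0]
      φ0 := hφ
      XK := by
        push_cast
        linarith only [hX]
      φX := hφX
      kfX := hkf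
      lamk := by linarith only [hℓ] }
  have Jn := Rc.jf hκ (by omega) Un htG hnG (by linarith only [hK1]) hℓK hεφ
  have hφq : 0 < φ * q := mul_pos hφ hq
  have hφq8 : φ * q ≤ 1 / 8 * q := mul_le_mul_of_nonneg_right hφ8 hq.le
  have hTnq : 0 < Tn * q := mul_pos hTn0 hq
  have hXaq : (a * Tn + Tn + a + 2) * q ≤ X * q := mul_le_mul_of_nonneg_right hXa hq.le
  have hηq : 0 < (dd - c₁) / 2 * q := mul_pos (by linarith only [hc]) hq
  have haTn : 0 < a * Tn * q := mul_pos (mul_pos ha hTn0) hq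
  have hA := Jn.near htm hch (pf := pf) (Nf := Nf) hpf (fun l hl j hj => by
    rw [hNf l hl j hj]
    linarith only [hφq])
  obtain ⟨vn, hvn⟩ : ∃ vn, vn = t + -Tn * q := ⟨_, rfl⟩
  have hvnG : vn ∈ G := by
    rw [hvn]
    exact Jn.vG
  have hvn' : vn = t - Tn * q := by
    rw [hvn]
    ring
  obtain ⟨ub, rb, hrb, hcb⟩ := hch.ch vn hvnG
  have hd := abs_le.1 (Rc.dL r (by omega) vn (by
    rw [hvn', abs_le]
    have h1 : Tn * q ≤ K' * q := mul_le_mul_of_nonneg_right (by linarith only [hK1, h3X]) hq.le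
    exact ⟨by linarith only [h1], by linarith only [h1, hTnq]⟩))
  rw [hSa] at hd
  have hεq : 2 * ε * q ≤ φ * q := mul_le_mul_of_nonneg_right hεφ hq.le
  have e1 : a * (vn - t) = -(a * Tn * q) := by
    rw [hvn']
    ring
  rw [e1] at hd
  -- the jet over the labels of the early window
  obtain ⟨e, heE⟩ : ∃ e, e = min e₁ (φ * q / 8) := ⟨_, rfl⟩
  have he : 0 < e := by
    rw [heE]
    positivity
  have hee : e ≤ e₁ := by rw [heE]; exact min_le_left _ _
  have heφ : e ≤ φ * q / 8 := by rw [heE]; exact min_le_right _ _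
  have hpa := nearPa htm hA hH hV hηq
  have hex : Exs S (paQ m c r (t + -Tn * q) (fun l => L l (t + -Tn * q) (t + -Tn * q)) nH nV) := by
    rw [← hvn]
    exact exs_qjets fun i x y j' _ => exs_jet (hrb i (by omega)) (hcb.att i x (by omega))
  have hJ := F1.trans htm hex he (hpa.mono heφ le_rfl) (H.mono hee le_rfl)
  refine ⟨e, he, (Jn.tr htm hch hA (k := c r) (j := 1) (w₁ := t + -Tn * q) (w₂ := t)
    (p₁ := L r (t + -Tn * q) (t + -Tn * q)) (p₂ := pr) (N₁ := N₁)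
    (η := (dd - c₁) / 2 * q + c₁ * q) (h := (dd - c₁) / 2 * q) Jn.vw.le le_rfl hN₁ ?_ he heφ heφ hηq
      (by
        rw [← hvn]
        exact exs_jet (hrb r (Nat.lt_succ_self r))
          (hcb.att r (Nat.zero_le _) (Nat.lt_succ_self r))) hJ).mono le_rfl
      (by linarith only [])⟩
  show L r t t + (a - 1) * q - t + (1 : ℕ) * t + 3 * (φ * q) + (t - (t + -Tn * q)) ≤
    min (L r (t + -Tn * q) (t + -Tn * q)) pr + X * q
  rw [← hvn]
  have h1 : L r t t - a * Tn * q - φ * q ≤ min (L r vn vn) pr :=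
    le_min (by linarith only [hd.1, hεq, hφq]) (by linarith only [hpr, haTn])
  push_cast
  linarith only [h1, hXaq, hφq8, hq, hvn']

end

end Pool.PN18
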