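import Pool.Agent.H18.AB.Grp
import Pool.Agent.H18.PN.Pyb
import Pool.Agent.H60.ALT.Alo

/-!
# The record with labels and full rates

`gra_ex`: `GrA` at all records near a window of full rate, in a subclass; the degree is large.
-/

set_option autoImplicit false

namespace Pool.PN18

open Finset Real MvPolynomial
open Pool.Agent.H49.Ent Pool.Agent.H32.Dense Pool.STK Pool.KA Pool.KSAT Pool.K2S Pool.PB Pool.GEN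
open Pool.S6C Pool.RCD Pool.LA91 Pool.OWN68 Pool.AJW Pool.AJX Pool.CHT Pool.PKG Pool.ALT

/-- A larger degree, a smaller margin. -/
theorem LabR.deg {r D D' : ℕ} (hD : D ≤ D') {S : PCl (r + 2)} {c : ℕ → Fin (r + 2)}
    {L : ℕ → ℝ → ℝ → ℝ} {e₀ μ μ' q t : ℝ} {N' : ℕ} {V' : ℕ → ℝ} (hμ : μ' ≤ μ)
    (h : LabR r D S c L e₀ μ q t N' V') : LabR r D' S c L e₀ μ' q t N' V' := by
  intro k hk
  obtain ⟨⟨E, h1, h2⟩, h3⟩ := h k hk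
  refine ⟨⟨E, by linarith only [h1, hμ], h2.deg hD⟩, fun e he => Bas.mono 0 (h3 e he) ?_⟩
  rintro J - F A ⟨V₁, z, z', g, h4⟩
  exact ⟨V₁, z, z', g, fun i h5 h6 => (h4 i h5 h6).mono (Finset.Subset.refl _) hD le_rfl le_rfl
    le_rfl⟩

/-- A smaller margin. -/
theorem AltC.mu {m : ℕ} {S : PCl m} {c : ℕ → Fin m} {r : ℕ} {L : ℕ → ℝ → ℝ → ℝ}
    {e₀ ρ₀ π₀ μ μ' w : ℝ} (hμ : μ' ≤ μ) (h : AltC S c r L e₀ ρ₀ π₀ μ w) :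
    AltC S c r L e₀ ρ₀ π₀ μ' w := by
  obtain ⟨rk, E, a1, a2, a3, a4, a5, a6, a7, a8, a9, a10⟩ := h
  exact ⟨rk, E, a1, by linarith only [a2, hμ], a3, by linarith only [a4, hμ],
    by linarith only [a5, hμ], by linarith only [a6, hμ], by linarith only [a7, hμ],
    by linarith only [a8, hμ], by linarith only [a9, hμ], a10⟩

/-- **The record with labels and full rates.** -/
theorem gra_ex (r S₀ Dm : ℕ) (hS₀ : 1 ≤ S₀) : ∃ D : ℕ, 1 ≤ D ∧ Dm ≤ D ∧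
    ∀ {S : PCl (r + 2)} {P : List (Fin (r + 2)) × Fin (r + 2) → ℝ → ℝ → ℝ} {θ : ℝ}
    {c : ℕ → Fin (r + 2)} {Pt : ℝ → ℝ → ℝ} {rt : ℝ → ℝ} {L T : ℕ → ℝ → ℝ → ℝ} {κ : ℕ → Kg}
    {G : Set ℝ} {g : ℝ} {Sl : ℕ → ℝ} {el : ℚ} (_ : 0 < el) {k₀ k₁ : ℕ} {a δs : ℝ} (hδs : 0 < δs)
    (_ : ∀ l < r, κ l = .one) (_ : 1 < a) (_ : Sl r = a) (_ : Sl (r + 1) = a) (_ : IsClosed G)
    (_ : g ∈ G) (_ : δs + el ≤ a * Real.log 2)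
    (_ : AltR ((range r, max D D * max 1 D), el) k₀ S P θ c Pt rt L T κ G g)
    (_ : CuQ () k₁ S P θ c Pt rt L T κ G g)
    (_ : ZfR r Sl (⟨δs, hδs⟩, max D D * max 1 D) S P θ c Pt rt L T κ G g),
    ∃ e₀ ρ₀ π₀ μ : ℝ, 0 < μ ∧ (0 < g → μ ≤ g) ∧
    ∀ {al : ℝ} {g₀ : ℝ → ℝ} {P₂ : ℕ → List (Fin (r + 2)) × Fin (r + 2) → ℝ → ℝ → ℝ}
      {θ₂ Eb e₂ : ℕ → ℝ} {h K₀ : ℝ} {N : ℕ} {A V : ℕ → ℝ} {S₂ N' : ℕ} {V' : ℕ → ℝ}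
      {K' ε q t : ℝ}, h ≤ 1 → 0 < ε → 0 < K₀ → (K₀ + K') * q ≤ μ → 0 < K' →
      (∀ k < N', |V' k| ≤ K') →
      RecG S al g₀ P θ P₂ θ₂ Eb e₂ c Pt rt h K₀ g L T Sl κ G S₀ N A V S₂ N' V' K' ε q t →
      ∃ S₁ : PCl (r + 2), GrA r D S S₁ al g₀ P θ P₂ θ₂ Eb e₂ c Pt rt h K₀ g L T Sl κ G S₀ N A V
        S₂ N' V' K' ε q t a e₀ ρ₀ π₀ μ el (δs + el) k₀ := by
  obtain ⟨D₁, hD1, HL⟩ := rec_lab r S₀ hS₀
  refine ⟨max D₁ Dm, hD1.trans (le_max_left _ _), le_max_right _ _, ?_⟩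
  intro S P θ c Pt rt L T κ G g Sl el helq k₀ k₁ a δs hδs hκ ha hSa hSn hG hg hδb hA hC hZ
  obtain ⟨D, hDE⟩ : ∃ D, D = max D₁ Dm := ⟨_, rfl⟩
  rw [← hDE] at hA hZ ⊢
  have hD₁ : D₁ ≤ D := by rw [hDE]; exact le_max_left _ _
  obtain ⟨e₀, ρ₀, π₀, a1, a2, a3, a4⟩ := alt_ful helq hA hg (β := Sl (r + 1) * Real.log 2)
    (δ := δs) (D := max D D * max 1 D) le_rfl
    (fun i i1 i2 i3 i4 i5 i6 i7 i8 φ e k₀ he hrt =>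
      hZ i ⟨i1, i2, i3, i4, i5, i6, i7⟩ i8 φ e k₀ he hrt)
  have hel0 : (0 : ℝ) < el := by exact_mod_cast helq
  obtain ⟨μ₁, hμ₁⟩ : ∃ μ₁ : ℝ, μ₁ = (1 / 2) ^ k₀ := ⟨_, rfl⟩
  have hμ1 : 0 < μ₁ := by rw [hμ₁]; positivity
  rw [← hμ₁] at a2 a3
  obtain ⟨μ, hμ0, hμμ, hμg⟩ : ∃ μ : ℝ, 0 < μ ∧ μ ≤ μ₁ ∧ (0 < g → μ ≤ g) := by
    by_cases h0 : 0 < g
    · exact ⟨min μ₁ g, lt_min hμ1 h0, min_le_left _ _, fun _ => min_le_right _ _⟩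
    · exact ⟨μ₁, hμ1, le_rfl, fun h => absurd h h0⟩
  refine ⟨e₀, ρ₀, π₀, μ, hμ0, hμg, ?_⟩
  intro al g₀ P₂ θ₂ Eb e₂ h K₀ N A V S₂ N' V' K' ε q t hh1 hε hK₀ hKμ hK' hVK R
  have hq0 := R.q0
  have hnear : ∀ x : ℝ, |x| ≤ K' → |t + x * q - g| ≤ μ := fun x hx => by
    have h1 := abs_le.1 R.near
    have h2 := abs_le.1 hx
    have h3 := mul_le_mul_of_nonneg_right h2.1 hq0.le
    have h4 := mul_le_mul_of_nonneg_right h2.2 hq0.le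
    rw [abs_le]
    exact ⟨by linarith only [h1.1, h3, hKμ], by linarith only [h1.2, h4, hKμ]⟩
  obtain ⟨S₁, hne₁, hs₁, R₁, hlab⟩ := HL R hK' hVK hC (e₀ := e₀) (ρ₀ := ρ₀) (π₀ := π₀) hμ1
    (fun k hk => a3 _ (R.memG.2 k hk) ((hnear _ (hVK k hk)).trans hμμ))
  exact ⟨S₁,
    { ne := hne₁
      hs := hs₁
      rc := R₁
      hκ := hκ
      ha := ha
      hSa := hSa
      hSn := hSn
      hh1 := hh1
      hε := hε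
      hK₀ := hK₀
      hG := hG
      hcu := hC
      hμ := hμ0
      hρ₀ := by linarith only [a2, hμμ]
      halt := fun w hw hwg => AltC.mu hμμ (a3 w hw (hwg.trans hμμ))
      hnear := hnear
      hlab := LabR.deg hD₁ hμμ hlab
      hel := hel0.le
      hdl := by linarith only [hδs, hel0]
      hdlb := hδb
      hful := fun S' h1 h2 w₀ h3 h4 h5 => by
        obtain ⟨φ, h6, h7⟩ := a4 S' h1 h2 w₀ h3 h4 h5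
        rw [hSn] at h6
        exact ⟨φ, by linarith only [h6], h7⟩ }⟩

end Pool.PN18
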