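import Pool.Agent.H18.AB.Mvh
import Pool.Agent.H62.AB.Bxv
import Pool.Agent.H18.PN.Chu

/-!
# The grid of windows at a record

`grd_rec`: the data `GrD` on the grid `t + (i / L ^ n) q`.
-/

set_option autoImplicit false

namespace Pool.AB18

open Finset Real MvPolynomial
open Pool.Agent.H49.Ent Pool.Agent.H32.Dense Pool.STK Pool.KA Pool.KSAT Pool.K2S Pool.PB Pool.GEN
open Pool.S6C Pool.RCD Pool.LA91 Pool.OWN68 Pool.AJW Pool.AJX Pool.CHT Pool.PKG Pool.PN18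
open Pool.LPK12 Pool.ALT
open Pool.TE46 Pool.AB63 Pool.AB91 Pool.RWB12 Pool.AB62
open Pool.RJ28 (dgj dgj_lt dgj_st dgj_le)
open Pool.LPT30 (TwT)

section

variable {r D K kt : ℕ} {a h K₀ τM dM fM XG φ X kf ℓ Tn A₁ D₁ Xf K₁ Kc K' : ℝ}
  {fm Rm gm δm dm lm : ℝ} {L₀ n₀ : ℕ} {η ev γ₀ s₀ μ₀ e' ms el dl ε : ℝ}
  {S S₁ : PCl (r + 2)} {al : ℝ} {g₀ : ℝ → ℝ}
    {P : List (Fin (r + 2)) × Fin (r + 2) → ℝ → ℝ → ℝ} {θ : ℝ}
    {P₂ : ℕ → List (Fin (r + 2)) × Fin (r + 2) → ℝ → ℝ → ℝ} {θ₂ Eb e₂ : ℕ → ℝ}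
    {c : ℕ → Fin (r + 2)} {Pt : ℝ → ℝ → ℝ} {rt : ℝ → ℝ} {g : ℝ} {L T : ℕ → ℝ → ℝ → ℝ}
    {Sl : ℕ → ℝ} {κ : ℕ → Kg} {G : Set ℝ} {S₀ N : ℕ} {A V : ℕ → ℝ} {S₂ N' : ℕ} {V' : ℕ → ℝ}
    {q t e₀ ρ₀ π₀ μ : ℝ} {k₀ : ℕ}

/-- **The grid of windows** at a record. -/
theorem grd_rec (hL₀ : 1 ≤ L₀)
    (H : GrA r D S S₁ al g₀ P θ P₂ θ₂ Eb e₂ c Pt rt h K₀ g L T Sl κ G S₀ N A V S₂ N' V'
      K' ε q t a e₀ ρ₀ π₀ μ el dl k₀)
    (R : RecG S al g₀ P θ P₂ θ₂ Eb e₂ c Pt rt h K₀ g L T Sl κ G S₀ N A V S₂ N' V' K' ε q t)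
    (B : BigN r K a K₀ τM dM fM XG φ X kf ℓ Tn A₁ D₁ Xf K₁ Kc K')
    (s : SmN r kt a h K₀ τM dM fM fm Rm gm δm dm φ lm L₀ n₀ η ev γ₀ s₀ μ₀ e' ms el dl ε)
    (hgr : ∀ i ≤ L₀ ^ n₀, ∃ j < N', V' j = i / (L₀ : ℝ) ^ n₀)
    (hgap : ∀ y, -K₁ ≤ y → y ≤ K₁ → ∃ j < N', y - μ₀ ≤ V' j ∧ V' j ≤ y)
    (hb : ∃ j < N', V' j = -Tn) :
    GrD S c r K (fun l x => L l x x) (gK G t K' q) a (t - K₁ * q) (t + -Tn * q) (t + K₁ * q)
      (2 * ε * q) (μ₀ * q) (A₁ * q) (D₁ * q) (XG * q) (γ₀ * q) (s₀ * q) (L₀ ^ n₀)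
      (fun i => t + (i / (L₀ : ℝ) ^ n₀) * q) := by
  have hq := R.q0
  have ha := B.ha
  have ha0 : 0 < a := by linarith only [ha]
  have hTn2 := B.Tn2
  have hXG := B.XG0
  have hTn0 : 0 < Tn := by linarith only [hTn2, hXG, ha]
  have hD1 := B.D1
  have hD0 : 0 < D₁ := by linarith only [hD1, hTn0]
  have hA1 := B.A1
  have haT : 0 < a * (Tn + 1) := mul_pos ha0 (by linarith only [hTn0])
  have hA0 : 0 < A₁ := by linarith only [hA1, haT, hXG]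
  have hAD : 0 < A₁ + 4 * D₁ := by linarith only [hA0, hD0]
  have hAr1 : 0 < (A₁ + 4 * D₁) * 4 ^ r := by positivity
  have hK1 := B.K₁1
  have hK'2 := B.K'2
  have hK'3 := B.K'3
  have hμ0 := s.μ0
  have hε0 := s.ε0
  have hε3 := s.ε3
  have hγ0 := s.γ0
  have hγs := s.γs
  have hs2 := s.s2
  have hLp : (0 : ℝ) < (L₀ : ℝ) ^ n₀ := by
    have : (0 : ℝ) < L₀ := by exact_mod_cast hL₀
    positivity
  have hK10 : 0 < K₁ := by linarith only [hK1, hTn0, hAr1, hD0]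
  have hK'0 : 0 < K' := by linarith only [hK10, hK'2]
  have hf : ∀ i ≤ L₀ ^ n₀, (0 : ℝ) ≤ i / (L₀ : ℝ) ^ n₀ ∧ i / (L₀ : ℝ) ^ n₀ ≤ 1 := fun i hi => by
    refine ⟨by positivity, ?_⟩
    rw [div_le_one hLp]
    exact_mod_cast hi
  have hin : ∀ z : ℝ, (∃ j < N', V' j = z) → t + z * q ∈ G := by
    rintro z ⟨j, hj, h⟩
    rw [← h]
    exact R.memG.2 j hj
  have hx0 : t + (((0 : ℕ) : ℝ) / (L₀ : ℝ) ^ n₀) * q = t := by
    rw [Nat.cast_zero, zero_div, zero_mul, add_zero]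
  have hxN : t + (((L₀ ^ n₀ : ℕ) : ℝ) / (L₀ : ℝ) ^ n₀) * q = t + q := by
    rw [Nat.cast_pow, div_self hLp.ne', one_mul]
  have ht1 := R.t1
  have hK1q : (K₁ + 1) * q ≤ K' * q := mul_le_mul_of_nonneg_right hK'2 hq.le
  have hK3q := mul_le_mul_of_nonneg_right hK'3 hq.le
  have hTnq : 0 < Tn * q := mul_pos hTn0 hq
  have hDq : 0 < D₁ * q := mul_pos hD0 hq
  have hArq : 0 < (A₁ + 4 * D₁) * 4 ^ r * q := mul_pos hAr1 hq
  have hch : ChG S c (r + 1) (fun l x => L l x x) G := Pool.LA91.ChG.mk fun w hw => by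
    obtain ⟨rd, h1, h2⟩ := H.hcu w hw
    exact ⟨_, rd, h1, h2⟩
  have e4 : (A₁ * q + 4 * (D₁ * q)) * 4 ^ r = (A₁ + 4 * D₁) * 4 ^ r * q := by ring
  refine
    { tm := ⟨6, R.tmc⟩
      pos := R.pos
      ch := chG_gK hch
      tw := TwT.mk (fun w hw j N => ?_) fun w hw v hv hwv =>
        R.mnD (by omega) (gK_abs hw) (gK_abs hv) hwv
      cl := gK_closed H.hG _ _ _
      mn := fun l hl w hw v hv hwv => R.mnD (by omega) (gK_abs hw) (gK_abs hv) hwv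
      xG := fun j hj => gK_mem hq.le (hin _ (hgr j hj)) (by
        have h1 := hf j hj
        rw [abs_of_nonneg h1.1]
        linarith only [h1.2, hK10, hK'2])
      mono := fun i j hij hj => by
        have h1 : (i : ℝ) / (L₀ : ℝ) ^ n₀ ≤ j / (L₀ : ℝ) ^ n₀ :=
          div_le_div_of_nonneg_right (by exact_mod_cast hij) hLp.le
        have h2 := mul_le_mul_of_nonneg_right h1 hq.le
        show t + (i : ℝ) / (L₀ : ℝ) ^ n₀ * q ≤ t + (j : ℝ) / (L₀ : ℝ) ^ n₀ * q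
        linarith only [h2]
      a0 := ha0.le
      A0 := (mul_pos hA0 hq).le
      D0 := hDq
      ε0 := by positivity
      μ0 := (mul_pos hμ0 hq).le
      X0 := mul_nonneg hXG hq.le
      εμ := by
        have h1 : 2 * ε + μ₀ ≤ D₁ / 4 := by linarith only [hε3, hD1, hTn0]
        have h2 := mul_le_mul_of_nonneg_right h1 hq.le
        linarith only [h2]
      lin := linG_rec R (by omega) H.hκ H.hSa H.hSn (by linarith only [hK'2, hε3, hε0]) hμ0.le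
        fun y h1 h2 => ?_
      bG := gK_mem hq.le (hin _ hb) (by
        rw [abs_neg, abs_of_pos hTn0]
        linarith only [hK1, hAr1, hD0, hK'2])
      bx := ?_
      xo := ?_
      x1 := ?_
      xb := ?_
      pb := ?_
      room := ?_
      γ0 := (mul_pos hγ0 hq).le
      γs := mul_lt_mul_of_pos_right hγs hq
      RA := ?_
      RK := ?_
      deep := ?_ }
  · obtain ⟨y, hy⟩ : ∃ y, y = (w - t) / q := ⟨_, rfl⟩
    have e1 : w = t + y * q := by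
      rw [hy]
      field_simp
      ring
    have h1 : |y| ≤ K' := by
      rw [hy, abs_div, abs_of_pos hq, div_le_iff₀ hq]
      exact gK_abs hw
    have h2 := H.hnear y h1
    rw [← e1] at h2
    obtain ⟨rk, E, a1, a2, a3, a4, a5, a6, a7, a8, a9, a10⟩ := H.halt w hw.1 h2
    exact exs_jetU a1 a3 a10
  · obtain ⟨y', hy'⟩ : ∃ y', y' = (y - t) / q := ⟨_, rfl⟩
    have e1 : y = t + y' * q := by
      rw [hy']
      field_simp
      ring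
    have h3 : -K₁ ≤ y' := by
      rw [hy', le_div_iff₀ hq]
      linarith only [h1]
    have h4 : y' ≤ K₁ := by
      rw [hy', div_le_iff₀ hq]
      linarith only [h2]
    obtain ⟨j, hj, h5, h6⟩ := hgap y' h3 h4
    refine ⟨t + V' j * q, R.memG.2 j hj, ?_, ?_⟩
    · have := mul_le_mul_of_nonneg_right h5 hq.le
      rw [e1]
      linarith only [this]
    · have := mul_le_mul_of_nonneg_right h6 hq.le
      rw [e1]
      linarith only [this]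
  · show t + -Tn * q ≤ t + (((0 : ℕ) : ℝ) / (L₀ : ℝ) ^ n₀) * q
    rw [hx0]
    linarith only [hTnq]
  · show t + (((L₀ ^ n₀ : ℕ) : ℝ) / (L₀ : ℝ) ^ n₀) * q ≤ t + K₁ * q
    rw [hxN]
    have := mul_le_mul_of_nonneg_right (show 1 ≤ K₁ by linarith only [hK1, hTn0, hAr1, hD0]) hq.le
    linarith only [this]
  · show t + (((L₀ ^ n₀ : ℕ) : ℝ) / (L₀ : ℝ) ^ n₀) * q ≤ 1
    rw [hxN]
    have := mul_pos hK10 hq
    linarith only [this, hK1q, ht1]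
  · show t + (((L₀ ^ n₀ : ℕ) : ℝ) / (L₀ : ℝ) ^ n₀) * q ≤ t + -Tn * q + D₁ * q
    rw [hxN]
    have := mul_le_mul_of_nonneg_right hD1 hq.le
    linarith only [this, hq]
  · rw [e4]
    have := mul_le_mul_of_nonneg_right hK1 hq.le
    linarith only [this, hq]
  · show 3 * ((A₁ * q + 4 * (D₁ * q)) * 4 ^ r) ≤ 1 - (t + (((L₀ ^ n₀ : ℕ) : ℝ) / (L₀ : ℝ) ^ n₀) * q)
    rw [hxN, e4]
    linarith only [hK3q, ht1, hDq, hTnq, hq]
  · show a * (t + (((L₀ ^ n₀ : ℕ) : ℝ) / (L₀ : ℝ) ^ n₀) * q - (t + -Tn * q)) + XG * q + s₀ * q +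
      2 * ε * q ≤ A₁ * q
    rw [hxN]
    have h1 : a * (Tn + 1) + XG + s₀ + 2 * ε ≤ A₁ := by linarith only [hA1, hs2, hε3, hμ0]
    have h2 := mul_le_mul_of_nonneg_right h1 hq.le
    linarith only [h2]
  · show (K + 2) * (t + (((L₀ ^ n₀ : ℕ) : ℝ) / (L₀ : ℝ) ^ n₀) * q - (t + -Tn * q)) ≤ A₁ * q
    rw [hxN]
    have h2 := mul_le_mul_of_nonneg_right B.A2 hq.le
    linarith only [h2]
  · show a * (t + (((L₀ ^ n₀ : ℕ) : ℝ) / (L₀ : ℝ) ^ n₀) * q -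
      (t + (((0 : ℕ) : ℝ) / (L₀ : ℝ) ^ n₀) * q)) + XG * q + s₀ * q + 2 * ε * q ≤
      t + (((0 : ℕ) : ℝ) / (L₀ : ℝ) ^ n₀) * q - (t + -Tn * q)
    rw [hxN, hx0]
    have h1 : a + XG + s₀ + 2 * ε ≤ Tn := by linarith only [hTn2, hs2, hε3, hμ0]
    have h2 := mul_le_mul_of_nonneg_right h1 hq.le
    linarith only [h2]

end

end Pool.AB18
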