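import Pool.Agent.H80.PN.Stgh
import Pool.Agent.H91.AB.Mvs
import Pool.Agent.H92.V0F.Rsb
import Pool.Agent.H18.PN.Stgc

/-!
# A record with labels and full rates, two places of the same slope

`GrA`: the class, the record, the labels at the windows, the full rates. `GrA.sub`: subclasses.
`GrA.mv`: another centre, another unit. `PrN`: the numbers of a pair. `GrA.pair`: the data of a jointly
nonfull pair.
-/

set_option autoImplicit false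

namespace Pool.PN18

open Finset Real MvPolynomial
open Pool.Agent.H49.Ent Pool.Agent.H32.Dense Pool.STK Pool.KA Pool.KSAT Pool.K2S Pool.PB Pool.GEN
open Pool.S6C Pool.RCD Pool.LA91 Pool.OWN68 Pool.AJW Pool.AJX Pool.CHT Pool.PKG Pool.ALT
open Pool.CR99 (PairE)

/-- **The record**: the class `S₁` in `S`, the labels at the windows, the rates. -/
structure GrA (r D : ℕ) (S S₁ : PCl (r + 2)) (al : ℝ) (g₀ : ℝ → ℝ)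
    (P : List (Fin (r + 2)) × Fin (r + 2) → ℝ → ℝ → ℝ) (θ : ℝ)
    (P₂ : ℕ → List (Fin (r + 2)) × Fin (r + 2) → ℝ → ℝ → ℝ) (θ₂ Eb e₂ : ℕ → ℝ)
    (c : ℕ → Fin (r + 2)) (Pt : ℝ → ℝ → ℝ) (rt : ℝ → ℝ) (h K₀ g : ℝ) (L T : ℕ → ℝ → ℝ → ℝ)
    (Sl : ℕ → ℝ) (κ : ℕ → Kg) (G : Set ℝ) (S₀ N : ℕ) (A V : ℕ → ℝ) (S₂ N' : ℕ) (V' : ℕ → ℝ)
    (K' ε q t a e₀ ρ₀ π₀ μ el dl : ℝ) (k₀ : ℕ) : Prop where
  ne : S₁.Ne
  hs : ∀ (τ : ℝ) (J : ℕ) (F : Fam (r + 2) J) (A : F.Ω → Prop), S₁.St τ J F A → S.St τ J F A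
  rc : RecG S₁ al g₀ P θ P₂ θ₂ Eb e₂ c Pt rt h K₀ g L T Sl κ G S₀ N A V S₂ N' V' K' ε q t
  hκ : ∀ l < r, κ l = .one
  ha : 1 < a
  hSa : Sl r = a
  hSn : Sl (r + 1) = a
  hh1 : h ≤ 1
  hε : 0 < ε
  hK₀ : 0 < K₀
  hG : IsClosed G
  hcu : ∀ w ∈ G, ∃ rd : ℕ → ℝ, (∀ l < r + 1, 0 ≤ rd l) ∧
    Chn S c 0 (r + 1) w w (L r w w) (fun l => L l w w) rd
  hμ : 0 < μ
  hρ₀ : ρ₀ + μ ≤ 1
  halt : ∀ w ∈ G, |w - g| ≤ μ → AltC S c r L e₀ ρ₀ π₀ μ w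
  hnear : ∀ x : ℝ, |x| ≤ K' → |t + x * q - g| ≤ μ
  hlab : LabR r D S₁ c L e₀ μ q t N' V'
  hel : 0 ≤ el
  hdl : 0 ≤ dl
  hdlb : dl ≤ a * Real.log 2
  hful : ∀ S' : PCl (r + 2), S'.Ne → SubC S' S → ∀ w₀ : ℝ, 0 < w₀ → w₀ < g →
    AltE S' ((range (r + 1)).image c) (c (r + 1)) (max D D * max 1 D) e₀ ρ₀ π₀ w₀ →
    ∃ φ : ℝ, a * Real.log 2 - dl ≤ φ ∧ ∀ k ≥ k₀, AltAt S ((range (r + 1)).image c)
      ((range r).image c) (c (r + 1)) (max D D * max 1 D) e₀ ρ₀ π₀ (fun w => L (r + 1) w w) g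
      φ el k

section

variable {r D : ℕ} {S S₁ S₃ : PCl (r + 2)} {al : ℝ} {g₀ : ℝ → ℝ}
    {P : List (Fin (r + 2)) × Fin (r + 2) → ℝ → ℝ → ℝ} {θ : ℝ}
    {P₂ : ℕ → List (Fin (r + 2)) × Fin (r + 2) → ℝ → ℝ → ℝ} {θ₂ Eb e₂ : ℕ → ℝ}
    {c : ℕ → Fin (r + 2)} {Pt : ℝ → ℝ → ℝ} {rt : ℝ → ℝ} {h K₀ g : ℝ} {L T : ℕ → ℝ → ℝ → ℝ}
    {Sl : ℕ → ℝ} {κ : ℕ → Kg} {G : Set ℝ} {S₀ N : ℕ} {A V : ℕ → ℝ} {S₂ N' : ℕ} {V' : ℕ → ℝ}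
    {K' ε q t a e₀ ρ₀ π₀ μ el dl : ℝ} {k₀ : ℕ}

/-- **A nonempty subclass.** -/
theorem GrA.sub (H : GrA r D S S₁ al g₀ P θ P₂ θ₂ Eb e₂ c Pt rt h K₀ g L T Sl κ G S₀ N A V S₂ N' V'
      K' ε q t a e₀ ρ₀ π₀ μ el dl k₀) (ne : S₃.Ne)
    (hs : ∀ (τ : ℝ) (J : ℕ) (F : Fam (r + 2) J) (A : F.Ω → Prop), S₃.St τ J F A →
      S₁.St τ J F A) :
    GrA r D S S₃ al g₀ P θ P₂ θ₂ Eb e₂ c Pt rt h K₀ g L T Sl κ G S₀ N A V S₂ N' V'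
      K' ε q t a e₀ ρ₀ π₀ μ el dl k₀ :=
  { H with
    ne := ne
    hs := fun τ J F A h => H.hs τ J F A (hs τ J F A h)
    rc := H.rc.sub ne hs
    hlab := H.hlab.sub hs }

/-- **The centre** `t + x q`, **the unit** `lam q`. -/
theorem GrA.mv (H : GrA r D S S₁ al g₀ P θ P₂ θ₂ Eb e₂ c Pt rt h K₀ g L T Sl κ G S₀ N A V S₂ N' V'
      K' ε q t a e₀ ρ₀ π₀ μ el dl k₀) {N₁' : ℕ} {V₁' : ℕ → ℝ} {x lam K₁ K₂ ε₁ : ℝ}
    (hlam : 0 < lam) (hK₁ : 0 ≤ K₁) (hK₂ : 0 < K₂) (h1 : K₁ * lam + a * |x| + ε ≤ K')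
    (h2 : K₀ + |x| ≤ K₂ * lam) (h3 : 2 * ε ≤ ε₁ * lam)
    (hN' : ∀ k < N₁', ∃ j < N', x + lam * V₁' k = V' j) :
    GrA r D S S₁ al g₀ P θ P₂ θ₂ Eb e₂ c Pt rt h K₂ g L T Sl κ G S₀ 0 A V S₂ N₁' V₁'
      K₁ ε₁ (lam * q) (t + x * q) a e₀ ρ₀ π₀ μ el dl k₀ := by
  have hq := H.rc.q0
  have ha := H.ha
  have hx0 := abs_nonneg x
  have hxa : |x| ≤ a * |x| := by
    have := mul_le_mul_of_nonneg_right ha.le hx0
    linarith only [this]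
  have hε := H.hε
  have e1 : |Sl (r + 2 - 1)| = a := by
    show |Sl (r + 1)| = a
    rw [H.hSn, abs_of_pos (by linarith only [ha])]
  have hKx : K₁ * lam + |x| ≤ K' := by linarith only [h1, hxa, hε]
  exact
    { H with
      rc := H.rc.mvsl (by omega) hlam hK₁ hKx h2 h3 (by rw [e1]; exact h1)
        (fun k hk => absurd hk (by omega)) hN'
      hε := by
        have h4 : 0 < ε₁ * lam := by linarith only [h3, hε]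
        exact (pos_iff_pos_of_mul_pos h4).2 hlam
      hK₀ := hK₂
      hnear := fun y hy => by
        have h5 := H.hnear (x + lam * y) (by
          refine (abs_add_le _ _).trans ?_
          rw [abs_mul, abs_of_pos hlam]
          have h6 := mul_le_mul_of_nonneg_left hy hlam.le
          linarith only [h6, hKx])
        have e2 : t + x * q + y * (lam * q) = t + (x + lam * y) * q := by ring
        rw [e2]
        exact h5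
      hlab := fun k hk => by
        obtain ⟨j, hj, h5⟩ := hN' k hk
        have e2 : t + x * q + V₁' k * (lam * q) = t + V' j * q := by
          rw [← h5]
          ring
        rw [e2]
        exact H.hlab j hj }

end

/-- **The numbers of a pair**: the radius `R`, the window `t - τ q`, the early window `t - Tn q`. -/
structure PrN (r : ℕ) (a K₀ K' ε δ el dl R τ Tn X φ kf ℓ e' ms : ℝ) : Prop where
  hR : 0 < R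
  hτ : R < τ
  hTn : τ ≤ Tn
  hTn1 : pzD R a + τ ≤ Tn
  hms0 : 0 < ms
  hX1 : 2 * (6 * τ) ≤ X
  hX2 : 2 * (a * R) + 2 ≤ X
  hX3 : 32 * (r + 1) * φ ≤ X
  hX4 : τ + a * R + 2 * (r + 1) * φ + 1 ≤ X
  hkf1 : 3 ^ r * X ≤ kf
  hkf2 : a * R + 2 * (r + 1) * φ + 1 ≤ kf
  hℓ1 : kf + τ ≤ ℓ
  hℓ2 : 3 ^ r * X + R + 1 ≤ ℓ
  hℓ3 : a * R + R + 1 ≤ ℓ
  hK1 : ℓ + 1 ≤ K'
  hK2 : τ + 3 ^ r * X ≤ K'
  hK3 : a * τ + a * R + 2 ≤ K'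
  hK5 : Tn + K₀ + 1 ≤ K'
  hφ0 : 0 < φ
  hφ1 : φ ≤ 1 / 8
  hεφ : 2 * ε ≤ φ
  he' : 0 < e'
  he1 : e' ≤ φ / 8
  he2 : e' ≤ 1 / 64
  hεe : 128 * ε ≤ e'
  hbτ : 2 * e' ≤ a * (τ - R)
  hams : a * ms ≤ e' / 32
  hδ0 : 0 < δ
  hδ1 : (8 * r + 49) * e' ≤ δ * R / 4
  hδ2 : el * (2 * (K₀ + τ)) ≤ δ * R / 4
  hδ3 : dl ≤ δ / 4

/-- **The windows of a pair.** -/
structure PrW (r N' : ℕ) (V' : ℕ → ℝ) (K₀ τ Tn X ms : ℝ) (M : ℕ) (W : ℕ → ℝ) : Prop where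
  hW0 : W 0 = -Tn
  hW1 : W (M + 1) = -τ
  hW2 : W (2 * M + 1 + 1) = 0
  hWm : ∀ k, W k ≤ W (k + 1)
  hWs : ∀ k, W (k + 1) - W k ≤ ms
  hWb : ∀ k ≤ 2 * M + 1 + 1, -Tn ≤ W k ∧ W k ≤ 0
  hWy : ∀ y, -τ ≤ y → y ≤ 0 → ∃ k ≤ 2 * M + 1 + 1, |W k - y| ≤ ms
  hWin : ∀ k ≤ 2 * M + 1 + 1, ∃ j < N', V' j = W k
  hWx : ∃ j < N', V' j = -(K₀ + 1)
  hWj : ∀ k ≤ r, ∃ j < N', V' j = jfV r (-τ) X k

section

variable {r D : ℕ} {S S₁ : PCl (r + 2)} {al : ℝ} {g₀ : ℝ → ℝ}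
    {P : List (Fin (r + 2)) × Fin (r + 2) → ℝ → ℝ → ℝ} {θ : ℝ}
    {P₂ : ℕ → List (Fin (r + 2)) × Fin (r + 2) → ℝ → ℝ → ℝ} {θ₂ Eb e₂ : ℕ → ℝ}
    {c : ℕ → Fin (r + 2)} {Pt : ℝ → ℝ → ℝ} {rt : ℝ → ℝ} {h K₀ g : ℝ} {L T : ℕ → ℝ → ℝ → ℝ}
    {Sl : ℕ → ℝ} {κ : ℕ → Kg} {G : Set ℝ} {S₀ N : ℕ} {A V : ℕ → ℝ} {S₂ N' : ℕ} {V' : ℕ → ℝ}
    {K' ε q t a e₀ ρ₀ π₀ μ el dl : ℝ} {k₀ : ℕ}

/-- **The data of a jointly nonfull pair.** -/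
theorem GrA.pair (hr : 1 ≤ r)
    (H : GrA r D S S₁ al g₀ P θ P₂ θ₂ Eb e₂ c Pt rt h K₀ g L T Sl κ G S₀ N A V S₂ N' V'
      K' ε q t a e₀ ρ₀ π₀ μ el dl k₀) {δ R τ Tn X φ kf ℓ e' ms : ℝ}
    (n : PrN r a K₀ K' ε δ el dl R τ Tn X φ kf ℓ e' ms) {M : ℕ} {W : ℕ → ℝ}
    (w : PrW r N' V' K₀ τ Tn X ms M W) (hk₀ : (K₀ + τ) * q ≤ (1 / 2) ^ k₀)
    (hqμ : (2 * (a * R) + 4) * q ≤ μ / 4) (N₀ : ℕ) :
    ∃ S' : PCl (r + 2), S'.Ne ∧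
      (∀ (τ : ℝ) (J : ℕ) (F : Fam (r + 2) J) (A : F.Ω → Prop), S'.St τ J F A → S₁.St τ J F A) ∧
      (∀ i ≤ r, 0 ≤ eP r L (e₀ - μ / 2) (t + -τ * q) i ∧
        L i (t + -τ * q) (t + -τ * q) + eP r L (e₀ - μ / 2) (t + -τ * q) i + 3 * K' * q ≤ 1) ∧
      0 ≤ L r (t + -τ * q) (t + -τ * q) + μ / 4 ∧ L r (t + -τ * q) (t + -τ * q) + μ / 4 < 1 ∧
      ∃ p₁ p₂ pa₁ pa₂ : ℝ,
      PairE S' (PsQ (LbF ((range (r + 1)).image c) (c (r + 1)) D e₀ ρ₀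
          (L (r + 1) (t + -Tn * q) (t + -Tn * q) - e' * q / 16) (t + -Tn * q)) c r D
          (max D D * max 1 D) (t + -Tn * q) (t + -τ * q) t p₁ p₂
          (e₀ - μ / 2) (L r (t + -τ * q) (t + -τ * q) + μ / 4)
          (L (r + 1) (t + -τ * q) (t + -τ * q) - e' * q / 2) pa₁ pa₂ (e₀ - μ / 2)
          (L r t t + μ / 4) (L (r + 1) t t - e' * q / 2) (ℓ * q) (e' * q)
          (eP r L (e₀ - μ / 2) (t + -τ * q))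
          (fun _ => L r (t + -τ * q) (t + -τ * q) + μ / 4)
          (fun i => L i (t + -τ * q) (t + -τ * q))
          (nX r (fun l x => L l x x) (t + -τ * q) (X * q))) c r (max D D * max 1 D)
        ((range (r + 1)).image c) (c (r + 1)) a a R (h * a) δ (ℓ * q) N₀
        (t + -τ * q) t q (fun i => L i (t + -τ * q) (t + -τ * q))
        (nX r (fun l x => L l x x) (t + -τ * q) (X * q)) (fun x => L (r + 1) x x)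
        (fun l => L l t t)
        (fun l j => nX r (fun l x => L l x x) (t + -τ * q) (X * q) l - (j : ℕ) * (t + -τ * q))
        (e' * q)
        (eP r L (e₀ - μ / 2) (t + -τ * q) (r + 1) + e' * q)
        (L r (t + -τ * q) (t + -τ * q) + μ / 4 + e' * q) (L (r + 1) (t + -τ * q) (t + -τ * q))
        (eP r L (e₀ - μ / 2) (t + -τ * q)) (fun _ => L r (t + -τ * q) (t + -τ * q) + μ / 4)
        (t + -Tn * q) (L (r + 1) (t + -Tn * q) (t + -Tn * q)) e₀ ρ₀ (D * max 1 D) := by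
  have hq := H.rc.q0
  have ha := H.ha
  have hφq : 0 < φ * q := mul_pos n.hφ0 hq
  obtain ⟨S', h1, h2, -, h4, h5, h6, p₁, p₂, pa₁, pa₂, h7⟩ :=
    stgd_rec_n hr (R := R) (τ := τ) (Tn := Tn) H.ne H.hs H.rc H.hκ (by rw [H.hSa]; exact ha)
      (by rw [H.hSn]; linarith only [ha]) (by rw [H.hSn, H.hSa]) H.hh1 H.hε H.hK₀ H.hcu H.hμ H.hρ₀
      H.halt H.hnear H.hlab H.hel H.hdl (by rw [H.hSn]; exact H.hdlb)
      (by rw [H.hSn]; exact H.hful) n.hR n.hτ n.hTn (by rw [H.hSn]; exact n.hTn1) hk₀ w.hW0 w.hW1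
      w.hW2 w.hWm n.hms0 w.hWs w.hWb w.hWy w.hWin w.hWx (X := X) (φ := φ) (kf := kf) (ℓ := ℓ)
      (e' := e') w.hWj n.hX1 (by rw [H.hSa]; exact n.hX2) n.hX3 n.hkf1
      (by rw [H.hSn]; exact n.hkf2) n.hℓ1 n.hℓ2 (by rw [H.hSa]; exact n.hℓ3) n.hK1 n.hK2
      (by rw [H.hSn]; exact n.hK3) (by
        rw [H.hSa]
        have h3 := n.hK3
        have h4 : τ ≤ a * τ := by
          have := mul_le_mul_of_nonneg_right ha.le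
            (show 0 ≤ τ by linarith only [n.hR, n.hτ])
          linarith only [this]
        linarith only [h3, h4]) n.hK5 n.hφ0 n.hφ1 n.hεφ n.he' n.he1 n.he2 n.hεe
      (by rw [H.hSn]; exact n.hbτ) (by rw [H.hSa]; exact n.hams)
      (by
        rw [H.hSa, H.hSn]
        have e1 : (a * R + a * R + 4) * q = (2 * (a * R) + 4) * q := by ring
        rw [e1]
        exact hqμ) (pf := fun l => L l t t)
      (Nf := fun l j => nX r (fun l x => L l x x) (t + -τ * q) (X * q) l -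
        (j : ℕ) * (t + -τ * q)) (fun l _ => by
          show L l t t - φ * q ≤ L l t t
          linarith only [hφq]) (by rw [H.hSn]; exact n.hX4)
      (fun l _ j _ => le_rfl) n.hδ0 n.hδ1 n.hδ2 n.hδ3 N₀
  rw [H.hSa, H.hSn] at h7
  exact ⟨S', h1, h2, h4, h5, h6, p₁, p₂, pa₁, pa₂, h7⟩

end

end Pool.PN18
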