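import Pool.Agent.H12.AB.Rwb
import Pool.Agent.H91.AB.Rws
import Pool.Agent.H91.AB.Nmf
import Pool.Agent.H18.PN.Uf1

/-!
# The rows of one hop and of one tie from the rows of a pair

`row_hop`: the row of one hop. `row_tie`: the rows of one tie, `row_top`: the same for the order `a`.
`nat_lab`: the natural level of the second label.
-/

set_option autoImplicit false

namespace Pool.AB18

open Finset Real MvPolynomial
open Pool.Agent.H49.Ent Pool.Agent.H32.Dense Pool.STK Pool.KA Pool.KSAT Pool.K2S Pool.PB Pool.GEN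
open Pool.S6C Pool.RCD Pool.LA91 Pool.OWN68 Pool.AJW Pool.AJX Pool.CHT Pool.PN18 Pool.LPK12
open Pool.TE46 Pool.AB63 Pool.AB91 Pool.RWB12

variable {m : ℕ} {S : PCl m} {C₀ : ℝ}

/-- **The row of one hop.** -/
theorem row_hop (htm : TmC S C₀) {Ψ₀ Ψ : Fm2 m} {κ₁ κ₂ : Fin m}
    {w p₁ p₂ p₁' p₂' a R q h e e' x N₁ N₂ δ : ℝ} {N j : ℕ}
    (hr : Rw2 S Ψ₀.swap κ₂ κ₁ w p₂ p₁ a a R h e N) (hC : Cvr S Ψ₀ Ψ κ₁ κ₂ w N₁ N₂ δ)
    (hS : ∀ (J : ℕ) (F : Fam m J) (A B : F.Ω → Prop) (V C : Type) (z : PtT F → V)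
      (z' : LnT F → V) (G₁ G₂ : V → MvPolynomial (Option (Fin m)) ℝ) (c : LnT F → C), Sub B A →
      Ψ₀ J F A V C z z' G₁ G₂ c → Ψ₀ J F B V C z z' G₁ G₂ c)
    (hN : 0 < N) (hj : j ≤ N) (hR : 0 ≤ R) (ha : 0 ≤ a) (hp₂ : |p₂' - p₂| ≤ x) (hp₁ : p₁ ≤ p₁')
    (hN₁ : p₁' + a * R ≤ N₁) (hN₂ : p₂' + a * R ≤ N₂) (hq : R * j / N = q)
    (he : e + 2 * x * Real.log 2 + δ < e') :
    Row1 S Ψ κ₁ κ₂ w (p₁' + a * R) (p₂' + a * (R - q)) (a * q)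
      ((a - h) * q * Real.log 2 + e') := by
  obtain ⟨s, hs⟩ : ∃ s : ℝ, s = e' - (e + 2 * x * Real.log 2 + δ) := ⟨_, rfl⟩
  have hs0 : 0 < s := by
    rw [hs]
    linarith only [he]
  have h1 := rw2_lvl (S := S) htm hr hp₂ hp₁ (e' := e + 2 * x * Real.log 2 + s / 2)
    (by linarith only [hs0])
  have h2 := (rwv_of htm hC hS hN hR ha ha (c₀ := 1) one_pos hN₁ hN₂ h1 (e' := e')
    (by rw [div_one]; linarith only [hs, hs0])).rw2 htm le_rfl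
  have h3 := row1_of h2 hj
  rw [hq] at h3
  exact h3

/-- **The rows of one tie**, order less than `a`. -/
theorem row_tie (htm : TmC S C₀) {Ψ₀ Ψ : Fm2 m} {κ₁ κ₂ : Fin m}
    {w p₁ p₂ p₁' p₂' a R q h e e' x N₁ N₂ δ c₀ : ℝ} {N k N₀ : ℕ}
    (hr : Rw2 S Ψ₀.swap κ₂ κ₁ w p₂ p₁ a a R h e N) (hC : Cvr S Ψ₀ Ψ κ₁ κ₂ w N₁ N₂ δ)
    (hS : ∀ (J : ℕ) (F : Fam m J) (A B : F.Ω → Prop) (V C : Type) (z : PtT F → V)
      (z' : LnT F → V) (G₁ G₂ : V → MvPolynomial (Option (Fin m)) ℝ) (c : LnT F → C), Sub B A →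
      Ψ₀ J F A V C z z' G₁ G₂ c → Ψ₀ J F B V C z z' G₁ G₂ c)
    (hN : 0 < N) (hN₀ : 0 < N₀) (hk : k * N₀ ≤ N) (hc₀ : 0 < c₀) (hqR : 0 ≤ q) (ha : 0 ≤ a)
    (hp₂ : |p₂' - p₂| ≤ x) (hp₁ : p₁ ≤ p₁')
    (hN₁ : p₁' + a * R ≤ N₁) (hN₂ : p₂' + a * R ≤ N₂) (hq : R * k * N₀ / N = 2 * q)
    (he : e + 2 * x * Real.log 2 + δ / c₀ < e') :
    RwV S Ψ.swap κ₂ κ₁ w (p₂' + a * (R - 2 * q)) (p₁' + a * (R - 2 * q)) a a (2 * q) h e' c₀
      N₀ := by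
  obtain ⟨s, hs⟩ : ∃ s : ℝ, s = e' - (e + 2 * x * Real.log 2 + δ / c₀) := ⟨_, rfl⟩
  have hs0 : 0 < s := by
    rw [hs]
    linarith only [he]
  have h0 := rw2_sub hr hk hN hN₀
  rw [hq] at h0
  have h1 := rw2_lvl (S := S) htm h0 (p₁' := p₂' + a * (R - 2 * q))
    (p₂' := p₁' + a * (R - 2 * q)) (x := x)
    (by
      have e1 : p₂' + a * (R - 2 * q) - (p₂ + a * (R - 2 * q)) = p₂' - p₂ := by ring
      rw [e1]
      exact hp₂) (by linarith only [hp₁]) (e' := e + 2 * x * Real.log 2 + s / 2)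
    (by linarith only [hs0])
  exact rwv_of htm hC hS hN₀ (by linarith only [hqR]) ha ha hc₀
    (by
      have e1 : p₁' + a * (R - 2 * q) + a * (2 * q) = p₁' + a * R := by ring
      rw [e1]
      exact hN₁) (by
      have e1 : p₂' + a * (R - 2 * q) + a * (2 * q) = p₂' + a * R := by ring
      rw [e1]
      exact hN₂) h1 (by linarith only [hs, hs0])

/-- **The rows of one tie**, the order `a`. -/
theorem row_top (htm : TmC S C₀) {Ψ₀ Ψ : Fm2 m} {κ₁ κ₂ : Fin m}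
    {w p₁ p₂ p₁' p₂' a q h e e₁ e' x N₁ N₂ δ c₀ : ℝ} {N₀ : ℕ}
    (hr : Rw2 S Ψ₀.swap κ₂ κ₁ w p₂ p₁ a a q h e N₀) (hC : Cvr S Ψ₀ Ψ κ₁ κ₂ w N₁ N₂ δ)
    (hS : ∀ (J : ℕ) (F : Fam m J) (A B : F.Ω → Prop) (V C : Type) (z : PtT F → V)
      (z' : LnT F → V) (G₁ G₂ : V → MvPolynomial (Option (Fin m)) ℝ) (c : LnT F → C), Sub B A →
      Ψ₀ J F A V C z z' G₁ G₂ c → Ψ₀ J F B V C z z' G₁ G₂ c)
    (hnat : Bas S (fun J F A => ∀ (V C : Type) (z : PtT F → V) (z' : LnT F → V)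
      (G₁ G₂ : V → MvPolynomial (Option (Fin m)) ℝ) (c : LnT F → C), Ψ₀ J F A V C z z' G₁ G₂ c →
      CH (Pool.Agent.H49.Ent.cond F.p A True) (oj F κ₂ z' G₂ ⌊w * J⌋₊ p₂ 0)
        (fun ω => (z' (slam F ⌊w * J⌋₊ ω), (c (slam F ⌊w * J⌋₊ ω), F.W ω))) ≤ e₁ * J))
    (hN₀ : 0 < N₀) (hc₀ : 0 < c₀) (hq : 0 ≤ q) (ha : 0 ≤ a) (hha : h ≤ a) (he0 : 0 ≤ e)
    (he₁ : 0 ≤ e₁) (hp₂ : |p₂' - p₂| ≤ x) (hp₁ : p₁ ≤ p₁')
    (hN₁ : p₁' + a * q ≤ N₁) (hN₂ : p₂' + a * q ≤ N₂)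
    (he : e + e₁ + 2 * x * Real.log 2 + δ / c₀ < e') :
    RwV S Ψ.swap κ₂ κ₁ w (p₂' - a * q) (p₁' - a * q) a a (2 * q) h e' c₀ N₀ := by
  obtain ⟨s, hs⟩ : ∃ s : ℝ, s = e' - (e + e₁ + 2 * x * Real.log 2 + δ / c₀) := ⟨_, rfl⟩
  have hs0 : 0 < s := by
    rw [hs]
    linarith only [he]
  have h0 := rw2_ext (S := S) htm hr hnat hN₀ hq ha hha he0 he₁ (e' := e + e₁ + s / 4)
    (by linarith only [hs0])
  have hN0 : (0 : ℝ) < N₀ := by exact_mod_cast hN₀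
  have e2 : 2 * q * (2 : ℕ) * (N₀ : ℕ) / ((2 * N₀ : ℕ) : ℝ) = 2 * q := by
    push_cast
    field_simp
  have h1 := rw2_sub (N' := N₀) (k := 2) h0 (by omega) (by omega) hN₀
  rw [e2] at h1
  have e3 : a * (2 * q - 2 * q) = 0 := by ring
  rw [e3, add_zero, add_zero] at h1
  have h2 := rw2_lvl (S := S) htm h1 (p₁' := p₂' - a * q) (p₂' := p₁' - a * q) (x := x)
    (by
      have e1 : p₂' - a * q - (p₂ - a * q) = p₂' - p₂ := by ring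
      rw [e1]
      exact hp₂) (by linarith only [hp₁]) (e' := e + e₁ + 2 * x * Real.log 2 + s / 2)
    (by linarith only [hs0])
  exact rwv_of htm hC hS hN₀ (by linarith only [hq]) ha ha hc₀
    (by
      have e1 : p₁' - a * q + a * (2 * q) = p₁' + a * q := by ring
      rw [e1]
      exact hN₁) (by
      have e1 : p₂' - a * q + a * (2 * q) = p₂' + a * q := by ring
      rw [e1]
      exact hN₂) h2 (by linarith only [hs, hs0])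

/-- **The natural level** of the second label. -/
theorem nat_lab (htm : TmC S C₀) {Ψ : Fm2 m} {I : Finset (Fin m)} {κ : Fin m} {K : ℕ}
    {w p E ρ e e₁ : ℝ} (he : 0 < e) (hep : e ≤ p) (h1 : e * Real.log 2 < e₁)
    (hl : ∀ (J : ℕ) (F : Fam m J) (A : F.Ω → Prop) (V C : Type) (z : PtT F → V)
      (z' : LnT F → V) (G₁ G₂ : V → MvPolynomial (Option (Fin m)) ℝ) (c : LnT F → C),
      Ψ J F A V C z z' G₁ G₂ c →
      LbOK F I κ K ⌊E * J⌋₊ J ⌊w * J⌋₊ ⌊ρ * J⌋₊ ⌊(p - e) * J⌋₊ A z z' G₂) :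
    Bas S (fun J F A => ∀ (V C : Type) (z : PtT F → V) (z' : LnT F → V)
      (G₁ G₂ : V → MvPolynomial (Option (Fin m)) ℝ) (c : LnT F → C), Ψ J F A V C z z' G₁ G₂ c →
      CH (Pool.Agent.H49.Ent.cond F.p A True) (oj F κ z' G₂ ⌊w * J⌋₊ p 0)
        (fun ω => (z' (slam F ⌊w * J⌋₊ ω), (c (slam F ⌊w * J⌋₊ ω), F.W ω))) ≤ e₁ * J) := by
  obtain ⟨J₀, hJ₀⟩ := exists_nat_ge (Real.log 13 / (e₁ - e * Real.log 2))
  refine Bas.mono J₀ (Pool.GRW.tmc_bas htm one_pos) ?_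
  rintro J hJ F A ⟨hA, -⟩ V C z z' G₁ G₂ c hc
  have hcl := isLaw_cond F.isLaw hA
  have hJ0 : (0 : ℝ) ≤ J := Nat.cast_nonneg J
  have hL := hl J F A V C z z' G₁ G₂ c hc
  obtain ⟨B, hB⟩ : ∃ B : ℝ, B = 2 ^ (e * J) := ⟨_, rfl⟩
  have hB1 : 1 ≤ B := by
    rw [hB]
    exact Real.one_le_rpow (by norm_num) (mul_nonneg he.le hJ0)
  have hpos : ∀ ω, 0 < Pool.Agent.H49.Ent.cond F.p A True ω → A ω := by
    intro ω hω
    by_contra hc
    unfold Pool.Agent.H49.Ent.cond at hω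
    rw [if_neg (fun h => hc (of_eq_true h))] at hω
    exact lt_irrefl _ hω
  have hb : ∀ ω, A ω → |(2 : ℝ) ^ (p * J) * ojet F κ 0 (G₂ (z' (slam F ⌊w * J⌋₊ ω))) ω| ≤
      2 * B := by
    intro ω hω
    have h2 := hL.pos ω hω
    rw [Pool.LA91.ojet_zero, abs_mul, abs_of_pos (by positivity)]
    have h3 : (1 : ℝ) / 2 ^ ⌊(p - e) * J⌋₊ ≤ 2 * 2 ^ (-((p - e) * J)) := by
      have h4 : (p - e) * J < ⌊(p - e) * J⌋₊ + 1 := Nat.lt_floor_add_one _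
      have h5 : (2 : ℝ) ^ ((p - e) * J) ≤ 2 * 2 ^ ⌊(p - e) * J⌋₊ := by
        rw [← Real.rpow_natCast 2 ⌊(p - e) * J⌋₊]
        have h6 : (2 : ℝ) * 2 ^ (⌊(p - e) * J⌋₊ : ℝ) = 2 ^ ((⌊(p - e) * J⌋₊ : ℝ) + 1) := by
          rw [Real.rpow_add_one (by norm_num)]
          ring
        rw [h6]
        exact Real.rpow_le_rpow_of_exponent_le one_le_two h4.le
      rw [Real.rpow_neg (by norm_num), div_le_iff₀ (by positivity), ← div_eq_mul_inv,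
        div_mul_eq_mul_div, le_div_iff₀ (by positivity), one_mul]
      exact h5
    calc (2 : ℝ) ^ (p * J) * |F.x ω κ - eval (bt F ω) (G₂ (z' (slam F ⌊w * J⌋₊ ω)))| ≤
          2 ^ (p * J) * (2 * 2 ^ (-((p - e) * J))) :=
          mul_le_mul_of_nonneg_left (h2.trans h3) (by positivity)
      _ = 2 * B := by
          have h7 : (2 : ℝ) ^ (p * J) * 2 ^ (-((p - e) * J)) = B := by
            rw [hB, ← Real.rpow_add (by norm_num)]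
            ring_nf
          rw [← h7]
          ring
  have key := Pool.LPK12.CH_near hcl (fun ω => (2 : ℝ) ^ (p * J) *
    ojet F κ 0 (G₂ (z' (slam F ⌊w * J⌋₊ ω))) ω)
    (fun ω => (z' (slam F ⌊w * J⌋₊ ω), (c (slam F ⌊w * J⌋₊ ω), F.W ω))) (K := 4 * B)
    (fun ω ω' h2 h3 _ => by
      have h4 := abs_le.1 (hb ω (hpos ω h2))
      have h5 := abs_le.1 (hb ω' (hpos ω' h3))
      rw [abs_le]
      exact ⟨by linarith only [h4.1, h5.2], by linarith only [h4.2, h5.1]⟩)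
  refine le_trans key ?_
  have hJr : (J₀ : ℝ) ≤ J := by exact_mod_cast hJ
  have h8 : Real.log 13 ≤ (e₁ - e * Real.log 2) * J := by
    have := hJ₀.trans hJr
    rw [div_le_iff₀ (by linarith only [h1])] at this
    linarith only [this]
  have h9 : 2 * ((⌈4 * B⌉₊ + 1 : ℕ) : ℝ) + 1 ≤ 13 * B := by
    have := (Nat.ceil_lt_add_one (show 0 ≤ 4 * B by positivity)).le
    push_cast
    linarith only [this, hB1]
  have h10 : Real.log (2 * ((⌈4 * B⌉₊ + 1 : ℕ) : ℝ) + 1) ≤ Real.log (13 * B) :=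
    Real.log_le_log (by positivity) h9
  have h11 : Real.log (13 * B) = Real.log 13 + e * J * Real.log 2 := by
    rw [Real.log_mul (by norm_num) (by linarith only [hB1]), hB, Real.log_rpow (by norm_num)]
  linarith only [h8, h10, h11]

end Pool.AB18
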