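import Pool.Agent.H63.AB.Sto
import Pool.Agent.H63.AB.Stg
import Pool.Agent.H63.AB.Stm
import Pool.Agent.H18.AB.Row
import Pool.Agent.H18.AB.Bxr

/-!
# One hop at a record

`StpD`: the data of a step in a subclass: the family of the pair, its rows, the common data, the cover.
`step_rec`: at a record. `hop_rec`: one hop at a record.
-/

set_option autoImplicit false

namespace Pool.AB18

open Finset Real MvPolynomial
open Pool.Agent.H49.Ent Pool.Agent.H32.Dense Pool.STK Pool.KA Pool.KSAT Pool.K2S Pool.PB Pool.GEN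
open Pool.S6C Pool.RCD Pool.LA91 Pool.OWN68 Pool.AJW Pool.AJX Pool.CHT Pool.PKG Pool.PN18
open Pool.LPK12 Pool.ALT
open Pool.TE46 Pool.AB63 Pool.AB91 Pool.RWB12
open Pool.RJ28 (dgj dgj_lt dgj_st dgj_le)
open Pool.CR99 (PairE)

/-- **The data of a step**: `b` the early window, `w` the window of the family, `t` the late one. -/
structure StpD {r : ℕ} (D K : ℕ) (S : PCl (r + 2)) (Ψ₀ : Fm2 (r + 2)) (c : ℕ → Fin (r + 2))
    (L : ℕ → ℝ → ℝ → ℝ) (a h δ Rq An Dn γ s e₁ E₀ R₀ : ℝ) (N₀ : ℕ) (b w t : ℝ) : Prop where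
  ne : S.Ne
  tm : ∃ C₀ : ℝ, TmC S C₀
  her : ∀ (J : ℕ) (F : Fam (r + 2) J) (A B : F.Ω → Prop) (V C : Type) (z : PtT F → V)
      (z' : LnT F → V) (G₁ G₂ : V → MvPolynomial (Option (Fin (r + 2))) ℝ) (c : LnT F → C),
      Sub B A → Ψ₀ J F A V C z z' G₁ G₂ c → Ψ₀ J F B V C z z' G₁ G₂ c
  /-- the second label -/
  lb₂ : ∃ (Kp : ℕ) (E₂ r₂ : ℝ), ∀ (J : ℕ) (F : Fam (r + 2) J) (A : F.Ω → Prop) (V C : Type)
      (z : PtT F → V) (z' : LnT F → V) (G₁ G₂ : V → MvPolynomial (Option (Fin (r + 2))) ℝ)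
      (cc : LnT F → C), Ψ₀ J F A V C z z' G₁ G₂ cc →
      LbOK F ((range (r + 1)).image c) (c (r + 1)) Kp ⌊E₂ * J⌋₊ J ⌊w * J⌋₊ ⌊r₂ * J⌋₊
        ⌊(L (r + 1) w w - e₁) * J⌋₊ A z z' G₂
  rw₂ : Rw2 S Ψ₀.swap (c (r + 1)) (c r) w (L (r + 1) w w) (L r w w) a a Rq h (δ * Rq) N₀
  stc : ∀ η e : ℝ, 0 < η → 0 < e → e ≤ Dn / 16 →
    StC S c r K Ψ₀ e (fun i => if i = r + 1 then E₀ else max 0 (L r b b - L i b b)) b w t
      (fun i => if i = r + 1 then R₀ else L r b b)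
      (fun i => if i = r + 1 then L (r + 1) b b - γ else L i b b)
      (fun l j => L l b b + dgj An Dn r l + 2 * Dn + j * (w - b))
      (npQ (r + 2) c r (fun l x => L l x x) b An Dn) η η η
  cvr : ∀ e k δc : ℝ, e ≤ e₁ → k < δc →
    Cvr S Ψ₀ (FmM (FmB Ψ₀ c r K e
      (fun i => if i = r + 1 then E₀ else max 0 (L r b b - L i b b)) b w
      (fun i => if i = r + 1 then R₀ else L r b b)
      (fun i => if i = r + 1 then L (r + 1) b b - γ else L i b b)
      (fun l j => L l b b + dgj An Dn r l + 2 * Dn + j * (w - b))) w k) (c r) (c (r + 1)) w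
      (L r b b + s + a * (w - b) + a * Rq) (L (r + 1) b b + a * (w - b) + a * Rq) δc

/-- **The data of a step at a record.** -/
theorem step_rec {r D K : ℕ} (hr : 1 ≤ r) {S S₁ : PCl (r + 2)} {al : ℝ} {g₀ : ℝ → ℝ}
    {P : List (Fin (r + 2)) × Fin (r + 2) → ℝ → ℝ → ℝ} {θ : ℝ}
    {P₂ : ℕ → List (Fin (r + 2)) × Fin (r + 2) → ℝ → ℝ → ℝ} {θ₂ Eb e₂ : ℕ → ℝ}
    {c : ℕ → Fin (r + 2)} {Pt : ℝ → ℝ → ℝ} {rt : ℝ → ℝ} {h K₀ g : ℝ} {L T : ℕ → ℝ → ℝ → ℝ}
    {Sl : ℕ → ℝ} {κ : ℕ → Kg} {G : Set ℝ} {S₀ N : ℕ} {A V : ℕ → ℝ} {S₂ N' : ℕ} {V' : ℕ → ℝ}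
    {K' ε q t a e₀ ρ₀ π₀ μ el dl : ℝ} {k₀ : ℕ}
    (H : GrA r D S S₁ al g₀ P θ P₂ θ₂ Eb e₂ c Pt rt h K₀ g L T Sl κ G S₀ N A V S₂ N' V'
      K' ε q t a e₀ ρ₀ π₀ μ el dl k₀) {δ R τ Tn X φ kf ℓ e' ms : ℝ}
    (n : PrN r a K₀ K' ε δ el dl R τ Tn X φ kf ℓ e' ms) {M : ℕ} {W : ℕ → ℝ}
    (w : PrW r N' V' K₀ τ Tn X ms M W) (hk₀ : (K₀ + τ) * q ≤ (1 / 2) ^ k₀)
    (hqμ : (2 * (a * R) + 4) * q ≤ μ / 4) (N₀ : ℕ) {An Dn φn : ℝ} {v₀ : ℕ → ℝ}
    (NP : NpW S₁ c r (fun l x => L l x x) G (t + -Tn * q) (t + -τ * q) An Dn φn v₀)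
    (hK : max D D * max 1 D ≤ K) {γ s : ℝ} (hγ : e' * q ≤ γ) (hγs : γ ≤ s)
    (hAn : a * ((Tn - τ) * q) + a * R * q + s + γ ≤ An) (hsq : s ≤ q / 8)
    (hnX : ∀ l < r, nX r (fun l x => L l x x) (t + -τ * q) (X * q) l ≤
      L l (t + -Tn * q) (t + -Tn * q) + dgj An Dn r l + 2 * Dn) (heD : e' * q ≤ Dn / 16) :
    ∃ (S' : PCl (r + 2)) (Ψ₀ : Fm2 (r + 2)),
      (∀ (τ : ℝ) (J : ℕ) (F : Fam (r + 2) J) (A : F.Ω → Prop), S'.St τ J F A → S₁.St τ J F A) ∧
      StpD D K S' Ψ₀ c L a (h * a) δ (R * q) An Dn γ s (e' * q) (e₀ - μ / 2) (ρ₀ - μ / 2) N₀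
        (t + -Tn * q) (t + -τ * q) t := by
  have Rc := H.rc
  have hq := Rc.q0
  have ha := H.ha
  have htm := Rc.tmc
  obtain ⟨S', ne', hs', hE, hr1, hr2, p₁, p₂, pa₁, pa₂, PE⟩ := H.pairs hr n w hk₀ hqμ N₀
  have htm' : TmC S' 6 := tmc_sub hs' htm
  have hR := n.hR
  have hτ := n.hτ
  have hTn := n.hTn
  have hK5 := n.hK5
  have hK₀ := H.hK₀
  have he'0 := n.he'
  have he'2 := n.he2
  have heq : 0 < e' * q := mul_pos he'0 hq
  have hTnK : Tn ≤ K' := by linarith only [hK5, hK₀]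
  have hTn0 : 0 < Tn := by linarith only [hR, hτ, hTn]
  have hτ0 : 0 < τ := by linarith only [hR, hτ]
  have hTnq : Tn * q ≤ K' * q := mul_le_mul_of_nonneg_right hTnK hq.le
  have hτq : τ * q ≤ Tn * q := mul_le_mul_of_nonneg_right hTn hq.le
  have hτq0 : 0 < τ * q := mul_pos hτ0 hq
  have h1q : (Tn + 1) * q ≤ K' * q :=
    mul_le_mul_of_nonneg_right (by linarith only [hK5, hK₀]) hq.le
  have ht0 := Rc.t0
  have ht1 := Rc.t1
  obtain ⟨b, hb⟩ : ∃ b, b = t + -Tn * q := ⟨_, rfl⟩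
  obtain ⟨v, hv⟩ : ∃ v, v = t + -τ * q := ⟨_, rfl⟩
  have hb' : b = t - Tn * q := by rw [hb]; ring
  have hv' : v = t - τ * q := by rw [hv]; ring
  have hbq : q ≤ b := by linarith only [hb', ht0, h1q]
  have hbv : b ≤ v := by linarith only [hb', hv', hτq]
  have hvt : v ≤ t := by linarith only [hv', hτq0]
  have ht1' : t ≤ 1 := by
    have : 0 < K' * q := by linarith only [hTnq, hτq, hτq0]
    linarith only [ht1, this]
  have hb0 : 0 ≤ b := by linarith only [hbq, hq]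
  have hv0 : 0 ≤ v := by linarith only [hb0, hbv]
  have hv1 : v ≤ 1 := hvt.trans ht1'
  have hb1 : b ≤ 1 := hbv.trans hv1
  have hvb : v - b = (Tn - τ) * q := by
    rw [hb', hv']
    ring
  have abb : |b - t| ≤ K' * q := by
    rw [abs_le]
    exact ⟨by linarith only [hb', hTnq], by linarith only [hbv, hvt, hTnq, hTn0, hτq, hτq0]⟩
  have abv : |v - t| ≤ K' * q := by
    rw [abs_le]
    exact ⟨by linarith only [hv', hTnq, hτq], by linarith only [hvt, hTnq, hτq, hτq0]⟩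
  have mono : ∀ l < r + 2, L l b b ≤ L l v v := fun l hl => Rc.mnD hl abb abv hbv
  have lo : ∀ l < r + 2, ∀ x, 0 ≤ x → x ≤ 1 → x ≤ L l x x := fun l hl x h0 h1 =>
    Rc.low_at hl h0 le_rfl h1
  rw [← hb, ← hv] at NP
  rw [← hb, ← hv] at PE
  rw [← hv] at hE hr1 hr2
  rw [← hb, ← hv] at hnX
  rw [← hb, ← hv]
  obtain ⟨jb, hjb, ejb⟩ := w.hWin 0 (Nat.zero_le _)
  have hbV : t + V' jb * q = b := by rw [ejb, w.hW0, hb]
  have hlb := (H.hlab jb hjb).2
  rw [hbV] at hlb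
  have hch' := NP.ch.sub hs'
  have hDK : D ≤ max D D * max 1 D := by
    rw [max_self]
    exact Nat.le_mul_of_pos_right D (by omega)
  have hDK1 : D * max 1 D ≤ K := by
    rw [max_self] at hK
    exact hK
  have hDd := NP.D0
  have hAd := NP.A0
  refine ⟨S', _, hs', ne', ⟨6, htm'⟩, PE.psl.2, ⟨_, _, _, fun J F A V C z z' G₁ G₂ cc h =>
    (PE.psl.1 J F A V C z z' G₁ G₂ cc h).2⟩, PE.rw₂, fun η e hη he he1 => ?_,
    fun e k δc hee hk => ?_⟩
  · exact Pool.AB63.PairE.stc (K := K) (sn := fun l x => L l x x) ne' htm' PE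
      (fun e he => Bas.sub hs' (hlb e he)) hDK1 (hDK.trans hK)
      (by
        show L (r + 1) b b - γ ≤ L (r + 1) b b - e' * q
        linarith only [hγ]) hch' NP.bG hbv hvt ht1' hAd hDd NP.φD NP.v NP.b1 hη he he1
  · have hP₁ : e' * q ≤ L r b b - e' * q := by
      have h1 := lo r (by omega) b hb0 hb1
      have h2 : e' * q ≤ 1 / 64 * q := mul_le_mul_of_nonneg_right he'2 hq.le
      linarith only [h1, h2, hbq, hq]
    have hP₂ : e' * q ≤ L (r + 1) b b - γ - e' * q := by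
      have h1 := lo (r + 1) (by omega) b hb0 hb1
      have h2 : e' * q ≤ 1 / 64 * q := mul_le_mul_of_nonneg_right he'2 hq.le
      linarith only [h1, h2, hbq, hq, hγs, hsq]
    have NP' : NpW S' c r (fun l x => L l x x) G b v An Dn φn v₀ :=
      { NP with ch := hch' }
    have hdg : ∀ l < r, 4 * (An + 4 * Dn) ≤ dgj An Dn r l := fun l hl => dgj_lt hAd hDd hl
    have hd0 := hdg 0 (by omega)
    have hb1 := NP.b1
    have hwD := NP.wD
    have eR : a * (R * q) = a * R * q := by ring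
    rw [← hvb] at hAn
    have m0 := mono r (by omega)
    have m1 := mono (r + 1) (by omega)
    have hiv : ∀ i < r, 0 ≤ L i v v := fun i hi => hv0.trans (lo i (by omega) v hv0 hv1)
    have hKq : 0 < K' * q := by linarith only [hTnq, hτq, hτq0]
    exact fmb_cvr (S := S') (c := c) (r := r) (sn := fun l x => L l x x) (K₀ := max D D * max 1 D)
      (P₁ := L r b b - e' * q) (P₂ := L (r + 1) b b - γ - e' * q) htm' NP' hr
      (psq_psb _ c r D (max D D * max 1 D) _ _ _ _ _ _ _ _ _ _ _ _ _ _ _ _ _ _ _)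
      (fun l _ => rfl)
      (fun i hi => by
        have h1 := (hE i hi.le).2
        have h2 := hiv i hi
        linarith only [h1, h2, hKq]) (fun i _ => hr1)
      (by
        have h1 : 0 ≤ ℓ := by
          have h2 := n.hℓ3
          have h3 : 0 < a * R := mul_pos (by linarith only [ha]) hR
          linarith only [h2, h3, hR]
        exact mul_nonneg h1 hq.le) hnX heq heD hee
      (fun l hl => if_neg (by omega)) hP₁ hP₂
      (by
        show L r b b - e' * q < L r v v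
        linarith only [m0, heq])
      (by
        show L r b b - e' * q < if r = r + 1 then L (r + 1) b b - γ else L r b b
        rw [if_neg (by omega)]
        linarith only [heq])
      (by
        show L (r + 1) b b - γ - e' * q < L (r + 1) v v
        linarith only [m1, heq, hγ])
      (by
        show L (r + 1) b b - γ - e' * q < if r + 1 = r + 1 then L (r + 1) b b - γ else
          L (r + 1) b b
        rw [if_pos rfl]
        linarith only [heq])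
      (by
        rw [eR]
        linarith only [hAn, hγ, hd0, hb1, hwD, hAd, hDd, hbv])
      (fun l hl => by
        rw [eR]
        have h1 := hdg l hl
        linarith only [hAn, hγ, h1, hAd, hDd])
      (by
        rw [eR]
        linarith only [hAn, hγ, hγs, hd0, hb1, hwD, hAd, hDd, hbv])
      (fun l hl => by
        rw [eR]
        have h1 := hdg l hl
        linarith only [hAn, hγ, hγs, h1, hAd, hDd])
      (fun l _ i j hij => by
        have h1 : (i : ℝ) ≤ j := by exact_mod_cast hij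
        have h2 := mul_le_mul_of_nonneg_right h1 (sub_nonneg.2 hbv)
        show L l b b + dgj An Dn r l + 2 * Dn + i * (v - b) ≤
          L l b b + dgj An Dn r l + 2 * Dn + j * (v - b)
        linarith only [h2])
      (fun l _ => by
        show L l b b + dgj An Dn r l + 2 * Dn ≤
          L l b b + dgj An Dn r l + 2 * Dn + (0 : ℕ) * (v - b)
        rw [Nat.cast_zero]
        linarith only [])
      (fun l _ => by
        show L l b b + dgj An Dn r l + 2 * Dn - b ≤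
          L l b b + dgj An Dn r l + 2 * Dn + (1 : ℕ) * (v - b) - v
        rw [Nat.cast_one]
        linarith only []) hk

/-- **One hop at a record.** -/
theorem hop_rec {r D K : ℕ} (hr : 1 ≤ r) {a h : ℝ} (ha : 1 < a) (hh : 0 < h) (hh1 : h ≤ 1) {j : ℕ}
    (hj : 1 ≤ j ∧ j ≤ K + 2) {τ d R : ℝ} (hd : 0 < d) (hR : 0 < R)
    (haR : a * R = (a - j) * τ + d) (hja : (j : ℝ) ≤ a) (hτ : 0 ≤ τ) {NE jE : ℕ} (hNE : 0 < NE)
    (hjE : jE ≤ NE) (hdN : d * NE = a * R * jE) :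
    ∃ ε' : ℝ, 0 < ε' ∧ ∃ δ : ℝ, 0 < δ ∧ ∀ al₁ : ℝ, 0 < al₁ → ∃ δ₁ : ℝ, 0 < δ₁ ∧
    ∀ {S S₁ : PCl (r + 2)} {al : ℝ} {g₀ : ℝ → ℝ}
    {P : List (Fin (r + 2)) × Fin (r + 2) → ℝ → ℝ → ℝ} {θ : ℝ}
    {P₂ : ℕ → List (Fin (r + 2)) × Fin (r + 2) → ℝ → ℝ → ℝ} {θ₂ Eb e₂ : ℕ → ℝ}
    {c : ℕ → Fin (r + 2)} {Pt : ℝ → ℝ → ℝ} {rt : ℝ → ℝ} {K₀ g : ℝ} {L T : ℕ → ℝ → ℝ → ℝ}
    {Sl : ℕ → ℝ} {κ : ℕ → Kg} {G : Set ℝ} {S₀ N : ℕ} {A V : ℕ → ℝ} {S₂ N' : ℕ} {V' : ℕ → ℝ}
    {K' ε q t e₀ ρ₀ π₀ μ el dl : ℝ} {k₀ : ℕ}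
    (_ : GrA r D S S₁ al g₀ P θ P₂ θ₂ Eb e₂ c Pt rt h K₀ g L T Sl κ G S₀ N A V S₂ N' V'
      K' ε q t a e₀ ρ₀ π₀ μ el dl k₀) {Tn X φ kf ℓ e' ms : ℝ}
    (_ : PrN r a K₀ K' ε δ el dl R τ Tn X φ kf ℓ e' ms) {M : ℕ} {W : ℕ → ℝ}
    (_ : PrW r N' V' K₀ τ Tn X ms M W) (_ : (K₀ + τ) * q ≤ (1 / 2) ^ k₀)
    (_ : (2 * (a * R) + 4) * q ≤ μ / 4) {An Dn φn : ℝ} {v₀ : ℕ → ℝ}
    (_ : NpW S₁ c r (fun l x => L l x x) G (t + -Tn * q) (t + -τ * q) An Dn φn v₀)
    (_ : max D D * max 1 D ≤ K) {γ s : ℝ} (_ : e' * q ≤ γ) (_ : γ ≤ s)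
    (_ : a * ((Tn - τ) * q) + a * R * q + s + γ ≤ An) (_ : s ≤ q / 8)
    (_ : ∀ l < r, nX r (fun l x => L l x x) (t + -τ * q) (X * q) l ≤
      L l (t + -Tn * q) (t + -Tn * q) + dgj An Dn r l + 2 * Dn) (_ : e' * q ≤ Dn / 16),
    HopB S₁ c r K a (t + -Tn * q) (fun l x => L l x x) γ s
      (npQ (r + 2) c r (fun l x => L l x x) (t + -Tn * q) An Dn) j (t + -τ * q) t
      (a * (d / a * q)) ε' (d / a * q) al₁ δ₁ := by
  have ha0 : 0 < a := by linarith only [ha]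
  obtain ⟨ε', hε', δB, hδB, HB⟩ := hopB_om K hj ha0 (mul_pos hh ha0)
    (mul_le_of_le_one_left ha0.le hh1)
  obtain ⟨δ, hδ⟩ : ∃ δ, δ = δB * (d / a) / (4 * R) := ⟨_, rfl⟩
  have hδ0 : 0 < δ := by
    rw [hδ]
    positivity
  have hδR : δ * R = δB * (d / a) / 4 := by
    rw [hδ]
    field_simp
  refine ⟨ε', hε', δ, hδ0, fun al₁ hal => ?_⟩
  obtain ⟨δ₁, hδ₁, HB⟩ := HB al₁ hal
  refine ⟨δ₁, hδ₁, ?_⟩
  intro S S₁ al g₀ P θ P₂ θ₂ Eb e₂ c Pt rt K₀ g L T Sl κ G S₀ N A V S₂ N' V' K' ε q t e₀ ρ₀ π₀ μ el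
    dl k₀ H Tn X φ kf ℓ e' ms n M W w hk₀ hqμ An Dn φn v₀ NP hK γ s hγ hγs hAn hsq hnX heD
  have hq := H.rc.q0
  obtain ⟨S', Ψ₀, hs', D'⟩ := step_rec hr H n w hk₀ hqμ NE NP hK hγ hγs hAn hsq hnX heD
  refine HopB.up hs' ?_
  have hqh : 0 < d / a * q := by positivity
  have hDd := NP.D0
  obtain ⟨b, hb⟩ : ∃ b, b = t + -Tn * q := ⟨_, rfl⟩
  obtain ⟨v, hv⟩ : ∃ v, v = t + -τ * q := ⟨_, rfl⟩
  rw [← hb, ← hv] at D'
  rw [← hb, ← hv]
  have htv : t - v = τ * q := by rw [hv]; ring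
  have hvb : v - b = (Tn - τ) * q := by
    rw [hb, hv]
    ring
  have eR : a * (R * q) = (a - j) * (t - v) + a * (d / a * q) := by
    have e1 : a * (d / a * q) = d * q := by field_simp
    rw [e1, htv, ← mul_assoc, haR]
    ring
  obtain ⟨C₀, htm⟩ := D'.tm
  have h128 := n.hεe
  have hδ1 := n.hδ1
  have he'0 := n.he'
  have hK3 := n.hK3
  have hdR : d ≤ a * R := by
    rw [haR]
    have : 0 ≤ (a - j) * τ := mul_nonneg (by linarith only [hja]) hτ
    linarith only [this]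
  have hr0 : (0 : ℝ) ≤ r := Nat.cast_nonneg r
  have hb1 : Real.log 2 ≤ 1 := by
    have := Real.log_two_lt_d9
    linarith only [this]
  refine HB (E := fun i => if i = r + 1 then e₀ - μ / 2 else max 0 (L r b b - L i b b))
    (rd := fun i => if i = r + 1 then ρ₀ - μ / 2 else L r b b)
    (p := fun i => if i = r + 1 then L (r + 1) b b - γ else L i b b)
    (X := fun l j => L l b b + dgj An Dn r l + 2 * Dn + j * (v - b)) hqh
    (by
      have h1 := H.rc.t1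
      have h2 : (a * τ + a * R + 2) * q ≤ K' * q := mul_le_mul_of_nonneg_right hK3 hq.le
      have h3 : d * q ≤ a * R * q := mul_le_mul_of_nonneg_right hdR hq.le
      have h4 : 0 ≤ a * τ * q := by positivity
      have h5 : 0 ≤ τ * q := mul_nonneg hτ hq.le
      have e1 : a * (d / a * q) = d * q := by field_simp
      rw [e1]
      linarith only [h1, h2, h3, h4, h5, htv, hq])
    (if_neg (by omega)) (if_pos rfl) (fun η hη => ⟨min (Dn / 16) (e' * q),
      lt_min (by linarith only [hDd]) (mul_pos he'0 hq), δB * (d / a * q) / 16, by positivity,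
      fun e k he hee hk hkk => ⟨D'.stc η e hη he (hee.trans (min_le_left _ _)), ?_⟩⟩)
  have hC := D'.cvr e k (δB * (d / a * q) / 8) (hee.trans (min_le_right _ _))
    (by
      have : 0 < δB * (d / a * q) := by positivity
      linarith only [hkk, this])
  have habs : ∀ l < r + 2, Sl l = a → |L l b b + a * (v - b) - L l v v| ≤ 2 * ε * q := by
    intro l hl hSl
    have hR' := n.hR
    have hτ' := n.hτ
    have hTn := n.hTn
    have hK5 := n.hK5
    have hK₀ := H.hK₀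
    have hTnK : Tn ≤ K' := by linarith only [hK5, hK₀]
    have hTnq : Tn * q ≤ K' * q := mul_le_mul_of_nonneg_right hTnK hq.le
    have hτq : τ * q ≤ Tn * q := mul_le_mul_of_nonneg_right hTn hq.le
    have hτq0 : 0 ≤ τ * q := mul_nonneg hτ hq.le
    have abb : |b - t| ≤ K' * q := by
      rw [abs_le]
      exact ⟨by linarith only [hb, hTnq], by linarith only [hb, hTnq, hτq, hτq0]⟩
    have abv : |v - t| ≤ K' * q := by
      rw [abs_le]
      exact ⟨by linarith only [hv, hTnq, hτq], by linarith only [hv, hTnq, hτq, hτq0]⟩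
    have h1 := abs_le.1 (H.rc.dL l hl b abb)
    have h2 := abs_le.1 (H.rc.dL l hl v abv)
    rw [hSl] at h1 h2
    rw [abs_le]
    exact ⟨by linarith only [h1.1, h2.2], by linarith only [h1.2, h2.1]⟩
  have hN2 := habs (r + 1) (by omega) H.hSn
  have hN1 := (abs_le.1 (habs r (by omega) H.hSa)).1
  have hs2 : 2 * ε * q ≤ s := by
    have h1 : 128 * ε * q ≤ e' * q := mul_le_mul_of_nonneg_right h128 hq.le
    have h2 : 0 < ε * q := mul_pos H.hε hq
    linarith only [h1, h2, hγ, hγs]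
  have key := row_hop (q := d / a * q) (e' := δB * (d / a * q)) (x := 2 * ε * q)
    (p₁' := L r b b + s + a * (v - b)) (p₂' := L (r + 1) b b + a * (v - b)) htm D'.rw₂ hC D'.her
    hNE hjE (mul_pos hR hq).le ha0.le hN2 (by linarith only [hN1, hs2]) (by linarith only [])
    (by linarith only [])
    (by
      have hN0 : (0 : ℝ) < NE := by exact_mod_cast hNE
      rw [div_eq_iff hN0.ne']
      have e1 : d / a * q * NE = d * NE / a * q := by ring
      rw [e1, hdN]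
      field_simp)
    (by
      have e1 : δ * (R * q) = δB * (d / a * q) / 4 := by
        rw [← mul_assoc, hδR]
        ring
      have h2 : 2 * (2 * ε * q) * Real.log 2 ≤ 4 * ε * q := by
        have h3 : 0 ≤ 2 * (2 * ε * q) := by
          have := mul_pos H.hε hq
          linarith only [this]
        have h4 := mul_le_mul_of_nonneg_left hb1 h3
        linarith only [h4]
      have h3 : (8 * r + 49) * e' * q ≤ δ * R / 4 * q := mul_le_mul_of_nonneg_right hδ1 hq.le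
      have h4 : 128 * ε * q ≤ e' * q := mul_le_mul_of_nonneg_right h128 hq.le
      have h5 : 0 ≤ r * (e' * q) := mul_nonneg hr0 (mul_pos he'0 hq).le
      have h6 : 0 < e' * q := mul_pos he'0 hq
      have h7 : 0 < δB * (d / a * q) := by positivity
      have e2 : δ * R / 4 * q = δB * (d / a * q) / 16 := by
        rw [hδR]
        ring
      rw [e2] at h3
      rw [e1]
      linarith only [h2, h3, h4, h5, h6, h7])
  have e1 : L r b b + s + a * (v - b) + (a - j) * (t - v) + a * (d / a * q) =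
      L r b b + s + a * (v - b) + a * (R * q) := by
    rw [eR]
    ring
  have e2 : L (r + 1) b b + a * (v - b) + (a - j) * (t - v) =
      L (r + 1) b b + a * (v - b) + a * (R * q - d / a * q) := by
    have e3 : a * (R * q - d / a * q) = a * (R * q) - a * (d / a * q) := mul_sub _ _ _
    rw [e3, eR]
    ring
  rw [e1, e2]
  exact key

end Pool.AB18
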