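import Pool.Agent.H18.AB.Mvr
import Pool.Agent.H63.AB.Tir

/-!
# The hop and the tie at another centre and another scale

`HopC`, `TieC`: the hop and the tie at all records, with fixed constants. `hop_mv`, `tie_mv`: at the
centre `t + x q`, the unit `lam q`.
-/

set_option autoImplicit false

namespace Pool.AB18

open Finset Real MvPolynomial
open Pool.Agent.H49.Ent Pool.Agent.H32.Dense Pool.STK Pool.KA Pool.KSAT Pool.K2S Pool.PB Pool.GEN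
open Pool.S6C Pool.RCD Pool.LA91 Pool.OWN68 Pool.AJW Pool.AJX Pool.CHT Pool.PKG Pool.PN18
open Pool.LPK12 Pool.ALT
open Pool.TE46 Pool.AB63 Pool.AB91 Pool.RWB12
open Pool.RJ28 (dgj dgj_lt dgj_st dgj_le)

/-- **One hop at all records**, with fixed constants. -/
def HopC (r D K : ℕ) (a h : ℝ) (j : ℕ) (τ d R ε' δ al₁ δ₁ : ℝ) : Prop :=
    ∀ {S S₁ : PCl (r + 2)} {al : ℝ} {g₀ : ℝ → ℝ}
    {P : List (Fin (r + 2)) × Fin (r + 2) → ℝ → ℝ → ℝ} {θ : ℝ}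
    {P₂ : ℕ → List (Fin (r + 2)) × Fin (r + 2) → ℝ → ℝ → ℝ} {θ₂ Eb e₂ : ℕ → ℝ}
    {c : ℕ → Fin (r + 2)} {Pt : ℝ → ℝ → ℝ} {rt : ℝ → ℝ} {K₀ g : ℝ} {L T : ℕ → ℝ → ℝ → ℝ}
    {Sl : ℕ → ℝ} {κ : ℕ → Kg} {G : Set ℝ} {S₀ N : ℕ} {A V : ℕ → ℝ} {S₂ N' : ℕ} {V' : ℕ → ℝ}
    {K' ε q t e₀ ρ₀ π₀ μ el dl : ℝ} {k₀ : ℕ}
    (_ : GrA r D S S₁ al g₀ P θ P₂ θ₂ Eb e₂ c Pt rt h K₀ g L T Sl κ G S₀ N A V S₂ N' V'
      K' ε q t a e₀ ρ₀ π₀ μ el dl k₀) {Tn X φ kf ℓ e' ms : ℝ}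
    (_ : PrN r a K₀ K' ε δ el dl R τ Tn X φ kf ℓ e' ms) {M : ℕ} {W : ℕ → ℝ}
    (_ : PrW r N' V' K₀ τ Tn X ms M W) (_ : (K₀ + τ) * q ≤ (1 / 2) ^ k₀)
    (_ : (2 * (a * R) + 4) * q ≤ μ / 4) {An Dn φn : ℝ} {v₀ : ℕ → ℝ}
    (_ : NpW S₁ c r (fun l x => L l x x) G (t + -Tn * q) (t + -τ * q) An Dn φn v₀)
    (_ : max D D * max 1 D ≤ K) {γ s : ℝ} (_ : e' * q ≤ γ) (_ : γ ≤ s)
    (_ : a * ((Tn - τ) * q) + a * R * q + s + γ ≤ An) (_ : s ≤ q / 8)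
    (_ : ∀ l < r, nX r (fun l x => L l x x) (t + -τ * q) (X * q) l ≤
      L l (t + -Tn * q) (t + -Tn * q) + dgj An Dn r l + 2 * Dn) (_ : e' * q ≤ Dn / 16),
    HopB S₁ c r K a (t + -Tn * q) (fun l x => L l x x) γ s
      (npQ (r + 2) c r (fun l x => L l x x) (t + -Tn * q) An Dn) j (t + -τ * q) t
      (a * (d / a * q)) ε' (d / a * q) al₁ δ₁

/-- **The labels of the pair are free** over the near path (`Fr2`), for all small families. -/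
def FrH {r : ℕ} (K : ℕ) (S₁ : PCl (r + 2)) (c : ℕ → Fin (r + 2)) (L : ℕ → ℝ → ℝ → ℝ)
    (a e₀ ρ₀ μ γ s An Dn b w t : ℝ) (i : ℕ) (d q δ₁ : ℝ) : Prop :=
  ∀ (S' : PCl (r + 2)) (Ψ₀ : Fm2 (r + 2)), S'.Ne →
      (∀ (τ : ℝ) (J : ℕ) (F : Fam (r + 2) J) (A : F.Ω → Prop), S'.St τ J F A → S₁.St τ J F A) →
      ∃ e₁ : ℝ, 0 < e₁ ∧ ∃ k₁ : ℝ, 0 < k₁ ∧ ∀ e k : ℝ, 0 < e → e ≤ e₁ → 0 < k → k ≤ k₁ →
      Fr2 S' (FmM (FmB Ψ₀ c r K e
        (fun i => if i = r + 1 then e₀ - μ / 2 else max 0 (L r b b - L i b b)) b w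
        (fun i => if i = r + 1 then ρ₀ - μ / 2 else L r b b)
        (fun i => if i = r + 1 then L (r + 1) b b - γ else L i b b)
        (fun l j => L l b b + dgj An Dn r l + 2 * Dn + j * (w - b))) w k) ((range r).image c) (c r)
        (c (r + 1)) w
        (L r b b + s + a * (w - b) + (a - i) * (t - w) + a * (d / a * q))
        (L (r + 1) b b + a * (w - b) + (a - i) * (t - w) + a * (d / a * q))
        ((4 * K + 23) ^ (r + 2)) (δ₁ * (d / a * q))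

/-- **One tie at all records**, with fixed constants. -/
def TieC (r D K : ℕ) (a h : ℝ) (i : ℕ) (τ d R ε' δ al₁ δ₁ : ℝ) : Prop :=
    ∀ {S S₁ : PCl (r + 2)} {al : ℝ} {g₀ : ℝ → ℝ}
    {P : List (Fin (r + 2)) × Fin (r + 2) → ℝ → ℝ → ℝ} {θ : ℝ}
    {P₂ : ℕ → List (Fin (r + 2)) × Fin (r + 2) → ℝ → ℝ → ℝ} {θ₂ Eb e₂ : ℕ → ℝ}
    {c : ℕ → Fin (r + 2)} {Pt : ℝ → ℝ → ℝ} {rt : ℝ → ℝ} {K₀ g : ℝ} {L T : ℕ → ℝ → ℝ → ℝ}
    {Sl : ℕ → ℝ} {κ : ℕ → Kg} {G : Set ℝ} {S₀ N : ℕ} {A V : ℕ → ℝ} {S₂ N' : ℕ} {V' : ℕ → ℝ}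
    {K' ε q t e₀ ρ₀ π₀ μ el dl : ℝ} {k₀ : ℕ}
    (_ : GrA r D S S₁ al g₀ P θ P₂ θ₂ Eb e₂ c Pt rt h K₀ g L T Sl κ G S₀ N A V S₂ N' V'
      K' ε q t a e₀ ρ₀ π₀ μ el dl k₀) {Tn X φ kf ℓ e' ms : ℝ}
    (_ : PrN r a K₀ K' ε δ el dl R τ Tn X φ kf ℓ e' ms) {M : ℕ} {W : ℕ → ℝ}
    (_ : PrW r N' V' K₀ τ Tn X ms M W) (_ : (K₀ + τ + d + 1) * q ≤ (1 / 2) ^ k₀)
    (_ : (2 * (a * R) + 4) * q ≤ μ / 4) {An Dn φn : ℝ} {v₀ : ℕ → ℝ}
    (_ : NpW S₁ c r (fun l x => L l x x) G (t + -Tn * q) (t + -τ * q) An Dn φn v₀)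
    (_ : max D D * max 1 D = K) {γ s : ℝ} (_ : e' * q ≤ γ) (_ : γ ≤ s)
    (_ : a * ((Tn - τ) * q) + a * R * q + s + γ ≤ An) (_ : s ≤ q / 8)
    (_ : ∀ l < r, nX r (fun l x => L l x x) (t + -τ * q) (X * q) l ≤
      L l (t + -Tn * q) (t + -Tn * q) + dgj An Dn r l + 2 * Dn) (_ : e' * q ≤ Dn / 16)
    (_ : 1 ≤ D) (_ : μ / 2 ≤ t + -Tn * q) (_ : (2 * a * (Tn + 1) + d + 2) * q ≤ μ / 8)
    (_ : s ≤ h * d / 32 * q) (_ : el * (2 * (K₀ + τ + d + 1)) ≤ h * d / 32)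
    (_ : FrH K S₁ c L a e₀ ρ₀ μ γ s An Dn (t + -Tn * q) (t + -τ * q) t i d q δ₁),
    TieB S₁ c r K a (t + -Tn * q) (fun l x => L l x x) γ s
      (npQ (r + 2) c r (fun l x => L l x x) (t + -Tn * q) An Dn) i (t + -τ * q) t
      (a * (d / a * q)) ε' (d / a * q) al₁ δ₁

/-- **Hops.** -/
theorem hopC_ex {r D K : ℕ} (hr : 1 ≤ r) {a h : ℝ} (ha : 1 < a) (hh : 0 < h) (hh1 : h ≤ 1) {j : ℕ}
    (hj : 1 ≤ j ∧ j ≤ K + 2) {τ d R : ℝ} (hd : 0 < d) (hR : 0 < R)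
    (haR : a * R = (a - j) * τ + d) (hja : (j : ℝ) ≤ a) (hτ : 0 ≤ τ) {NE jE : ℕ} (hNE : 0 < NE)
    (hjE : jE ≤ NE) (hdN : d * NE = a * R * jE) :
    ∃ ε' : ℝ, 0 < ε' ∧ ∃ δ : ℝ, 0 < δ ∧ ∀ al₁ : ℝ, 0 < al₁ → ∃ δ₁ : ℝ, 0 < δ₁ ∧
    HopC r D K a h j τ d R ε' δ al₁ δ₁ :=
  hop_rec hr ha hh hh1 hj hd hR haR hja hτ hNE hjE hdN

/-- **Ties.** -/
theorem tieC_ex {r D K : ℕ} (hr : 1 ≤ r) {a h : ℝ} (ha : 1 < a) (hh : 0 < h) (hh1 : h ≤ 1) {i : ℕ}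
    (hi : 1 ≤ i ∧ i ≤ K + 2) {τ d R : ℝ} (hd : 0 < d) (hR : 0 < R)
    (haR : a * R = (a - i) * τ + d) (hia : (i : ℝ) ≤ a) (hτ : 0 ≤ τ) {NE jE : ℕ} (hNE : 0 < NE)
    (hdN : d * NE = a * R * jE) (hid : (i : ℝ) < a → d ≤ (a - i) * τ) :
    ∃ ε' : ℝ, 0 < ε' ∧ ∃ δ : ℝ, 0 < δ ∧ ∀ al₁ : ℝ, 0 < al₁ → ∃ δ₁ : ℝ, 0 < δ₁ ∧
    TieC r D K a h i τ d R ε' δ al₁ δ₁ :=
  tie_rec hr ha hh hh1 hi hd hR haR hia hτ hNE hdN hid

/-- **A small scale** `q`. -/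
structure QSm (a K₀ τM dM fM Tn μ q : ℝ) (k₀ : ℕ) : Prop where
  q1 : (K₀ + 1 + (τM + dM + 1) * fM) * q ≤ (1 / 2) ^ k₀
  q2 : (2 * (a * τM) + 4) * fM * q ≤ μ / 4
  q3 : (2 * a * (Tn + 1 + fM) + (dM + 2) * fM) * q ≤ μ / 8
  q4 : (K₀ + Tn) * q ≤ μ / 2

section

variable {r D K kt : ℕ} {a h K₀ τM dM fM XG φ X kf ℓ Tn A₁ D₁ Xf K₁ Kc K' : ℝ}
  {fm Rm gm δm dm lm : ℝ} {L₀ n₀ : ℕ} {η ev γ₀ s₀ μ₀ e' ms el dl ε f τ R δ d x lam : ℝ}
  {S S₁ : PCl (r + 2)} {al : ℝ} {g₀ : ℝ → ℝ}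
    {P : List (Fin (r + 2)) × Fin (r + 2) → ℝ → ℝ → ℝ} {θ : ℝ}
    {P₂ : ℕ → List (Fin (r + 2)) × Fin (r + 2) → ℝ → ℝ → ℝ} {θ₂ Eb e₂ : ℕ → ℝ}
    {c : ℕ → Fin (r + 2)} {Pt : ℝ → ℝ → ℝ} {rt : ℝ → ℝ} {g : ℝ} {L T : ℕ → ℝ → ℝ → ℝ}
    {Sl : ℕ → ℝ} {κ : ℕ → Kg} {G : Set ℝ} {S₀ N : ℕ} {A V : ℕ → ℝ} {S₂ N' : ℕ} {V' : ℕ → ℝ}
    {q t e₀ ρ₀ π₀ μ : ℝ} {k₀ : ℕ}

/-- The digits of the pair are at most those of the near path. -/
theorem nX_mv (H : GrA r D S S₁ al g₀ P θ P₂ θ₂ Eb e₂ c Pt rt h K₀ g L T Sl κ G S₀ N A V S₂ N' V'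
      K' ε q t a e₀ ρ₀ π₀ μ el dl k₀)
    (B : BigN r K a K₀ τM dM fM XG φ X kf ℓ Tn A₁ D₁ Xf K₁ Kc K')
    (s : SmN r kt a h K₀ τM dM fM fm Rm gm δm dm φ lm L₀ n₀ η ev γ₀ s₀ μ₀ e' ms el dl ε)
    (hlm : lm ≤ lam) (hlf : lam ≤ fM) {w b : ℝ} (hbe : b = t + -Tn * q) (hbw : b ≤ w)
    (hw1 : w ≤ t + 1 * q) :
    ∀ l < r, nX r (fun l x => L l x x) w (X * (lam * q)) l ≤
      L l b b + dgj (A₁ * q) (D₁ * q) r l + 2 * (D₁ * q) := by
  intro l hl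
  have hq := H.rc.q0
  have hlam : 0 < lam := s.lm0.trans_le hlm
  have ha := B.ha
  have hTn2 := B.Tn2
  have hXG := B.XG0
  have hTn0 : 0 < Tn := by linarith only [hTn2, hXG, ha]
  have hD1 := B.D1
  have hK3 := B.K'3
  have hτM := B.τM0
  have hX0 : 0 < X := by
    have h1 := B.X1
    have h2 : 0 < a * τM := mul_pos (by linarith only [ha]) hτM
    linarith only [h1, h2, hτM]
  have hA0 : 0 < A₁ := (mul_pos hX0 B.fM0).trans_le B.A3
  have hD0 : 0 < D₁ := by linarith only [hD1, hTn0]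
  have hAD : 0 < A₁ + 4 * D₁ := by linarith only [hA0, hD0]
  have hAr1 : 0 < (A₁ + 4 * D₁) * 4 ^ r := by positivity
  have hTK : Tn + 1 ≤ K' := by linarith only [hK3, hAr1, hD0]
  have hTq : (Tn + 1) * q ≤ K' * q := mul_le_mul_of_nonneg_right hTK hq.le
  have hTq0 : 0 < Tn * q := mul_pos hTn0 hq
  have hab : |b - t| ≤ K' * q := by
    rw [hbe, abs_le]
    exact ⟨by linarith only [hTq, hq], by linarith only [hTq, hTq0, hq]⟩
  have haw : |w - t| ≤ K' * q := by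
    rw [abs_le]
    exact ⟨by linarith only [hbw, hbe, hTq, hq], by linarith only [hw1, hTq, hTq0, hq]⟩
  have h0 := H.rc.kd l (by omega)
  rw [H.hκ l hl] at h0
  have h3 : Sl l = 1 := h0
  have h1 := abs_le.1 (H.rc.dL l (by omega) b hab)
  have h2 := abs_le.1 (H.rc.dL l (by omega) w haw)
  rw [h3] at h1 h2
  have h4 : (1 : ℝ) ≤ 4 ^ (r - l) := one_le_pow₀ (by norm_num)
  have h5 : (3 : ℝ) ^ (r - 1 - l) ≤ 4 ^ (r - l) :=
    (pow_le_pow_left₀ (by norm_num) (by norm_num) _).trans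
      (pow_le_pow_right₀ (by norm_num) (by omega))
  have h6 : X * lam ≤ A₁ := (mul_le_mul_of_nonneg_left hlf hX0.le).trans B.A3
  have h7 : (3 : ℝ) ^ (r - 1 - l) * (X * lam) ≤ 4 ^ (r - l) * A₁ :=
    mul_le_mul h5 h6 (mul_pos hX0 hlam).le (by positivity)
  have h8 := mul_le_mul_of_nonneg_right h7 hq.le
  have h9 : D₁ ≤ 4 ^ (r - l) * D₁ := le_mul_of_one_le_left hD0.le h4
  have h10 := mul_le_mul_of_nonneg_right h9 hq.le
  have h11 : (Tn + 2) * q ≤ D₁ * q := mul_le_mul_of_nonneg_right hD1 hq.le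
  have h12 : 2 * ε * q ≤ 1 * q := mul_le_mul_of_nonneg_right (by
    have g1 := s.ε3
    have g2 := s.μ0
    linarith only [g1, g2]) hq.le
  have e1 : nX r (fun l x => L l x x) w (X * (lam * q)) l =
      L l w w + 3 ^ (r - 1 - l) * (X * lam) * q := by
    unfold nX aX
    ring
  have e2 : dgj (A₁ * q) (D₁ * q) r l = 4 ^ (r - l) * A₁ * q + 4 * (4 ^ (r - l) * D₁ * q) := by
    unfold dgj
    ring
  rw [e1, e2]
  have hDq : 0 < D₁ * q := mul_pos hD0 hq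
  linarith only [h1.1, h2.2, h8, h10, h11, h12, hbe, hw1, hDq, hq]

/-- **One hop** at the centre `t + x q`, the unit `lam q`. -/
theorem hop_mv {j : ℕ} {ε' al₁ δ₁ : ℝ} (hC : HopC r D K a h j τ d R ε' δ al₁ δ₁)
    (H : GrA r D S S₁ al g₀ P θ P₂ θ₂ Eb e₂ c Pt rt h K₀ g L T Sl κ G S₀ N A V S₂ N' V'
      K' ε q t a e₀ ρ₀ π₀ μ el dl k₀)
    (B : BigN r K a K₀ τM dM fM XG φ X kf ℓ Tn A₁ D₁ Xf K₁ Kc K')
    (s : SmN r kt a h K₀ τM dM fM fm Rm gm δm dm φ lm L₀ n₀ η ev γ₀ s₀ μ₀ e' ms el dl ε)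
    (T : TkB τM dM fM fm Rm gm δm dm f τ R δ d) (hx0 : 0 ≤ x) (hx1 : x ≤ 1)
    (hlm : lm ≤ lam) (hlf : lam ≤ f) {M : ℕ} {W : ℕ → ℝ}
    (w : WinT r N' V' K₀ τ Tn X ms x lam M W) (hb : ∃ j < N', V' j = -Tn)
    (hv : ∀ i < r, ∃ j < N', V' j = -(Tn + (A₁ + 4 * D₁) * 4 ^ (r - i) + 3 * D₁))
    (hK : max D D * max 1 D ≤ K) (Q : QSm a K₀ τM dM fM Tn μ q k₀) :
    HopB S₁ c r K a (t + -Tn * q) (fun l x => L l x x) (γ₀ * q) (s₀ * q)
      (npQ (r + 2) c r (fun l x => L l x x) (t + -Tn * q) (A₁ * q) (D₁ * q)) j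
      (t + (x - τ * lam) * q) (t + x * q) (a * (d / a * (lam * q))) ε' (d / a * (lam * q)) al₁
      δ₁ := by
  have hq := H.rc.q0
  have hlam : 0 < lam := s.lm0.trans_le hlm
  have hlM : lam ≤ fM := hlf.trans T.f2
  have ha := B.ha
  have ha0 : 0 < a := by linarith only [ha]
  have n := prn_mv B s T hx0 hx1 hlm hlf
  have w' := prw_mv hlam w
  have H' := gra_mv H B s hx0 hx1 hlm
  have eb : t + x * q + -((Tn + x) / lam) * (lam * q) = t + -Tn * q := by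
    field_simp
    ring
  have ew : t + x * q + -τ * (lam * q) = t + (x - τ * lam) * q := by ring
  have hR := n.hR
  have hτ := n.hτ
  have hTn1 := n.hTn
  rw [le_div_iff₀ hlam] at hTn1
  have hτl : 0 < τ * lam := mul_pos (hR.trans hτ) hlam
  have hwG : t + (x - τ * lam) * q ∈ G := by
    obtain ⟨j, hj, h1⟩ := w.hWin (M + 1) (by omega)
    have h2 := H.rc.memG.2 j hj
    rw [h1, w.hW1] at h2
    have e1 : t + (x - τ * lam) * q = t + (x + lam * -τ) * q := by ring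
    rw [e1]
    exact h2
  have hbw : t + -Tn * q ≤ t + (x - τ * lam) * q := by
    have := mul_le_mul_of_nonneg_right (show -Tn ≤ x - τ * lam by linarith only [hTn1]) hq.le
    linarith only [this]
  have hw1 : t + (x - τ * lam) * q ≤ t + 1 * q := by
    have := mul_le_mul_of_nonneg_right (show x - τ * lam ≤ 1 by linarith only [hx1, hτl]) hq.le
    linarith only [this]
  have NP := npW_rec H B s hb hv rfl hwG hbw hw1
  have hnX := nX_mv H B s hlm hlM rfl hbw hw1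
  rw [← eb, ← ew] at NP hnX
  have hsg := s.γs
  have hg0 := s.γ0
  have key := hC H' n w' ?_ ?_ NP hK (γ := γ₀ * q) (s := s₀ * q) ?_
    (mul_le_mul_of_nonneg_right hsg.le hq.le) ?_ ?_ hnX ?_
  · rw [eb, ew] at key
    exact key
  · have h1 : ((K₀ + 1) / lam + τ) * (lam * q) = (K₀ + 1 + τ * lam) * q := by
      field_simp
    rw [h1]
    refine le_trans (mul_le_mul_of_nonneg_right ?_ hq.le) Q.q1
    have h2 : τ * lam ≤ (τM + dM + 1) * fM := mul_le_mul (by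
      have h3 := T.τ2
      have h4 := B.dM0
      linarith only [h3, h4]) hlM hlam.le (by
      have h3 := B.τM0
      have h4 := B.dM0
      linarith only [h3, h4])
    linarith only [h2]
  · have h1 : (2 * (a * R) + 4) * (lam * q) = (2 * (a * R) + 4) * lam * q := by ring
    rw [h1]
    refine le_trans (mul_le_mul_of_nonneg_right ?_ hq.le) Q.q2
    have hRM : R ≤ τM := by
      have h3 := T.τ2
      linarith only [h3, hτ]
    have h2 : a * R ≤ a * τM := mul_le_mul_of_nonneg_left hRM ha0.le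
    exact mul_le_mul (by linarith only [h2]) hlM hlam.le (by
      have h3 : 0 < a * τM := mul_pos ha0 B.τM0
      linarith only [h3])
  · have h1 : e' * (lam * q) = e' * lam * q := by ring
    rw [h1]
    refine mul_le_mul_of_nonneg_right ?_ hq.le
    exact (mul_le_mul_of_nonneg_left hlM s.e0.le).trans s.e5
  · have h1 : a * (((Tn + x) / lam - τ) * (lam * q)) + a * R * (lam * q) + s₀ * q + γ₀ * q =
        (a * (Tn + x) - a * ((τ - R) * lam) + s₀ + γ₀) * q := by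
      field_simp
      ring
    rw [h1]
    refine mul_le_mul_of_nonneg_right ?_ hq.le
    have h2 : 0 ≤ a * ((τ - R) * lam) :=
      mul_nonneg ha0.le (mul_nonneg (by linarith only [hτ]) hlam.le)
    have h3 : a * (Tn + x) ≤ a * (Tn + 1) :=
      mul_le_mul_of_nonneg_left (by linarith only [hx1]) ha0.le
    have h4 := B.A1
    have h5 := B.XG0
    have h6 := s.s2
    linarith only [h2, h3, h4, h5, h6, hsg]
  · have h1 := s.s1
    have h2 : 8 * s₀ * q ≤ lam * q := mul_le_mul_of_nonneg_right (h1.trans hlm) hq.le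
    linarith only [h2]
  · have h1 : e' * (lam * q) = e' * lam * q := by ring
    rw [h1]
    have h2 : e' * lam ≤ D₁ / 16 := by
      have h3 := (mul_le_mul_of_nonneg_left hlM s.e0.le).trans s.e6
      have h4 := B.D1
      have h5 := B.Tn2
      have h6 := B.XG0
      linarith only [h3, h4, h5, h6, ha]
    have h3 := mul_le_mul_of_nonneg_right h2 hq.le
    linarith only [h3]

/-- **One tie** at the centre `t + x q`, the unit `lam q`. -/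
theorem tie_mv {i : ℕ} {ε' al₁ δ₁ : ℝ} (hC : TieC r D K a h i τ d R ε' δ al₁ δ₁)
    (H : GrA r D S S₁ al g₀ P θ P₂ θ₂ Eb e₂ c Pt rt h K₀ g L T Sl κ G S₀ N A V S₂ N' V'
      K' ε q t a e₀ ρ₀ π₀ μ el dl k₀)
    (B : BigN r K a K₀ τM dM fM XG φ X kf ℓ Tn A₁ D₁ Xf K₁ Kc K')
    (s : SmN r kt a h K₀ τM dM fM fm Rm gm δm dm φ lm L₀ n₀ η ev γ₀ s₀ μ₀ e' ms el dl ε)
    (T : TkB τM dM fM fm Rm gm δm dm f τ R δ d) (hx0 : 0 ≤ x) (hx1 : x ≤ 1)
    (hlm : lm ≤ lam) (hlf : lam ≤ f) {M : ℕ} {W : ℕ → ℝ}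
    (w : WinT r N' V' K₀ τ Tn X ms x lam M W) (hb : ∃ j < N', V' j = -Tn)
    (hv : ∀ i < r, ∃ j < N', V' j = -(Tn + (A₁ + 4 * D₁) * 4 ^ (r - i) + 3 * D₁))
    (hK : max D D * max 1 D = K) (Q : QSm a K₀ τM dM fM Tn μ q k₀) (hD : 1 ≤ D) (hh : 0 < h)
    (hμ : μ / 2 ≤ t + -Tn * q)
    (hFr : FrH K S₁ c L a e₀ ρ₀ μ (γ₀ * q) (s₀ * q) (A₁ * q) (D₁ * q) (t + -Tn * q)
      (t + (x - τ * lam) * q) (t + x * q) i d (lam * q) δ₁) :
    TieB S₁ c r K a (t + -Tn * q) (fun l x => L l x x) (γ₀ * q) (s₀ * q)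
      (npQ (r + 2) c r (fun l x => L l x x) (t + -Tn * q) (A₁ * q) (D₁ * q)) i
      (t + (x - τ * lam) * q) (t + x * q) (a * (d / a * (lam * q))) ε' (d / a * (lam * q)) al₁
      δ₁ := by
  have hq := H.rc.q0
  have hlam : 0 < lam := s.lm0.trans_le hlm
  have hlM : lam ≤ fM := hlf.trans T.f2
  have ha := B.ha
  have ha0 : 0 < a := by linarith only [ha]
  have n := prn_mv B s T hx0 hx1 hlm hlf
  have w' := prw_mv hlam w
  have H' := gra_mv H B s hx0 hx1 hlm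
  have eb : t + x * q + -((Tn + x) / lam) * (lam * q) = t + -Tn * q := by
    field_simp
    ring
  have ew : t + x * q + -τ * (lam * q) = t + (x - τ * lam) * q := by ring
  have hR := n.hR
  have hτ := n.hτ
  have hTn1 := n.hTn
  rw [le_div_iff₀ hlam] at hTn1
  have hτl : 0 < τ * lam := mul_pos (hR.trans hτ) hlam
  have hwG : t + (x - τ * lam) * q ∈ G := by
    obtain ⟨j, hj, h1⟩ := w.hWin (M + 1) (by omega)
    have h2 := H.rc.memG.2 j hj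
    rw [h1, w.hW1] at h2
    have e1 : t + (x - τ * lam) * q = t + (x + lam * -τ) * q := by ring
    rw [e1]
    exact h2
  have hbw : t + -Tn * q ≤ t + (x - τ * lam) * q := by
    have := mul_le_mul_of_nonneg_right (show -Tn ≤ x - τ * lam by linarith only [hTn1]) hq.le
    linarith only [this]
  have hw1 : t + (x - τ * lam) * q ≤ t + 1 * q := by
    have := mul_le_mul_of_nonneg_right (show x - τ * lam ≤ 1 by linarith only [hx1, hτl]) hq.le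
    linarith only [this]
  have NP := npW_rec H B s hb hv rfl hwG hbw hw1
  have hnX := nX_mv H B s hlm hlM rfl hbw hw1
  have hd0 : 0 < d := s.dm0.trans_le T.d1
  have hTn0 : 0 < Tn := by
    have h1 := B.Tn2
    have h2 := B.XG0
    linarith only [h1, h2, ha]
  rw [← eb, ← ew] at NP hnX hFr
  rw [← eb] at hμ
  have hsg := s.γs
  have hg0 := s.γ0
  have key := hC H' n w' ?_ ?_ NP hK (γ := γ₀ * q) (s := s₀ * q) ?_
    (mul_le_mul_of_nonneg_right hsg.le hq.le) ?_ ?_ hnX ?_ hD hμ ?_ ?_ ?_ hFr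
  · rw [eb, ew] at key
    exact key
  · have h1 : ((K₀ + 1) / lam + τ + d + 1) * (lam * q) = (K₀ + 1 + (τ + d + 1) * lam) * q := by
      field_simp
      ring
    rw [h1]
    refine le_trans (mul_le_mul_of_nonneg_right ?_ hq.le) Q.q1
    have h2 : (τ + d + 1) * lam ≤ (τM + dM + 1) * fM := mul_le_mul (by
      have h3 := T.τ2
      have h4 := T.d2
      linarith only [h3, h4]) hlM hlam.le (by
      have h3 := B.τM0
      have h4 := B.dM0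
      linarith only [h3, h4])
    linarith only [h2]
  · have h1 : (2 * (a * R) + 4) * (lam * q) = (2 * (a * R) + 4) * lam * q := by ring
    rw [h1]
    refine le_trans (mul_le_mul_of_nonneg_right ?_ hq.le) Q.q2
    have hRM : R ≤ τM := by
      have h3 := T.τ2
      linarith only [h3, hτ]
    have h2 : a * R ≤ a * τM := mul_le_mul_of_nonneg_left hRM ha0.le
    exact mul_le_mul (by linarith only [h2]) hlM hlam.le (by
      have h3 : 0 < a * τM := mul_pos ha0 B.τM0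
      linarith only [h3])
  · have h1 : e' * (lam * q) = e' * lam * q := by ring
    rw [h1]
    refine mul_le_mul_of_nonneg_right ?_ hq.le
    exact (mul_le_mul_of_nonneg_left hlM s.e0.le).trans s.e5
  · have h1 : a * (((Tn + x) / lam - τ) * (lam * q)) + a * R * (lam * q) + s₀ * q + γ₀ * q =
        (a * (Tn + x) - a * ((τ - R) * lam) + s₀ + γ₀) * q := by
      field_simp
      ring
    rw [h1]
    refine mul_le_mul_of_nonneg_right ?_ hq.le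
    have h2 : 0 ≤ a * ((τ - R) * lam) :=
      mul_nonneg ha0.le (mul_nonneg (by linarith only [hτ]) hlam.le)
    have h3 : a * (Tn + x) ≤ a * (Tn + 1) :=
      mul_le_mul_of_nonneg_left (by linarith only [hx1]) ha0.le
    have h4 := B.A1
    have h5 := B.XG0
    have h6 := s.s2
    linarith only [h2, h3, h4, h5, h6, hsg]
  · have h1 := s.s1
    have h2 : 8 * s₀ * q ≤ lam * q := mul_le_mul_of_nonneg_right (h1.trans hlm) hq.le
    linarith only [h2]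
  · have h1 : e' * (lam * q) = e' * lam * q := by ring
    rw [h1]
    have h2 : e' * lam ≤ D₁ / 16 := by
      have h3 := (mul_le_mul_of_nonneg_left hlM s.e0.le).trans s.e6
      have h4 := B.D1
      have h5 := B.Tn2
      have h6 := B.XG0
      linarith only [h3, h4, h5, h6, ha]
    have h3 := mul_le_mul_of_nonneg_right h2 hq.le
    linarith only [h3]
  · have h1 : (2 * a * ((Tn + x) / lam + 1) + d + 2) * (lam * q) =
        (2 * (a * (Tn + x + lam)) + (d + 2) * lam) * q := by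
      field_simp
      ring
    rw [h1]
    refine le_trans (mul_le_mul_of_nonneg_right ?_ hq.le) Q.q3
    have h2 : a * (Tn + x + lam) ≤ a * (Tn + 1 + fM) :=
      mul_le_mul_of_nonneg_left (by linarith only [hx1, hlM]) ha0.le
    have h3 : (d + 2) * lam ≤ (dM + 2) * fM := mul_le_mul (by
      have h4 := T.d2
      linarith only [h4]) hlM hlam.le (by
      have h4 := B.dM0
      linarith only [h4])
    linarith only [h2, h3]
  · have h1 : h * d / 32 * (lam * q) = h * d / 32 * lam * q := by ring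
    rw [h1]
    refine mul_le_mul_of_nonneg_right (s.t1.trans ?_) hq.le
    have h2 : h * dm / 32 ≤ h * d / 32 := by
      have := mul_le_mul_of_nonneg_left T.d1 hh.le
      linarith only [this]
    exact mul_le_mul h2 hlm s.lm0.le (by positivity)
  · have h1 := s.t2
    have h2 : (K₀ + 1) / lam ≤ (K₀ + 1) / lm :=
      div_le_div_of_nonneg_left (by linarith only [B.hK₀]) s.lm0 hlm
    have h3 : el * (2 * ((K₀ + 1) / lam + τ + d + 1)) ≤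
        el * (2 * ((K₀ + 1) / lm + τM + dM + 1)) := mul_le_mul_of_nonneg_left (by
      have h4 := T.τ2
      have h5 := T.d2
      linarith only [h2, h4, h5]) s.el0.le
    have h4 := mul_le_mul_of_nonneg_left T.d1 hh.le
    linarith only [h1, h3, h4]

end

end Pool.AB18
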