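import Pool.Agent.H18.AB.Hor
import Pool.Agent.H18.AB.Gra

/-!
# The numbers of a step at another centre and another scale

`BigN`, `SmN`: the numbers. `TkB`: the bounds of a step. `WinT`: its windows. `step_mv`: the record, the
numbers and the windows of the step. `npW_rec`: the near path.
-/

set_option autoImplicit false

namespace Pool.AB18

open Finset Real MvPolynomial
open Pool.Agent.H49.Ent Pool.Agent.H32.Dense Pool.STK Pool.KA Pool.KSAT Pool.K2S Pool.PB Pool.GEN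
open Pool.S6C Pool.RCD Pool.LA91 Pool.OWN68 Pool.AJW Pool.AJX Pool.CHT Pool.PKG Pool.PN18
open Pool.LPK12 Pool.ALT
open Pool.TE46 Pool.AB63 Pool.AB91 Pool.RWB12
open Pool.RJ28 (dgj dgj_lt dgj_st dgj_le)

/-- **The large numbers.** `τM`, `dM`, `fM`: bounds of the steps; `X`, `kf`, `ℓ`: the digits of the
pairs; `Tn`: the early window; `A₁`, `D₁`: the near path; `Xf`: the digits of the record; `K₁`: the
interval where the levels are linear; `Kc`: the interval of the steps. -/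
structure BigN (r K : ℕ) (a K₀ τM dM fM XG φ X kf ℓ Tn A₁ D₁ Xf K₁ Kc K' : ℝ) : Prop where
  ha : 1 < a
  hK₀ : 0 < K₀
  τM0 : 0 < τM
  dM0 : 0 < dM
  fM0 : 0 < fM
  XG0 : 0 ≤ XG
  φ0 : 0 < φ
  φe : φ * (32 * (r + 1)) = 1
  X1 : 12 * τM + 2 * (a * τM) + 4 ≤ X
  kf1 : 3 ^ r * X + a * τM + 2 ≤ kf
  ℓ1 : kf + 2 * τM + 1 ≤ ℓ
  Tn1 : (pzD τM a + τM) * fM ≤ Tn
  Tn2 : a + XG + 3 ≤ Tn
  D1 : Tn + 2 ≤ D₁
  A1 : a * (Tn + 1) + XG + 3 ≤ A₁
  A2 : (K + 2) * (Tn + 1) ≤ A₁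
  A3 : X * fM ≤ A₁
  Xf1 : (A₁ + 4 * D₁) * 4 ^ r + 2 * D₁ ≤ Xf
  Xf2 : 12 * Tn + a * Tn + Tn + a + 2 ≤ Xf
  K₁1 : Tn + (A₁ + 4 * D₁) * 4 ^ r + D₁ + 1 ≤ K₁
  Kc1 : (ℓ + 1) * fM ≤ Kc
  Kc2 : (τM + 3 ^ r * X) * fM ≤ Kc
  Kc3 : (2 * (a * τM) + 2) * fM ≤ Kc
  Kc4 : Tn + 1 + K₀ + 1 + fM ≤ Kc
  Kc5 : (τM + dM + 1) * fM ≤ Kc
  K'1 : Kc + a + 1 ≤ K'
  K'2 : K₁ + 1 ≤ K'
  K'3 : 3 * ((A₁ + 4 * D₁) * 4 ^ r) + 6 * D₁ + Tn + 2 ≤ K'
  K'4 : 3 ^ r * Xf + a + 2 * Tn + 3 ≤ K'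

/-- **The small numbers.** `fm`, `Rm`, `gm`, `δm`, `dm`: bounds of the steps; `lm`: the smallest unit. -/
structure SmN (r kt : ℕ) (a h K₀ τM dM fM fm Rm gm δm dm φ lm : ℝ) (L n : ℕ)
    (η ev γ₀ s₀ μ₀ e' ms el dl ε : ℝ) : Prop where
  fm0 : 0 < fm
  Rm0 : 0 < Rm
  gm0 : 0 < gm
  δm0 : 0 < δm
  dm0 : 0 < dm
  lm0 : 0 < lm
  lmn : lm * L ^ n ≤ fm
  γ0 : 0 < γ₀
  γs : γ₀ < s₀
  s1 : 8 * s₀ ≤ lm
  s2 : s₀ ≤ 1 / 2
  e0 : 0 < e'
  e1 : e' ≤ φ / 8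
  e2 : e' ≤ 1 / 64
  e3 : 2 * e' ≤ gm
  e4 : (8 * r + 49) * e' ≤ δm * Rm / 4
  e5 : e' * fM ≤ γ₀
  e6 : e' * fM ≤ 1 / 16
  ms0 : 0 < ms
  ms1 : a * ms ≤ e' / 32
  el0 : 0 < el
  el1 : el * (2 * ((K₀ + 1) / lm + τM)) ≤ δm * Rm / 4
  dl0 : 0 < dl
  dl1 : dl ≤ δm / 4
  ε0 : 0 < ε
  ε1 : 256 * ε ≤ e' * lm
  ε2 : 2 * ε ≤ φ
  ε3 : 2 * ε + μ₀ ≤ 1 / 4
  μ0 : 0 < μ₀
  box : 12 * ((L + 1) * (kt + 1)) * (s₀ + 6 * ε + a * μ₀ + γ₀) ≤ η / L ^ n
  ev0 : 0 < ev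
  ev1 : ev + 2 * ε ≤ η / L ^ n
  t1 : s₀ ≤ h * dm / 32 * lm
  t2 : el * (2 * ((K₀ + 1) / lm + τM + dM + 1)) ≤ h * dm / 32

/-- **The bounds of a step**: the unit `f / L ^ k`, `τ`, `R`, `δ`, `d`. -/
structure TkB (τM dM fM fm Rm gm δm dm f τ R δ d : ℝ) : Prop where
  f1 : fm ≤ f
  f2 : f ≤ fM
  τ2 : τ ≤ τM
  R1 : Rm ≤ R
  g1 : gm ≤ τ - R
  δ1 : δm ≤ δ
  d1 : dm ≤ d
  d2 : d ≤ dM

/-- **The windows of a step**: the centre `t + x q`, the unit `lam q`. -/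
structure WinT (r N' : ℕ) (V' : ℕ → ℝ) (K₀ τ Tn X ms x lam : ℝ) (M : ℕ) (W : ℕ → ℝ) : Prop where
  hW0 : W 0 = -((Tn + x) / lam)
  hW1 : W (M + 1) = -τ
  hW2 : W (2 * M + 1 + 1) = 0
  hWm : ∀ k, W k ≤ W (k + 1)
  hWs : ∀ k, W (k + 1) - W k ≤ ms
  hWb : ∀ k ≤ 2 * M + 1 + 1, -((Tn + x) / lam) ≤ W k ∧ W k ≤ 0
  hWy : ∀ y, -τ ≤ y → y ≤ 0 → ∃ k ≤ 2 * M + 1 + 1, |W k - y| ≤ ms
  hWin : ∀ k ≤ 2 * M + 1 + 1, ∃ j < N', V' j = x + lam * W k
  hWx : ∃ j < N', V' j = x + lam * (-((K₀ + 1) / lam + 1))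
  hWj : ∀ k ≤ r, ∃ j < N', V' j = x + lam * jfV r (-τ) X k

theorem pzD_mono {x y b : ℝ} (hb : 0 ≤ b) (h : x ≤ y) : pzD x b ≤ pzD y b := by
  unfold pzD
  have h0 := Nat.lt_floor_add_one b
  refine div_le_div_of_nonneg_right ?_ (by linarith only [h0])
  have := mul_le_mul_of_nonneg_right h hb
  linarith only [this]

theorem pzD_pos {x b : ℝ} (hx : 0 ≤ x) (hb : 0 ≤ b) : 0 < pzD x b := by
  unfold pzD
  have h0 := Nat.lt_floor_add_one b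
  have h1 : 0 < (⌊b⌋₊ : ℝ) + 1 - b := by linarith only [h0]
  positivity

section

variable {r D K kt : ℕ} {a h K₀ τM dM fM XG φ X kf ℓ Tn A₁ D₁ Xf K₁ Kc K' : ℝ}
  {fm Rm gm δm dm lm : ℝ} {L₀ n₀ : ℕ} {η ev γ₀ s₀ μ₀ e' ms el dl ε f τ R δ d x lam : ℝ}

/-- **The numbers of a step.** -/
theorem prn_mv (B : BigN r K a K₀ τM dM fM XG φ X kf ℓ Tn A₁ D₁ Xf K₁ Kc K')
    (s : SmN r kt a h K₀ τM dM fM fm Rm gm δm dm φ lm L₀ n₀ η ev γ₀ s₀ μ₀ e' ms el dl ε)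
    (T : TkB τM dM fM fm Rm gm δm dm f τ R δ d) (hx0 : 0 ≤ x) (hx1 : x ≤ 1)
    (hlm : lm ≤ lam) (hlf : lam ≤ f) :
    PrN r a ((K₀ + 1) / lam) (Kc / lam) (e' / 128) δ el dl R τ ((Tn + x) / lam) X φ kf ℓ e' ms := by
  have hlam : 0 < lam := s.lm0.trans_le hlm
  have hlM : lam ≤ fM := hlf.trans T.f2
  have ha := B.ha
  have ha0 : 0 < a := by linarith only [ha]
  have hR : 0 < R := s.Rm0.trans_le T.R1
  have hg0 := s.gm0
  have hg := T.g1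
  have hτ2 := T.τ2
  have hRτ : R < τ := by linarith only [hg0, hg]
  have hτ0 : 0 < τ := hR.trans hRτ
  have hRM : R ≤ τM := by linarith only [hRτ, hτ2]
  have haR : a * R ≤ a * τM := mul_le_mul_of_nonneg_left hRM ha0.le
  have haτ : a * τ ≤ a * τM := mul_le_mul_of_nonneg_left hτ2 ha0.le
  have haR0 : 0 < a * R := mul_pos ha0 hR
  have hr0 : (0 : ℝ) ≤ r := Nat.cast_nonneg r
  have hφ0 := B.φ0
  have hφe := B.φe
  have hφr : φ * r * 32 + φ * 32 = 1 := by linarith only [hφe]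
  have hφr0 : 0 ≤ φ * r := mul_nonneg hφ0.le hr0
  have hX1 := B.X1
  have hX0 : 0 < X := by linarith only [hX1, haR, haR0, hτ0, hτ2]
  have h3X : 0 < 3 ^ r * X := by positivity
  have h3X1 : X ≤ 3 ^ r * X := le_mul_of_one_le_left hX0.le (one_le_pow₀ (by norm_num))
  have hkf1 := B.kf1
  have hℓ1 := B.ℓ1
  have hτM0 := B.τM0
  have hpz0 : 0 < pzD τM a := pzD_pos hτM0.le ha0.le
  have hδR : δm * Rm ≤ δ * R := mul_le_mul T.δ1 T.R1 s.Rm0.le (s.δm0.le.trans T.δ1)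
  have Kc1 := B.Kc1
  have Kc2 := B.Kc2
  have Kc3 := B.Kc3
  have Kc4 := B.Kc4
  have sc : ∀ y z : ℝ, 0 ≤ y → y * fM ≤ z → y ≤ z / lam := fun y z hy hz => by
    rw [le_div_iff₀ hlam]
    exact (mul_le_mul_of_nonneg_left hlM hy).trans hz
  refine
    { hR := hR
      hτ := hRτ
      hTn := ?_
      hTn1 := ?_
      hms0 := s.ms0
      hX1 := by linarith only [hX1, haR, haR0, hτ2]
      hX2 := by linarith only [hX1, haR, haR0, hτM0]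
      hX3 := by linarith only [hX1, haR, haR0, hτM0, hφr]
      hX4 := by linarith only [hX1, haR, haR0, hτM0, hφr, hτ2, hφ0, hφr0]
      hkf1 := by linarith only [hkf1, haR, haR0]
      hkf2 := by linarith only [hkf1, haR, haR0, h3X, hφr, hφ0, hφr0]
      hℓ1 := by linarith only [hℓ1, hτ2, hτM0]
      hℓ2 := by linarith only [hℓ1, hkf1, haR, haR0, hRM, hτM0]
      hℓ3 := by linarith only [hℓ1, hkf1, haR, haR0, hRM, hτM0, h3X]
      hK1 := ?_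
      hK2 := ?_
      hK3 := ?_
      hK5 := ?_
      hφ0 := hφ0
      hφ1 := by linarith only [hφr, hφr0]
      hεφ := by
        have h1 := s.e1
        linarith only [h1, hφ0]
      he' := s.e0
      he1 := s.e1
      he2 := s.e2
      hεe := by linarith only []
      hbτ := ?_
      hams := s.ms1
      hδ0 := s.δm0.trans_le T.δ1
      hδ1 := by
        have h1 := s.e4
        linarith only [h1, hδR]
      hδ2 := ?_
      hδ3 := by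
        have h1 := s.dl1
        have h2 := T.δ1
        linarith only [h1, h2] }
  · refine sc τ _ hτ0.le ?_
    have h1 : τ * fM ≤ (pzD τM a + τM) * fM :=
      mul_le_mul_of_nonneg_right (by linarith only [hpz0, hτ2]) B.fM0.le
    linarith only [h1, B.Tn1, hx0]
  · refine sc _ _ (by linarith only [pzD_pos hR.le ha0.le, hτ0]) ?_
    have h1 : (pzD R a + τ) * fM ≤ (pzD τM a + τM) * fM :=
      mul_le_mul_of_nonneg_right (by linarith only [pzD_mono ha0.le hRM, hτ2]) B.fM0.le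
    linarith only [h1, B.Tn1, hx0]
  · exact sc _ _ (by linarith only [hℓ1, hkf1, haR, haR0, hτM0, h3X]) Kc1
  · refine sc _ _ (by linarith only [hτ0, h3X]) (le_trans ?_ Kc2)
    exact mul_le_mul_of_nonneg_right (by linarith only [hτ2]) B.fM0.le
  · have h0 : 0 < a * τ := mul_pos ha0 hτ0
    refine sc _ _ (by linarith only [h0, haR0]) (le_trans ?_ Kc3)
    exact mul_le_mul_of_nonneg_right (by linarith only [haR, haτ]) B.fM0.le
  · rw [le_div_iff₀ hlam, add_mul, add_mul, div_mul_cancel₀ _ hlam.ne',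
      div_mul_cancel₀ _ hlam.ne', one_mul]
    linarith only [Kc4, hx1, hlM]
  · have h1 := s.e3
    have h2 : 1 * (τ - R) ≤ a * (τ - R) :=
      mul_le_mul_of_nonneg_right ha.le (by linarith only [hRτ])
    linarith only [h1, h2, hg]
  · have h1 := s.el1
    have h2 : (K₀ + 1) / lam ≤ (K₀ + 1) / lm :=
      div_le_div_of_nonneg_left (by linarith only [B.hK₀]) s.lm0 hlm
    have h3 : el * (2 * ((K₀ + 1) / lam + τ)) ≤ el * (2 * ((K₀ + 1) / lm + τM)) :=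
      mul_le_mul_of_nonneg_left (by linarith only [h2, hτ2]) s.el0.le
    linarith only [h1, h3, hδR]

/-- **The windows of a step**, in the units of the step. -/
theorem prw_mv {N' : ℕ} {V' : ℕ → ℝ} {M : ℕ} {W : ℕ → ℝ} (hlam : 0 < lam)
    (w : WinT r N' V' K₀ τ Tn X ms x lam M W) :
    PrW r N' (fun k => (V' k - x) / lam) ((K₀ + 1) / lam) τ ((Tn + x) / lam) X ms M W := by
  have key : ∀ z : ℝ, (∃ j < N', V' j = x + lam * z) → ∃ j < N', (V' j - x) / lam = z := by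
    rintro z ⟨j, hj, h⟩
    refine ⟨j, hj, ?_⟩
    rw [h]
    field_simp
    ring
  exact
    { hW0 := w.hW0
      hW1 := w.hW1
      hW2 := w.hW2
      hWm := w.hWm
      hWs := w.hWs
      hWb := w.hWb
      hWy := w.hWy
      hWin := fun k hk => key _ (w.hWin k hk)
      hWx := by
        obtain ⟨j, hj, h⟩ := key _ w.hWx
        exact ⟨j, hj, h⟩
      hWj := fun k hk => key _ (w.hWj k hk) }

variable {S S₁ : PCl (r + 2)} {al : ℝ} {g₀ : ℝ → ℝ}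
    {P : List (Fin (r + 2)) × Fin (r + 2) → ℝ → ℝ → ℝ} {θ : ℝ}
    {P₂ : ℕ → List (Fin (r + 2)) × Fin (r + 2) → ℝ → ℝ → ℝ} {θ₂ Eb e₂ : ℕ → ℝ}
    {c : ℕ → Fin (r + 2)} {Pt : ℝ → ℝ → ℝ} {rt : ℝ → ℝ} {g : ℝ} {L T : ℕ → ℝ → ℝ → ℝ}
    {Sl : ℕ → ℝ} {κ : ℕ → Kg} {G : Set ℝ} {S₀ N : ℕ} {A V : ℕ → ℝ} {S₂ N' : ℕ} {V' : ℕ → ℝ}
    {q t e₀ ρ₀ π₀ μ : ℝ} {k₀ : ℕ}

/-- **The record of a step.** -/
theorem gra_mv (H : GrA r D S S₁ al g₀ P θ P₂ θ₂ Eb e₂ c Pt rt h K₀ g L T Sl κ G S₀ N A V S₂ N' V'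
      K' ε q t a e₀ ρ₀ π₀ μ el dl k₀)
    (B : BigN r K a K₀ τM dM fM XG φ X kf ℓ Tn A₁ D₁ Xf K₁ Kc K')
    (s : SmN r kt a h K₀ τM dM fM fm Rm gm δm dm φ lm L₀ n₀ η ev γ₀ s₀ μ₀ e' ms el dl ε)
    (hx0 : 0 ≤ x) (hx1 : x ≤ 1) (hlm : lm ≤ lam) :
    GrA r D S S₁ al g₀ P θ P₂ θ₂ Eb e₂ c Pt rt h ((K₀ + 1) / lam) g L T Sl κ G S₀ 0 A V S₂ N'
      (fun k => (V' k - x) / lam) (Kc / lam) (e' / 128) (lam * q) (t + x * q) a e₀ ρ₀ π₀ μ el dl
      k₀ := by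
  have hlam : 0 < lam := s.lm0.trans_le hlm
  have ha0 : 0 < a := by linarith only [B.ha]
  have hK₀ := B.hK₀
  have hf0 := B.fM0
  have hKc : 0 ≤ Kc := by
    have h1 := B.Kc4
    have h2 := B.Tn2
    have h3 := B.XG0
    linarith only [h1, h2, h3, ha0, hK₀, hf0]
  have he0 := s.e0
  have hε1 := s.ε1
  have hεs : ε ≤ 1 := by
    have h3 := s.ε3
    have h4 := s.μ0
    linarith only [h3, h4]
  refine H.mv hlam (div_nonneg hKc hlam.le) (by positivity) ?_ ?_ ?_ ?_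
  · rw [div_mul_cancel₀ _ hlam.ne', abs_of_nonneg hx0]
    have h1 := B.K'1
    have h2 : a * x ≤ a * 1 := mul_le_mul_of_nonneg_left hx1 ha0.le
    linarith only [h1, h2, hεs]
  · rw [div_mul_cancel₀ _ hlam.ne', abs_of_nonneg hx0]
    linarith only [hx1]
  · have h1 : e' * lm ≤ e' * lam := mul_le_mul_of_nonneg_left hlm he0.le
    linarith only [h1, hε1]
  · intro k hk
    refine ⟨k, hk, ?_⟩
    field_simp
    ring

/-- **The near path** at a record. -/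
theorem npW_rec (H : GrA r D S S₁ al g₀ P θ P₂ θ₂ Eb e₂ c Pt rt h K₀ g L T Sl κ G S₀ N A V S₂ N' V'
      K' ε q t a e₀ ρ₀ π₀ μ el dl k₀)
    (B : BigN r K a K₀ τM dM fM XG φ X kf ℓ Tn A₁ D₁ Xf K₁ Kc K')
    (s : SmN r kt a h K₀ τM dM fM fm Rm gm δm dm φ lm L₀ n₀ η ev γ₀ s₀ μ₀ e' ms el dl ε)
    (hb : ∃ j < N', V' j = -Tn)
    (hv : ∀ i < r, ∃ j < N', V' j = -(Tn + (A₁ + 4 * D₁) * 4 ^ (r - i) + 3 * D₁))
    {w b : ℝ} (hbe : b = t + -Tn * q) (hwG : w ∈ G) (hbw : b ≤ w) (hw1 : w ≤ t + 1 * q) :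
    NpW S₁ c r (fun l x => L l x x) G b w (A₁ * q) (D₁ * q) (2 * ε * q)
      (fun i => t + -(Tn + (A₁ + 4 * D₁) * 4 ^ (r - i) + 3 * D₁) * q) := by
  have hq := H.rc.q0
  have ha := B.ha
  have hTn2 := B.Tn2
  have hXG := B.XG0
  have hTn0 : 0 < Tn := by linarith only [hTn2, hXG, ha]
  have hD1 := B.D1
  have hD0 : 0 < D₁ := by linarith only [hD1, hTn0]
  have hA1 := B.A1
  have haT : 0 < a * (Tn + 1) := by
    have : 0 < Tn + 1 := by linarith only [hTn0]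
    exact mul_pos (by linarith only [ha]) this
  have hA0 : 0 < A₁ := by linarith only [hA1, haT, hXG]
  have hAD : 0 < A₁ + 4 * D₁ := by linarith only [hA0, hD0]
  have hK3 := B.K'3
  have hK4 := B.K'4
  have p4 : ∀ i : ℕ, (4 : ℝ) ^ (r - i) ≤ 4 ^ r := fun i =>
    pow_le_pow_right₀ (by norm_num) (Nat.sub_le _ _)
  have p4' : ∀ i : ℕ, (1 : ℝ) ≤ 4 ^ (r - i) := fun i => one_le_pow₀ (by norm_num)
  have hAr : ∀ i : ℕ, (A₁ + 4 * D₁) * 4 ^ (r - i) ≤ (A₁ + 4 * D₁) * 4 ^ r := fun i =>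
    mul_le_mul_of_nonneg_left (p4 i) hAD.le
  have hAr0 : ∀ i : ℕ, 0 < (A₁ + 4 * D₁) * 4 ^ (r - i) := fun i => by positivity
  have hAr1 : 0 < (A₁ + 4 * D₁) * 4 ^ r := by positivity
  have hin : ∀ z : ℝ, (∃ j < N', V' j = z) → t + z * q ∈ G := by
    rintro z ⟨j, hj, h⟩
    rw [← h]
    exact H.rc.memG.2 j hj
  have ht0 := H.rc.t0
  have ht1 := H.rc.t1
  have hTK : Tn + 1 ≤ K' := by linarith only [hK3, hAr1, hD0]
  have hTq : (Tn + 1) * q ≤ K' * q := mul_le_mul_of_nonneg_right hTK hq.le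
  have hTq0 : 0 < Tn * q := mul_pos hTn0 hq
  have hab : |b - t| ≤ K' * q := by
    rw [hbe, abs_le]
    exact ⟨by linarith only [hTq, hq], by linarith only [hTq, hTq0, hq]⟩
  have haw : |w - t| ≤ K' * q := by
    rw [abs_le]
    exact ⟨by linarith only [hbw, hbe, hTq, hq], by linarith only [hw1, hTq, hTq0, hq]⟩
  have hchr := Pool.LST30.chG_take (r' := r) (Pool.LA91.ChG.mk fun w hw => by
    obtain ⟨rd, h1, h2⟩ := H.hcu w hw
    exact ⟨_, rd, h1, h2.sub H.hs⟩ : ChG S₁ c (r + 1) (fun l x => L l x x) G) (Nat.le_succ r)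
  have lin : ∀ i < r, ∀ x y : ℝ, |x - t| ≤ K' * q → |y - t| ≤ K' * q →
      |L i y y - L i x x - (y - x)| ≤ 2 * ε * q := by
    intro i hi x y hx hy
    have h0 := H.rc.kd i (by omega)
    rw [H.hκ i hi] at h0
    have h3 : Sl i = 1 := h0
    have h1 := abs_le.1 (H.rc.dL i (by omega) x hx)
    have h2 := abs_le.1 (H.rc.dL i (by omega) y hy)
    rw [h3] at h1 h2
    rw [abs_le]
    exact ⟨by linarith only [h1.2, h2.1], by linarith only [h1.1, h2.2]⟩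
  have hv1 : ∀ i : ℕ, Tn + (A₁ + 4 * D₁) * 4 ^ (r - i) + 3 * D₁ ≤ K' := fun i => by
    linarith only [hK3, hAr i, hAr1, hD0]
  have hv2 : ∀ i : ℕ, (Tn + (A₁ + 4 * D₁) * 4 ^ (r - i) + 3 * D₁) * q ≤ K' * q := fun i =>
    mul_le_mul_of_nonneg_right (hv1 i) hq.le
  have hv3 : ∀ i : ℕ, 0 < (Tn + (A₁ + 4 * D₁) * 4 ^ (r - i) + 3 * D₁) * q := fun i =>
    mul_pos (by linarith only [hTn0, hAr0 i, hD0]) hq
  exact
    { ch := hchr
      bG := by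
        rw [hbe]
        exact hin _ hb
      wG := hwG
      bw := hbw
      wD := by
        have h1 : (Tn + 2) * q ≤ D₁ * q := mul_le_mul_of_nonneg_right hD1 hq.le
        linarith only [hw1, hbe, h1, hq]
      A0 := (mul_pos hA0 hq).le
      D0 := mul_pos hD0 hq
      φD := by
        have h1 : 2 * ε ≤ D₁ / 2 := by
          have h2 := s.ε3
          have h3 := s.μ0
          linarith only [h2, h3, hD1, hTn0]
        have h2 := mul_le_mul_of_nonneg_right h1 hq.le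
        linarith only [h2]
      v := fun i hi => ⟨hin _ (hv i hi), by
          show 0 ≤ t + -(Tn + (A₁ + 4 * D₁) * 4 ^ (r - i) + 3 * D₁) * q
          linarith only [ht0, hv2 i], by
          rw [hbe]
          unfold dgj
          ring, by
          have h1 := lin i hi (t + -(Tn + (A₁ + 4 * D₁) * 4 ^ (r - i) + 3 * D₁) * q) b (by
            rw [abs_le]
            exact ⟨by linarith only [hv2 i], by linarith only [hv2 i, hv3 i]⟩) hab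
          exact h1⟩
      b1 := by
        have h1 := mul_le_mul_of_nonneg_right hK3 hq.le
        have e1 : dgj (A₁ * q) (D₁ * q) r 0 = (A₁ + 4 * D₁) * 4 ^ r * q := by
          unfold dgj
          rw [Nat.sub_zero]
          ring
        rw [e1, hbe]
        linarith only [h1, ht1, hTq0, hq]
      s1 := fun i hi => lin i hi b w hab haw }

end

end Pool.AB18
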