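import Pool.Agent.H18.AB.Grd
import Pool.Agent.H18.AB.Ddl

/-!
# The rate of the place is small at a record

`Plan`: the constants: the hops, the ties, the sub-boxes. `core_rec`: the rate of the order `1` is
small.
-/

set_option autoImplicit false

namespace Pool.AB18

open Finset Real MvPolynomial
open Pool.Agent.H49.Ent Pool.Agent.H32.Dense Pool.STK Pool.KA Pool.KSAT Pool.K2S Pool.PB Pool.GEN
open Pool.S6C Pool.RCD Pool.LA91 Pool.OWN68 Pool.AJW Pool.AJX Pool.CHT Pool.PKG Pool.PN18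
open Pool.LPK12 Pool.ALT
open Pool.TE46 Pool.AB63 Pool.AB91 Pool.RWB12 Pool.AB62
open Pool.RJ28 (dgj dgj_lt dgj_st dgj_le)
open Pool.FLN19 (AlvQ)
open Pool.LP30 (paQ)

/-- **The constants.** The steps: the unit `E / L ^ k` for the orders `j ≤ kt`; if `a = kt + 1`, the
units `CF E / L ^ k`, `εT CF E / L ^ k` for the order `a`. -/
structure Plan (r D K kt m0 E M CF L n n' β : ℕ) (a h κ : ℝ) (εh δh : ℕ → ℝ) (dh : ℕ → ℝ → ℝ)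
    (εt δt : ℕ → ℝ) (dt : ℕ → ℝ → ℝ) (εT δT εH δH : ℝ) (dH : ℝ → ℝ) (alf : ℕ → ℝ)
    (alm dtm tol tol' η τM dM fM fm Rm gm δm dm : ℝ) : Prop where
  kt1 : 1 ≤ kt
  hkt : (kt : ℝ) < a
  hka : a ≤ kt + 1
  hE : 1 ≤ E
  hopC : ∀ j, 1 ≤ j → j ≤ kt → ∀ al : ℝ, 0 < al →
    HopC r D K a h j m0 (a - j) ((a - j) * (m0 + 1) / a) (εh j) (δh j) al (dh j al)
  tieC : ∀ i, 1 ≤ i → i ≤ kt →
    TieC r D K a h i m0 (a - i) ((a - i) * (m0 + 1) / a) (εt i) (δt i) (alf i) (dt i (alf i))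
  tieT : a = kt + 1 → TieC r D K a h (kt + 1) 2 1 (1 / a) εT δT alm dtm
  hopT : a = kt + 1 → ∀ al : ℝ, 0 < al →
    HopC r D K a h (kt + 1) (2 / εT) 1 (1 / a) εH δH al (dH al)
  boxM : BoxM K kt m0 E M a εh dh εt dt alf tol κ
  topM : a = kt + 1 → TopM K kt m0 E (2 * CF) a CF εT εH dH tol alm dtm tol'
  CF1 : 1 ≤ CF
  εT0 : 0 < εT
  εT1 : εT ≤ 1
  εH0 : 0 < εH
  εH1 : εH ≤ 1
  tol0 : 0 < tol
  η0 : 0 < η
  η1 : η ≤ 1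
  ηt : η ≤ tol
  ηt' : η ≤ tol'
  hL : (2 * kt + 1) * (m0 * E + M + E) + 2 * CF * E ≤ L
  n1 : 1 ≤ n'
  n2 : n' ≤ n
  hβ : 4 * β ≤ L ^ (n - n')
  hBβ : 2 * (2 * (CF * E) + 1) ≤ η * β
  hnum : 8 * (kt * (2 * a * Real.log 2 + 1)) * L ≤ η * n'
  b0h : ∀ j, 1 ≤ j → j ≤ kt →
    TkB τM dM fM fm Rm gm δm dm E m0 ((a - j) * (m0 + 1) / a) (δh j) (a - j)
  b0t : ∀ i, 1 ≤ i → i ≤ kt →
    TkB τM dM fM fm Rm gm δm dm E m0 ((a - i) * (m0 + 1) / a) (δt i) (a - i)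
  b1 : TkB τM dM fM fm Rm gm δm dm (CF * E) 2 (1 / a) δT 1
  b2 : TkB τM dM fM fm Rm gm δm dm (εT * CF * E) (2 / εT) (1 / a) δH 1

/-- The number of the values of the rounded points. -/
theorem cnt_rec {m : ℕ} {S : PCl m} {al : ℝ} {g₀ : ℝ → ℝ} {P : List (Fin m) × Fin m → ℝ → ℝ → ℝ}
    {θ : ℝ} {P₂ : ℕ → List (Fin m) × Fin m → ℝ → ℝ → ℝ} {θ₂ Eb e₂ : ℕ → ℝ}
    {c : ℕ → Fin m} {Pt : ℝ → ℝ → ℝ} {rt : ℝ → ℝ} {h K₀ g : ℝ} {L T : ℕ → ℝ → ℝ → ℝ}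
    {Sl : ℕ → ℝ} {κ : ℕ → Kg} {G : Set ℝ} {S₀ N : ℕ} {A V : ℕ → ℝ} {S₂ N' : ℕ} {V' : ℕ → ℝ}
    {K' ε q t : ℝ}
    (R : RecG S al g₀ P θ P₂ θ₂ Eb e₂ c Pt rt h K₀ g L T Sl κ G S₀ N A V S₂ N' V' K' ε q t) :
    Bas S (fun J F A => (cnt F.p (fun ω => ptr F J ω) A : ℝ) ≤ Real.exp ((4 * m + 1 : ℝ) * J)) := by
  refine ⟨1, one_pos, 1, fun J hJ F A hA => ?_⟩
  refine (cnt_ptr (R.gd _ _ _ _ hA) (R.zc _ _ _ _ hA) A le_rfl).trans (Real.exp_le_exp.2 ?_)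
  have h1 : (1 : ℝ) ≤ J := by exact_mod_cast hJ
  have h2 : (2 * m : ℝ) * 1 ≤ 2 * m * J := mul_le_mul_of_nonneg_left h1 (by positivity)
  linarith only [h2]

/-- In a subclass. -/
theorem FrH.sub {r K : ℕ} {S₁ S₂ : PCl (r + 2)} {c : ℕ → Fin (r + 2)} {L : ℕ → ℝ → ℝ → ℝ}
    {a e₀ ρ₀ μ γ s An Dn b w t : ℝ} {i : ℕ} {d q δ₁ : ℝ}
    (hs : ∀ (τ : ℝ) (J : ℕ) (F : Fam (r + 2) J) (A : F.Ω → Prop), S₂.St τ J F A →
      S₁.St τ J F A) (H : FrH K S₁ c L a e₀ ρ₀ μ γ s An Dn b w t i d q δ₁) :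
    FrH K S₂ c L a e₀ ρ₀ μ γ s An Dn b w t i d q δ₁ :=
  fun S' Ψ₀ hn h => H S' Ψ₀ hn fun τ J F A h' => hs τ J F A (h τ J F A h')

section

variable {r D K kt m0 E M CF L₀ n₀ n' β : ℕ} {κ₁ : ℝ} {εh δh : ℕ → ℝ} {dh : ℕ → ℝ → ℝ}
  {εt δt : ℕ → ℝ} {dt : ℕ → ℝ → ℝ} {εT δT εH δH : ℝ} {dH : ℝ → ℝ} {alf : ℕ → ℝ}
  {alm dtm tol tol' : ℝ}
  {a h K₀ τM dM fM XG φ X kf ℓ Tn A₁ D₁ Xf K₁ Kc K' : ℝ}
  {fm Rm gm δm dm lm : ℝ} {η ev γ₀ s₀ μ₀ e' ms el dl ε : ℝ}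
  {S S₁ : PCl (r + 2)} {al : ℝ} {g₀ : ℝ → ℝ}
    {P : List (Fin (r + 2)) × Fin (r + 2) → ℝ → ℝ → ℝ} {θ : ℝ}
    {P₂ : ℕ → List (Fin (r + 2)) × Fin (r + 2) → ℝ → ℝ → ℝ} {θ₂ Eb e₂ : ℕ → ℝ}
    {c : ℕ → Fin (r + 2)} {Pt : ℝ → ℝ → ℝ} {rt : ℝ → ℝ} {g : ℝ} {L T : ℕ → ℝ → ℝ → ℝ}
    {Sl : ℕ → ℝ} {κ : ℕ → Kg} {G : Set ℝ} {S₀ N : ℕ} {A V : ℕ → ℝ} {S₂ N' : ℕ} {V' : ℕ → ℝ}
    {q t e₀ ρ₀ π₀ μ : ℝ} {k₀ : ℕ}

/-- **The rate of the order** `1` **is small** at a record. -/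
theorem core_rec
    (Pl : Plan r D K kt m0 E M CF L₀ n₀ n' β a h κ₁ εh δh dh εt δt dt εT δT εH δH dH alf alm dtm
      tol tol' η τM dM fM fm Rm gm δm dm)
    (H : GrA r D S S₁ al g₀ P θ P₂ θ₂ Eb e₂ c Pt rt h K₀ g L T Sl κ G S₀ N A V S₂ N' V'
      K' ε q t a e₀ ρ₀ π₀ μ el dl k₀)
    (R : RecG S al g₀ P θ P₂ θ₂ Eb e₂ c Pt rt h K₀ g L T Sl κ G S₀ N A V S₂ N' V' K' ε q t)
    (B : BigN r K a K₀ τM dM fM XG φ X kf ℓ Tn A₁ D₁ Xf K₁ Kc K')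
    (s : SmN r kt a h K₀ τM dM fM fm Rm gm δm dm φ lm L₀ n₀ η ev γ₀ s₀ μ₀ e' ms el dl ε)
    (Q : QSm a K₀ τM dM fM Tn μ q k₀) (hh : 0 < h) (hD : 1 ≤ D) (hK : max D D * max 1 D = K)
    (hXG : CF * E ≤ XG)
    (hst : ∀ k ≤ n₀, ∀ p ≤ L₀ ^ k, (∃ (M' : ℕ) (W : ℕ → ℝ),
      WinT r N' V' K₀ m0 Tn X ms (p / (L₀ : ℝ) ^ k) (E / (L₀ : ℝ) ^ k) M' W) ∧
      (∃ (M' : ℕ) (W : ℕ → ℝ),
        WinT r N' V' K₀ 2 Tn X ms (p / (L₀ : ℝ) ^ k) (CF * E / (L₀ : ℝ) ^ k) M' W) ∧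
      ∃ (M' : ℕ) (W : ℕ → ℝ),
        WinT r N' V' K₀ (2 / εT) Tn X ms (p / (L₀ : ℝ) ^ k) (εT * CF * E / (L₀ : ℝ) ^ k) M' W)
    (hgr : ∀ i ≤ L₀ ^ n₀, ∃ j < N', V' j = i / (L₀ : ℝ) ^ n₀)
    (hgap : ∀ y, -K₁ ≤ y → y ≤ K₁ → ∃ j < N', y - μ₀ ≤ V' j ∧ V' j ≤ y)
    (hb : ∃ j < N', V' j = -Tn)
    (hv : ∀ i < r, ∃ j < N', V' j = -(Tn + (A₁ + 4 * D₁) * 4 ^ (r - i) + 3 * D₁))
    (hμ : μ / 2 ≤ t + -Tn * q) (dp1 : a * (m0 + 1) * E + 1 ≤ Tn)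
    (dp2 : a < kt + 1 → a * (m0 + 1) * E + 1 ≤ ((kt : ℝ) + 1 - a) * Tn)
    {φr : ℕ → ℝ} (hφk : φr (kt + 1) = 0) {gv Rv : ℝ} (hR : t + q ≤ gv + Rv * q)
    (hV : ∀ x o : ℝ, t + -Tn * q ≤ x → x ≤ o → o ≤ gv + Rv * q → o - (t + -Tn * q) ≤ D₁ * q →
      L r o o ≤ L r (t + -Tn * q) (t + -Tn * q) + A₁ * q → ∀ i : ℕ, 1 ≤ i → i ≤ kt →
      (∀ N s : ℝ, 0 ≤ s → N ≤ L r o o - i * o + s →
        FewC S (fun J F => ptr F J) (vg x) (fun _ F => F.T)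
          (paQ (r + 2) c r (t + -Tn * q) (fun l => L l (t + -Tn * q) (t + -Tn * q))
            (fun l => L l (t + -Tn * q) (t + -Tn * q) + dgj (A₁ * q) (D₁ * q) r l + 2 * (D₁ * q))
            (fun l => L l (t + -Tn * q) (t + -Tn * q) + dgj (A₁ * q) (D₁ * q) r l + 2 * (D₁ * q) -
              (t + -Tn * q)))
          (qJet (r + 2) ((range r).image c) (c r) i (t + -Tn * q)
            (L r (t + -Tn * q) (t + -Tn * q)) N)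
          (φr i * (o - x) + ev * q + s * Real.log 2)) ∧
      ∀ N s : ℝ, 0 ≤ s → L r o o - i * o ≤ N + s → ∃ e₀ : ℝ, 0 < e₀ ∧
        AlvQ S x (fun _ F => F.T)
          (paQ (r + 2) c r (t + -Tn * q) (fun l => L l (t + -Tn * q) (t + -Tn * q))
            (fun l => L l (t + -Tn * q) (t + -Tn * q) + dgj (A₁ * q) (D₁ * q) r l + 2 * (D₁ * q))
            (fun l => L l (t + -Tn * q) (t + -Tn * q) + dgj (A₁ * q) (D₁ * q) r l + 2 * (D₁ * q) -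
              (t + -Tn * q)))
          (qJet (r + 2) ((range r).image c) (c r) i (t + -Tn * q)
            (L r (t + -Tn * q) (t + -Tn * q)) N) e₀
          ((φr i - φr (i + 1)) * (o - x) - ev * q - s * Real.log 2))
    (hFr : ∀ i, 1 ≤ i → i ≤ kt → ∀ k ≤ n₀, ∀ p ≤ L₀ ^ k,
      FrH K S₁ c L a e₀ ρ₀ μ (γ₀ * q) (s₀ * q) (A₁ * q) (D₁ * q) (t + -Tn * q)
        (t + ((p : ℕ) / (L₀ : ℝ) ^ k - m0 * (E / (L₀ : ℝ) ^ k)) * q)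
        (t + ((p : ℕ) / (L₀ : ℝ) ^ k) * q) i (a - i) (E / (L₀ : ℝ) ^ k * q) (dt i (alf i)))
    (hFrT : a = kt + 1 → ∀ k ≤ n₀, ∀ p ≤ L₀ ^ k,
      FrH K S₁ c L a e₀ ρ₀ μ (γ₀ * q) (s₀ * q) (A₁ * q) (D₁ * q) (t + -Tn * q)
        (t + ((p : ℕ) / (L₀ : ℝ) ^ k - 2 * (CF * E / (L₀ : ℝ) ^ k)) * q)
        (t + ((p : ℕ) / (L₀ : ℝ) ^ k) * q) (kt + 1) 1 (CF * E / (L₀ : ℝ) ^ k * q) dtm) :
    φr 1 < κ₁ := by
  have hq := R.q0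
  have ha := B.ha
  have ha0 : 0 < a := by linarith only [ha]
  have hE := Pl.hE
  have hCF := Pl.CF1
  have hL : 1 ≤ L₀ := by
    have h1 := Pl.hL
    have h2 : 1 ≤ 2 * CF * E := by nlinarith
    omega
  have hL0 : (0 : ℝ) < L₀ := by exact_mod_cast hL
  have hL1 : (1 : ℝ) ≤ L₀ := by exact_mod_cast hL
  have hLp : (0 : ℝ) < (L₀ : ℝ) ^ n₀ := by positivity
  have hTn2 := B.Tn2
  have hXG0 := B.XG0
  have hTn0 : 0 < Tn := by linarith only [hTn2, hXG0, ha]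
  have g := grd_rec hL H R B s hgr hgap hb
  have hl2 : Real.log 2 ≤ 1 := by
    have := Real.log_two_lt_d9
    linarith only [this]
  have hε0 := s.ε0
  -- the rates of the place
  obtain ⟨vf, va⟩ := g.vfa hV (by
    show t + (((L₀ ^ n₀ : ℕ) : ℝ) / (L₀ : ℝ) ^ n₀) * q ≤ gv + Rv * q
    rw [Nat.cast_pow, div_self hLp.ne', one_mul]
    exact hR)
  have g₁ := g.sub H.hs
  have hM := (cnt_rec R).sub H.hs
  have hs2 := s.s2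
  have ht1 := R.t1
  have hK'2 := B.K'2
  have hK1 := B.K₁1
  have hD1 := B.D1
  have hA1 := B.A1
  have haT : 0 < a * (Tn + 1) := mul_pos ha0 (by linarith only [hTn0])
  have hA0 : 0 < A₁ := by linarith only [hA1, haT, hXG0]
  have hD0 : 0 < D₁ := by linarith only [hD1, hTn0]
  have hAr1 : 0 < (A₁ + 4 * D₁) * 4 ^ r := by
    have : 0 < A₁ + 4 * D₁ := by linarith only [hA0, hD0]
    positivity
  have htq : t + q ≤ 1 := by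
    have h1 : 1 * q ≤ K' * q := mul_le_mul_of_nonneg_right
      (by linarith only [hK'2, hK1, hTn0, hAr1, hD0]) hq.le
    linarith only [h1, ht1]
  have hsm : 12 * (((L₀ : ℝ) + 1) * (kt + 1)) * (s₀ * q + 3 * (2 * ε * q) + a * (μ₀ * q) + γ₀ * q) ≤
      η * (q / (L₀ : ℝ) ^ n₀) := by
    have h1 := mul_le_mul_of_nonneg_right s.box hq.le
    have e1 : 12 * (((L₀ : ℝ) + 1) * (kt + 1)) *
        (s₀ * q + 3 * (2 * ε * q) + a * (μ₀ * q) + γ₀ * q) =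
        12 * (((L₀ : ℝ) + 1) * (kt + 1)) * (s₀ + 6 * ε + a * μ₀ + γ₀) * q := by ring
    have e2 : η * (q / (L₀ : ℝ) ^ n₀) = η / (L₀ : ℝ) ^ n₀ * q := by ring
    rw [e1, e2]
    exact h1
  have he₁ : ev * q + 2 * ε * q * Real.log 2 ≤ η * (q / (L₀ : ℝ) ^ n₀) := by
    have h1 := mul_le_mul_of_nonneg_right s.ev1 hq.le
    have e2 : η * (q / (L₀ : ℝ) ^ n₀) = η / (L₀ : ℝ) ^ n₀ * q := by ring
    have h2 : 2 * ε * q * Real.log 2 ≤ 2 * ε * q :=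
      mul_le_of_le_one_right (by positivity) hl2
    rw [e2]
    linarith only [h1, h2]
  have hdeep : a * (m0 + 1) * (E * q) + s₀ * q ≤ t - (t + -Tn * q) := by
    have h1 := mul_le_mul_of_nonneg_right dp1 hq.le
    have h2 := mul_le_mul_of_nonneg_right hs2 hq.le
    linarith only [h1, h2, hq]
  have hlam : ∀ k ≤ n₀, ∀ f : ℝ, fm ≤ f → lm ≤ f / (L₀ : ℝ) ^ k ∧ f / (L₀ : ℝ) ^ k ≤ f := by
    intro k hk f hf
    have h1 : (0 : ℝ) < (L₀ : ℝ) ^ k := by positivity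
    have h2 : (L₀ : ℝ) ^ k ≤ (L₀ : ℝ) ^ n₀ := pow_le_pow_right₀ hL1 hk
    have h3 := s.lmn
    have h4 := s.lm0
    have h5 := s.fm0
    constructor
    · rw [le_div_iff₀ h1]
      have := mul_le_mul_of_nonneg_left h2 h4.le
      linarith only [this, h3, hf]
    · exact div_le_self (by linarith only [h5, hf]) (one_le_pow₀ hL1)
  have hpx : ∀ k : ℕ, ∀ p ≤ L₀ ^ k, (0 : ℝ) ≤ (p : ℕ) / (L₀ : ℝ) ^ k ∧
      ((p : ℕ) : ℝ) / (L₀ : ℝ) ^ k ≤ 1 := by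
    intro k p hp
    refine ⟨by positivity, ?_⟩
    rw [div_le_one (by positivity)]
    exact_mod_cast hp
  have hop : ∀ S' : PCl (r + 2), S'.Ne →
      (∀ (τ : ℝ) (J : ℕ) (F : Fam (r + 2) J) (A : F.Ω → Prop), S'.St τ J F A → S₁.St τ J F A) →
      ∀ j, 1 ≤ j → j ≤ kt → ∀ k ≤ n₀, ∀ P ≤ L₀ ^ k, ∀ al : ℝ, 0 < al →
      HopB S' c r K a (t + -Tn * q) (fun l x => L l x x) (γ₀ * q) (s₀ * q)
        (paG (r + 2) c r (t + -Tn * q) (fun l x => L l x x) (A₁ * q) (D₁ * q)) j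
        (t + ((P : ℕ) / (L₀ : ℝ) ^ k - m0 * (E / (L₀ : ℝ) ^ k)) * q)
        (t + ((P : ℕ) / (L₀ : ℝ) ^ k) * q) (a * ((a - j) / a * (E / (L₀ : ℝ) ^ k * q))) (εh j)
        ((a - j) / a * (E / (L₀ : ℝ) ^ k * q)) al (dh j al) := by
    intro S' hS' hs' j j1 j2 k hk p hp al hal
    obtain ⟨⟨M', W, w⟩, -⟩ := hst k hk p hp
    have hb0 := Pl.b0h j j1 j2
    obtain ⟨h1, h2⟩ := hlam k hk E hb0.f1
    exact hop_mv (Pl.hopC j j1 j2 al hal) (H.sub hS' hs') B s hb0 (hpx k p hp).1 (hpx k p hp).2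
      h1 h2 w hb hv hK.le Q
  have tie : ∀ S' : PCl (r + 2), S'.Ne →
      (∀ (τ : ℝ) (J : ℕ) (F : Fam (r + 2) J) (A : F.Ω → Prop), S'.St τ J F A → S₁.St τ J F A) →
      ∀ i, 1 ≤ i → i ≤ kt → ∀ k ≤ n₀, ∀ P ≤ L₀ ^ k,
      TieB S' c r K a (t + -Tn * q) (fun l x => L l x x) (γ₀ * q) (s₀ * q)
        (paG (r + 2) c r (t + -Tn * q) (fun l x => L l x x) (A₁ * q) (D₁ * q)) i
        (t + ((P : ℕ) / (L₀ : ℝ) ^ k - m0 * (E / (L₀ : ℝ) ^ k)) * q)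
        (t + ((P : ℕ) / (L₀ : ℝ) ^ k) * q) (a * ((a - i) / a * (E / (L₀ : ℝ) ^ k * q))) (εt i)
        ((a - i) / a * (E / (L₀ : ℝ) ^ k * q)) (alf i) (dt i (alf i)) := by
    intro S' hS' hs' j j1 j2 k hk p hp
    obtain ⟨⟨M', W, w⟩, -⟩ := hst k hk p hp
    have hb0 := Pl.b0t j j1 j2
    obtain ⟨h1, h2⟩ := hlam k hk E hb0.f1
    exact tie_mv (Pl.tieC j j1 j2) (H.sub hS' hs') B s hb0 (hpx k p hp).1 (hpx k p hp).2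
      h1 h2 w hb hv hK Q hD hh hμ ((hFr j j1 j2 k hk p hp).sub hs')
  rcases lt_or_eq_of_le Pl.hka with hlt | heq
  · have hdeep' : a * (m0 + 1) * (E * q) + s₀ * q ≤ ((kt : ℝ) + 1 - a) * (t - (t + -Tn * q)) := by
      have h1 := mul_le_mul_of_nonneg_right (dp2 hlt) hq.le
      have h2 := mul_le_mul_of_nonneg_right hs2 hq.le
      have e1 : ((kt : ℝ) + 1 - a) * (t - (t + -Tn * q)) = ((kt : ℝ) + 1 - a) * Tn * q := by ring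
      rw [e1]
      linarith only [h1, h2, hq]
    exact dead_lt Pl.boxM Pl.hkt.le hlt H.ne hM g₁ hL Pl.n1 Pl.n2 hq htq Pl.η0 Pl.η1 Pl.ηt
      (fun i _ => rfl) Pl.hnum hsm he₁ (fun l l1 l2 i j hij hj => (vf l l1 l2 i j hij hj).sub H.hs)
      (fun l l1 l2 i j hij hj => (va l l1 l2 i j hij hj).sub H.hs)
      (by rw [hφk]; exact Pl.tol0.le) (by
        have := Pl.hL
        omega) hdeep hdeep' hop tie
  · have hCX : (CF : ℝ) * (E * q) ≤ XG * q := by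
      have := mul_le_mul_of_nonneg_right hXG hq.le
      linarith only [this]
    refine dead_eq (CF := CF) (M0 := 2 * CF) Pl.boxM (Pl.topM heq) heq (Nat.cast_nonneg _)
      Pl.εT0.le Pl.εT1 Pl.εH0.le Pl.εH1 H.ne hM g₁ hL Pl.n1 Pl.n2 Pl.hβ hCX Pl.hBβ hq htq Pl.η0
      Pl.η1 Pl.ηt Pl.ηt' (fun i _ => rfl) Pl.hnum hsm he₁
      (fun l l1 l2 i j hij hj => (vf l l1 l2 i j hij hj).sub H.hs)
      (fun l l1 l2 i j hij hj => (va l l1 l2 i j hij hj).sub H.hs)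
      (by rw [hφk]; exact Pl.tol0.le) Pl.hL hdeep hop tie (fun S' hS' hs' k hk p hp => ?_)
      (fun S' hS' hs' k hk p hp al hal => ?_)
    · obtain ⟨-, ⟨M', W, w⟩, -⟩ := hst k hk p hp
      obtain ⟨h1, h2⟩ := hlam k hk (CF * E) Pl.b1.f1
      have key := tie_mv (Pl.tieT heq) (H.sub hS' hs') B s Pl.b1 (hpx k p hp).1 (hpx k p hp).2
        h1 h2 w hb hv hK Q hD hh hμ ((hFrT heq k hk p hp).sub hs')
      have e1 : (2 : ℝ) * (CF * E / (L₀ : ℝ) ^ k) = ((2 * CF : ℕ) : ℝ) * (E / (L₀ : ℝ) ^ k) := by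
        push_cast
        ring
      have e2 : 1 / a * (CF * E / (L₀ : ℝ) ^ k * q) = CF / a * (E / (L₀ : ℝ) ^ k * q) := by
        ring
      rw [e1, e2] at key
      exact key
    · obtain ⟨-, -, ⟨M', W, w⟩⟩ := hst k hk p hp
      obtain ⟨h1, h2⟩ := hlam k hk (εT * CF * E) Pl.b2.f1
      have key := hop_mv (Pl.hopT heq al hal) (H.sub hS' hs') B s Pl.b2 (hpx k p hp).1
        (hpx k p hp).2 h1 h2 w hb hv hK.le Q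
      have hεT := Pl.εT0
      have e1 : 2 / εT * (εT * CF * E / (L₀ : ℝ) ^ k) =
          ((2 * CF : ℕ) : ℝ) * (E / (L₀ : ℝ) ^ k) := by
        push_cast
        field_simp
      have e2 : 1 / a * (εT * CF * E / (L₀ : ℝ) ^ k * q) =
          εT * CF / a * (E / (L₀ : ℝ) ^ k * q) := by ring
      rw [e1, e2] at key
      exact key

end

end Pool.AB18
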